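import Mathlib

open MeasureTheory Filter Topology Set
open scoped Pointwise

namespace MPdcbbce

/-- A weighted base four digit sum. -/
noncomputable def V (c : Fin 4 → ℝ) (d : ℕ → Fin 4) : ℝ := ∑' i, c (d i) * ((4 : ℝ) ^ (i + 1))⁻¹

lemma V_summable (c : Fin 4 → ℝ) (d : ℕ → Fin 4) :
    Summable (fun i => c (d i) * ((4 : ℝ) ^ (i + 1))⁻¹) := by
  obtain ⟨K, hK⟩ : ∃ K : ℝ, ∀ j, |c j| ≤ K := by
    refine ⟨∑ j, |c j|, fun j => ?_⟩
    exact Finset.single_le_sum (f := fun j => |c j|) (fun i _ => abs_nonneg _) (Finset.mem_univ j)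
  have hs : Summable (fun i : ℕ => K * ((4 : ℝ)⁻¹ ^ i)) :=
    (summable_geometric_of_lt_one (by norm_num) (by norm_num)).mul_left K
  refine Summable.of_norm_bounded hs (fun i => ?_)
  rw [Real.norm_eq_abs, abs_mul]
  have h1 : |((4 : ℝ) ^ (i + 1))⁻¹| ≤ (4 : ℝ)⁻¹ ^ i := by
    rw [abs_of_nonneg (by positivity), inv_pow]
    gcongr
    · norm_num
    · omega
  exact mul_le_mul (hK _) h1 (abs_nonneg _) ((abs_nonneg _).trans (hK 0))

lemma V_continuous (c : Fin 4 → ℝ) : Continuous (V c) := by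
  obtain ⟨K, hK⟩ : ∃ K : ℝ, ∀ j, |c j| ≤ K := by
    refine ⟨∑ j, |c j|, fun j => ?_⟩
    exact Finset.single_le_sum (f := fun j => |c j|) (fun i _ => abs_nonneg _) (Finset.mem_univ j)
  have hs : Summable (fun i : ℕ => K * ((4 : ℝ)⁻¹ ^ i)) :=
    (summable_geometric_of_lt_one (by norm_num) (by norm_num)).mul_left K
  refine continuous_tsum (u := fun i => K * ((4 : ℝ)⁻¹ ^ i)) (fun i => ?_) hs (fun i d => ?_)
  · exact ((continuous_of_discreteTopology (f := c)).comp (continuous_apply i)).mul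
      continuous_const
  rw [Real.norm_eq_abs, abs_mul]
  have h1 : |((4 : ℝ) ^ (i + 1))⁻¹| ≤ (4 : ℝ)⁻¹ ^ i := by
    rw [abs_of_nonneg (by positivity), inv_pow]
    gcongr
    · norm_num
    · omega
  exact mul_le_mul (hK _) h1 (abs_nonneg _) ((abs_nonneg _).trans (hK 0))

lemma V_split (c : Fin 4 → ℝ) (d : ℕ → Fin 4) (m : ℕ) :
    V c d = (∑ i : Fin m, c (d i) * ((4 : ℝ) ^ ((i : ℕ) + 1))⁻¹) +
      ((4 : ℝ) ^ m)⁻¹ * V c (fun i => d (i + m)) := by
  unfold V
  rw [← Summable.sum_add_tsum_nat_add m (V_summable c d), ← Summable.tsum_mul_left _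
    (V_summable c _)]
  congr 1
  · rw [Finset.sum_range]
  · congr 1
    ext i
    rw [show i + m + 1 = m + (i + 1) by ring, pow_add]
    rw [mul_inv]
    ring

lemma V_add (c c' : Fin 4 → ℝ) (s : ℝ) (d : ℕ → Fin 4) :
    V (fun j => c j + s * c' j) d = V c d + s * V c' d := by
  unfold V
  rw [← tsum_mul_left, ← Summable.tsum_add (V_summable c d) ((V_summable c' d).mul_left s)]
  congr 1
  ext i
  ring

lemma V_range_null (c : Fin 4 → ℝ) (m : ℕ) (w w' : Fin m → Fin 4) (hne : w ≠ w')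
    (heq : (∑ i : Fin m, c (w i) * ((4 : ℝ) ^ ((i : ℕ) + 1))⁻¹) =
      ∑ i : Fin m, c (w' i) * ((4 : ℝ) ^ ((i : ℕ) + 1))⁻¹) :
    volume (range (V c)) = 0 := by
  classical
  set f : (Fin m → Fin 4) → ℝ := fun w => ∑ i : Fin m, c (w i) * ((4 : ℝ) ^ ((i : ℕ) + 1))⁻¹
    with hf
  set S : Finset ℝ := Finset.univ.image f with hS
  have hcard : S.card < 4 ^ m := by
    have h1 : S.card ≤ (Finset.univ : Finset (Fin m → Fin 4)).card := Finset.card_image_le
    have h2 : (Finset.univ : Finset (Fin m → Fin 4)).card = 4 ^ m := by simp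
    rcases lt_or_eq_of_le h1 with h | h
    · omega
    · exfalso
      have := Finset.card_image_iff.mp h
      exact hne (this (by simp) (by simp) heq)
  set P := range (V c) with hP
  have hcover : P ⊆ ⋃ a ∈ S, (fun x => a + x) '' ((((4 : ℝ) ^ m)⁻¹) • P) := by
    rintro _ ⟨d, rfl⟩
    simp only [mem_iUnion, exists_prop]
    refine ⟨f (fun i => d i), Finset.mem_image_of_mem _ (Finset.mem_univ _), ?_⟩
    refine ⟨((4 : ℝ) ^ m)⁻¹ * V c (fun i => d (i + m)), ?_, ?_⟩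
    · exact ⟨_, ⟨_, rfl⟩, rfl⟩
    · exact (V_split c d m).symm
  have hfin : volume P < ⊤ := by
    have hcomp : IsCompact P := isCompact_range (V_continuous c)
    exact hcomp.measure_lt_top
  have hpiece : ∀ a : ℝ, volume ((fun x => a + x) '' ((((4 : ℝ) ^ m)⁻¹) • P)) =
      ENNReal.ofReal ((4 : ℝ) ^ m)⁻¹ * volume P := by
    intro a
    rw [image_add_left, measure_preimage_add, Measure.addHaar_smul]
    simp
  have hle : volume P ≤ S.card * (ENNReal.ofReal ((4 : ℝ) ^ m)⁻¹ * volume P) := by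
    calc volume P ≤ volume (⋃ a ∈ S, (fun x => a + x) '' ((((4 : ℝ) ^ m)⁻¹) • P)) :=
          measure_mono hcover
      _ ≤ ∑ a ∈ S, volume ((fun x => a + x) '' ((((4 : ℝ) ^ m)⁻¹) • P)) :=
          measure_biUnion_finset_le _ _
      _ = S.card * (ENNReal.ofReal ((4 : ℝ) ^ m)⁻¹ * volume P) := by
          simp only [hpiece, Finset.sum_const, nsmul_eq_mul]
  set t := (volume P).toReal with ht
  have ht0 : 0 ≤ t := ENNReal.toReal_nonneg
  have hle' : t ≤ S.card * (((4 : ℝ) ^ m)⁻¹ * t) := by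
    have := ENNReal.toReal_mono (by
      exact ENNReal.mul_ne_top (by simp) (ENNReal.mul_ne_top (by simp) hfin.ne)) hle
    rw [ENNReal.toReal_mul, ENNReal.toReal_mul, ENNReal.toReal_ofReal (by positivity)] at this
    simpa using this
  have h4 : (0 : ℝ) < 4 ^ m := by positivity
  have hcard' : (S.card : ℝ) < 4 ^ m := by exact_mod_cast hcard
  have : t = 0 := by
    by_contra hne0
    have htpos : 0 < t := lt_of_le_of_ne ht0 (Ne.symm hne0)
    have h5 : (S.card : ℝ) * (((4 : ℝ) ^ m)⁻¹ * t) < t := by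
      rw [← mul_assoc]
      have : (S.card : ℝ) * ((4 : ℝ) ^ m)⁻¹ < 1 := by
        rw [← div_eq_mul_inv, div_lt_one h4]; exact hcard'
      nlinarith
    linarith
  rw [ht, ENNReal.toReal_eq_zero_iff] at this
  rcases this with h | h
  · exact h
  · exact absurd h hfin.ne

/-- The weights of the first coordinate. -/
def cX : Fin 4 → ℝ := ![0, 1, 0, 1]
/-- The weights of the projection which is onto. -/
def cW : Fin 4 → ℝ := ![0, 1, 2, 3]

lemma V_nonneg {c : Fin 4 → ℝ} (hc : ∀ j, 0 ≤ c j) (d : ℕ → Fin 4) : 0 ≤ V c d :=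
  tsum_nonneg fun i => mul_nonneg (hc _) (by positivity)

lemma geom_hasSum (K : ℝ) : HasSum (fun i : ℕ => K * ((4 : ℝ) ^ (i + 1))⁻¹) (K / 3) := by
  have h := (hasSum_geometric_of_lt_one (r := (4 : ℝ)⁻¹) (by norm_num) (by norm_num)).mul_left
    (K / 4)
  have e : K / 4 * (1 - (4 : ℝ)⁻¹)⁻¹ = K / 3 := by norm_num; ring
  rw [e] at h
  have e2 : (fun i : ℕ => K * ((4 : ℝ) ^ (i + 1))⁻¹) = fun i : ℕ => K / 4 * (4 : ℝ)⁻¹ ^ i := by
    ext i
    rw [pow_succ, mul_inv, inv_pow]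
    ring
  rw [e2]
  exact h

lemma V_le {c : Fin 4 → ℝ} {K : ℝ} (hc : ∀ j, c j ≤ K) (d : ℕ → Fin 4) : V c d ≤ K / 3 := by
  have h1 := geom_hasSum K
  rw [← h1.tsum_eq]
  exact Summable.tsum_le_tsum (fun i => mul_le_mul_of_nonneg_right (hc _) (by positivity))
    (V_summable c d) h1.summable

lemma V_cW_eq (d : ℕ → Fin 4) : V cW d = Real.ofDigits d := by
  unfold V Real.ofDigits
  congr 1
  ext i
  unfold Real.ofDigitsTerm
  have : cW (d i) = ((d i : ℕ) : ℝ) := by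
    generalize d i = j
    fin_cases j <;> simp [cW]
  rw [this]
  norm_num

lemma geom_fin (n : ℕ) : ∑ i : Fin n, ((4 : ℝ) ^ ((i : ℕ) + 1 + 1))⁻¹ =
    (1 - ((4 : ℝ) ^ n)⁻¹) / 12 := by
  rw [← Finset.sum_range (f := fun i => ((4 : ℝ) ^ (i + 1 + 1))⁻¹)]
  induction n with
  | zero => simp
  | succ n ih =>
    rw [Finset.sum_range_succ, ih]
    have : ((4 : ℝ) ^ n) ≠ 0 := by positivity
    rw [pow_succ, pow_succ]
    field_simp
    ring

lemma null_slope (n : ℕ) : volume (range (V (fun j => cW j +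
    (3 * ((4 : ℝ) ^ n)⁻¹ / (4 - ((4 : ℝ) ^ n)⁻¹)) * cX j))) = 0 := by
  have hr1 : ((4 : ℝ) ^ n)⁻¹ ≤ 1 := inv_le_one_of_one_le₀ (one_le_pow₀ (by norm_num))
  refine V_range_null _ (n + 1) (fun i => if i = 0 then 1 else 3) (fun i => if i = 0 then 2 else 0)
    ?_ ?_
  · intro h
    have := congrFun h 0
    simp at this
  · rw [Fin.sum_univ_succ, Fin.sum_univ_succ]
    simp only [if_true, Fin.succ_ne_zero, if_false, Fin.val_zero, Fin.val_succ]
    rw [← Finset.mul_sum, ← Finset.mul_sum, geom_fin]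
    simp only [cW, cX]
    simp
    have h4 : (4 - ((4 : ℝ) ^ n)⁻¹) ≠ 0 := by linarith
    generalize ((4 : ℝ) ^ n)⁻¹ = r at *
    field_simp
    ring

/-- The planar Cantor set: compact, contained in a small rectangle, its projection to the vertical
axis is a full interval, while its projections along directions arbitrarily close to the
horizontal one are null. -/
theorem exists_C : ∃ C : Set (ℝ × ℝ), IsCompact C ∧
    (∀ p ∈ C, 1 / 3 ≤ p.1 ∧ p.1 ≤ 2 / 3 ∧ 1 / 16 ≤ p.2 ∧ p.2 ≤ 1 / 8) ∧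
    (∀ y : ℝ, 1 / 16 ≤ y → y ≤ 1 / 8 → ∃ x, (x, y) ∈ C) ∧
    (∀ ε > 0, ∃ τ : ℝ, 0 < |τ| ∧ |τ| < ε ∧
      volume ((fun p : ℝ × ℝ => p.2 - τ * p.1) '' C) = 0) := by
  refine ⟨range (fun d : ℕ → Fin 4 => ((1 / 3 + V cX d, 1 / 16 + V cW d / 16) : ℝ × ℝ)),
    ?_, ?_, ?_, ?_⟩
  · apply isCompact_range
    have h1 := V_continuous cX
    have h2 := V_continuous cW
    fun_prop
  · rintro _ ⟨d, rfl⟩
    have h1 : 0 ≤ V cX d := V_nonneg (by intro j; fin_cases j <;> simp [cX]) d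
    have h2 : 0 ≤ V cW d := V_nonneg (by intro j; fin_cases j <;> simp [cW]) d
    have h3 : V cX d ≤ 1 / 3 := V_le (by intro j; fin_cases j <;> simp [cX]) d
    have h4 : V cW d ≤ 3 / 3 := V_le (by intro j; fin_cases j <;> norm_num [cW]) d
    dsimp only
    refine ⟨?_, ?_, ?_, ?_⟩ <;> linarith
  · intro y hy1 hy2
    obtain ⟨d, -, hd⟩ := Real.ofDigits_SurjOn (b := 4) (by norm_num)
      (show 16 * y - 1 ∈ Icc (0 : ℝ) 1 from ⟨by linarith, by linarith⟩)
    refine ⟨1 / 3 + V cX d, d, ?_⟩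
    rw [Prod.mk.injEq]
    refine ⟨rfl, ?_⟩
    rw [V_cW_eq, hd]
    ring
  · intro ε hε
    obtain ⟨n, hn⟩ := exists_pow_lt_of_lt_one hε (show (4 : ℝ)⁻¹ < 1 by norm_num)
    rw [inv_pow] at hn
    have hr0 : 0 < ((4 : ℝ) ^ n)⁻¹ := by positivity
    have hr1 : ((4 : ℝ) ^ n)⁻¹ ≤ 1 := inv_le_one_of_one_le₀ (one_le_pow₀ (by norm_num))
    have hnull := null_slope n
    set r := ((4 : ℝ) ^ n)⁻¹ with hr
    set s := 3 * r / (4 - r) with hs
    have hs0 : 0 < s := by apply div_pos <;> linarith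
    have hs1 : s ≤ r := by
      rw [hs, div_le_iff₀ (by linarith)]
      nlinarith
    refine ⟨-(s / 16), ?_, ?_, ?_⟩
    · rw [abs_neg, abs_of_pos (by positivity)]; positivity
    · rw [abs_neg, abs_of_pos (by positivity)]; linarith
    · rw [← range_comp]
      have e : (fun p : ℝ × ℝ => p.2 - -(s / 16) * p.1) ∘
          (fun d : ℕ → Fin 4 => ((1 / 3 + V cX d, 1 / 16 + V cW d / 16) : ℝ × ℝ)) =
          fun d => (1 / 16 + s / 48) + (1 / 16) * V (fun j => cW j + s * cX j) d := by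
        ext d
        rw [V_add]
        simp only [Function.comp]
        ring
      rw [e]
      have e2 : range (fun d => (1 / 16 + s / 48) + (1 / 16) * V (fun j => cW j + s * cX j) d) =
          (fun x => (1 / 16 + s / 48) + x) '' ((1 / 16 : ℝ) •
            range (V (fun j => cW j + s * cX j))) := by
        ext y
        simp only [mem_range, mem_image, mem_smul_set]
        constructor
        · rintro ⟨d, rfl⟩
          exact ⟨_, ⟨_, ⟨d, rfl⟩, rfl⟩, rfl⟩
        · rintro ⟨_, ⟨_, ⟨d, rfl⟩, rfl⟩, rfl⟩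
          exact ⟨d, rfl⟩
      rw [e2, image_add_left, measure_preimage_add, Measure.addHaar_smul, hnull, mul_zero]

end MPdcbbce
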