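import Mathlib

open MeasureTheory Filter Topology Set
open scoped ContDiff

namespace MPdcbbce

/-- The pair `(u, g)` belongs to (the graph of the gradient on) the Sobolev space `H¹₀(Ω)`:
`u` and `g` are square integrable, and there are smooth functions `φ n` with compact support
contained in `Ω` such that `φ n → u` and `∇ (φ n) → g` in `L²`. In other words `u ∈ H¹₀(Ω)` and
`g = ∇ u` (functions being extended by zero outside of `Ω`). -/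
structure IsH10 {d : ℕ} (Ω : Set (EuclideanSpace ℝ (Fin d))) (u : EuclideanSpace ℝ (Fin d) → ℝ)
    (g : EuclideanSpace ℝ (Fin d) → EuclideanSpace ℝ (Fin d)) : Prop where
  memLp_fun : MemLp u 2 volume
  memLp_grad : MemLp g 2 volume
  approx : ∃ φ : ℕ → EuclideanSpace ℝ (Fin d) → ℝ,
    (∀ n, ContDiff ℝ ∞ (φ n)) ∧ (∀ n, HasCompactSupport (φ n)) ∧ (∀ n, tsupport (φ n) ⊆ Ω) ∧
    Tendsto (fun n => eLpNorm (fun x => φ n x - u x) 2 volume) atTop (𝓝 0) ∧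
    Tendsto (fun n => eLpNorm (fun x => gradient (φ n) x - g x) 2 volume) atTop (𝓝 0)

/-- The quotients `∫_Ω H²(∇u) / ∫_Ω u²` for `u ∈ H¹₀(Ω)`, `u ≠ 0`. -/
def eigQuot {d : ℕ} (Ω : Set (EuclideanSpace ℝ (Fin d)))
    (H : Seminorm ℝ (EuclideanSpace ℝ (Fin d))) : Set ℝ :=
  {r | ∃ (u : EuclideanSpace ℝ (Fin d) → ℝ)
    (g : EuclideanSpace ℝ (Fin d) → EuclideanSpace ℝ (Fin d)), IsH10 Ω u g ∧
    (∫ x in Ω, u x ^ 2) ≠ 0 ∧ r = (∫ x in Ω, H (g x) ^ 2) / ∫ x in Ω, u x ^ 2}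

/-- The quotients `(∫_Ω u)² / ∫_Ω H²(∇u)` for `u ∈ H¹₀(Ω)`, `u ≠ 0`. -/
def torQuot {d : ℕ} (Ω : Set (EuclideanSpace ℝ (Fin d)))
    (H : Seminorm ℝ (EuclideanSpace ℝ (Fin d))) : Set ℝ :=
  {r | ∃ (u : EuclideanSpace ℝ (Fin d) → ℝ)
    (g : EuclideanSpace ℝ (Fin d) → EuclideanSpace ℝ (Fin d)), IsH10 Ω u g ∧
    (∫ x in Ω, u x ^ 2) ≠ 0 ∧ r = (∫ x in Ω, u x) ^ 2 / ∫ x in Ω, H (g x) ^ 2}

/-- The first eigenvalue `λ_H(Ω)`. -/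
noncomputable def lam {d : ℕ} (Ω : Set (EuclideanSpace ℝ (Fin d)))
    (H : Seminorm ℝ (EuclideanSpace ℝ (Fin d))) : ℝ := sInf (eigQuot Ω H)

/-- The torsional rigidity `T_H(Ω)`. -/
noncomputable def tor {d : ℕ} (Ω : Set (EuclideanSpace ℝ (Fin d)))
    (H : Seminorm ℝ (EuclideanSpace ℝ (Fin d))) : ℝ := sSup (torQuot Ω H)

/-- The functional `F_{q,Ω}(H) = λ_H(Ω) T_H(Ω)^q`. -/
noncomputable def Fq {d : ℕ} (q : ℝ) (Ω : Set (EuclideanSpace ℝ (Fin d)))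
    (H : Seminorm ℝ (EuclideanSpace ℝ (Fin d))) : ℝ := lam Ω H * tor Ω H ^ q

/-- The class `𝕊` of all seminorms with `‖H‖ = sup_{ξ ≠ 0} H(ξ)/|ξ| = 1`. -/
def InS {d : ℕ} (H : Seminorm ℝ (EuclideanSpace ℝ (Fin d))) : Prop :=
  IsLUB {r : ℝ | ∃ ξ : EuclideanSpace ℝ (Fin d), ξ ≠ 0 ∧ r = H ξ / ‖ξ‖} 1

end MPdcbbce
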