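import Mathlib
import Pool.Agent.Lib_MP_dcbbce_an.Defs

open MeasureTheory Filter Topology Set
open scoped ContDiff ENNReal

namespace MPdcbbce

lemma l2_lim {α : Type*} [MeasurableSpace α] {μ : Measure α} {f : ℕ → α → ℝ} {f0 : α → ℝ}
    (hf : ∀ n, MemLp (f n) 2 μ) (h0 : MemLp f0 2 μ)
    (h : Tendsto (fun n => eLpNorm (f n - f0) 2 μ) atTop (𝓝 0)) :
    Tendsto (fun n => ∫ x, f n x ^ 2 ∂μ) atTop (𝓝 (∫ x, f0 x ^ 2 ∂μ)) := by
  have key : ∀ {k : α → ℝ} (hk : MemLp k 2 μ), ∫ x, k x ^ 2 ∂μ = ‖hk.toLp k‖ ^ 2 := by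
    intro k hk
    rw [← real_inner_self_eq_norm_sq, L2.inner_def]
    apply integral_congr_ae
    filter_upwards [hk.coeFn_toLp] with x hx
    rw [hx]
    simp [pow_two]
  have hlim := (Lp.tendsto_Lp_iff_tendsto_eLpNorm'' f hf f0 h0).2 h
  rw [key h0]
  have e : (fun n => ∫ x, f n x ^ 2 ∂μ) = fun n => ‖(hf n).toLp (f n)‖ ^ 2 :=
    funext fun n => key (hf n)
  rw [e]
  exact hlim.norm.pow 2

lemma l1_lim {α : Type*} [MeasurableSpace α] {μ : Measure α} [IsFiniteMeasure μ]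
    {f : ℕ → α → ℝ} {f0 : α → ℝ}
    (hf : ∀ n, MemLp (f n) 2 μ) (h0 : MemLp f0 2 μ)
    (h : Tendsto (fun n => eLpNorm (f n - f0) 2 μ) atTop (𝓝 0)) :
    Tendsto (fun n => ∫ x, f n x ∂μ) atTop (𝓝 (∫ x, f0 x ∂μ)) := by
  apply tendsto_integral_of_L1' f0 h0.1
    (Eventually.of_forall fun n => (hf n).integrable (by norm_num))
  have hb : ∀ n, eLpNorm (f n - f0) 1 μ ≤ eLpNorm (f n - f0) 2 μ *
      μ univ ^ (1 / (1 : ℝ≥0∞).toReal - 1 / (2 : ℝ≥0∞).toReal) := fun n =>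
    eLpNorm_le_eLpNorm_mul_rpow_measure_univ (by norm_num) ((hf n).sub h0).1
  have hC : μ univ ^ (1 / (1 : ℝ≥0∞).toReal - 1 / (2 : ℝ≥0∞).toReal) ≠ ⊤ := by
    apply ENNReal.rpow_ne_top_of_nonneg
    · norm_num
    · exact measure_ne_top _ _
  have := ENNReal.Tendsto.mul_const h (Or.inr hC)
  rw [zero_mul] at this
  exact tendsto_of_tendsto_of_tendsto_of_le_of_le tendsto_const_nhds this (fun _ => zero_le) hb

/-- Test functions. -/
structure Test {d : ℕ} (Ω : Set (EuclideanSpace ℝ (Fin d)))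
    (φ : EuclideanSpace ℝ (Fin d) → ℝ) : Prop where
  smooth : ContDiff ℝ ∞ φ
  cpt : HasCompactSupport φ
  supp : tsupport φ ⊆ Ω

variable {d : ℕ} {Ω : Set (EuclideanSpace ℝ (Fin d))}

lemma inner_gradient_eq (φ : EuclideanSpace ℝ (Fin d) → ℝ) (x v : EuclideanSpace ℝ (Fin d)) :
    inner ℝ v (gradient φ x) = fderiv ℝ φ x v := by
  rw [real_inner_comm, gradient, InnerProductSpace.toDual_symm_apply]

lemma Test.cont_grad {φ : EuclideanSpace ℝ (Fin d) → ℝ} (hφ : Test Ω φ) :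
    Continuous (gradient φ) := by
  have h := hφ.smooth.continuous_fderiv (by simp)
  exact (InnerProductSpace.toDual ℝ (EuclideanSpace ℝ (Fin d))).symm.continuous.comp h

lemma Test.grad_zero {φ : EuclideanSpace ℝ (Fin d) → ℝ} (hφ : Test Ω φ)
    {x : EuclideanSpace ℝ (Fin d)} (hx : x ∉ tsupport φ) : gradient φ x = 0 := by
  have : fderiv ℝ φ x = 0 := by
    by_contra h
    exact hx (support_fderiv_subset ℝ h)
  rw [gradient, this, map_zero]

lemma Test.grad_cpt {φ : EuclideanSpace ℝ (Fin d) → ℝ} (hφ : Test Ω φ) :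
    HasCompactSupport (gradient φ) :=
  HasCompactSupport.intro hφ.cpt fun _ hx => hφ.grad_zero hx

lemma Test.zero_of_notMem {φ : EuclideanSpace ℝ (Fin d) → ℝ} (hφ : Test Ω φ)
    {x : EuclideanSpace ℝ (Fin d)} (hx : x ∉ Ω) : φ x = 0 :=
  image_eq_zero_of_notMem_tsupport fun h => hx (hφ.supp h)

lemma Test.memLp {φ : EuclideanSpace ℝ (Fin d) → ℝ} (hφ : Test Ω φ) : MemLp φ 2 volume :=
  hφ.smooth.continuous.memLp_of_hasCompactSupport hφ.cpt

lemma Test.memLp_grad {φ : EuclideanSpace ℝ (Fin d) → ℝ} (hφ : Test Ω φ) :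
    MemLp (gradient φ) 2 volume :=
  hφ.cont_grad.memLp_of_hasCompactSupport hφ.grad_cpt

lemma Test.isH10 {φ : EuclideanSpace ℝ (Fin d) → ℝ} (hφ : Test Ω φ) :
    IsH10 Ω φ (gradient φ) := by
  refine ⟨hφ.memLp, hφ.memLp_grad, fun _ => φ, fun _ => hφ.smooth, fun _ => hφ.cpt,
    fun _ => hφ.supp, ?_, ?_⟩
  · simp
  · simp

lemma semi_cont {H : Seminorm ℝ (EuclideanSpace ℝ (Fin d))} (hH : ∀ ξ, H ξ ≤ ‖ξ‖) :
    Continuous H := by
  have : LipschitzWith 1 H := by
    apply LipschitzWith.of_dist_le_mul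
    intro x y
    rw [Real.dist_eq, dist_eq_norm]
    have := abs_sub_map_le_sub H x y
    simp only [NNReal.coe_one, one_mul]
    exact this.trans (hH _)
  exact this.continuous

/-- `H¹₀` functions are limits of test functions, with convergence of all the relevant
integrals. -/
lemma IsH10.lims (hb : volume Ω ≠ ⊤) {u : EuclideanSpace ℝ (Fin d) → ℝ}
    {g : EuclideanSpace ℝ (Fin d) → EuclideanSpace ℝ (Fin d)} (hu : IsH10 Ω u g)
    {H : Seminorm ℝ (EuclideanSpace ℝ (Fin d))} (hH : ∀ ξ, H ξ ≤ ‖ξ‖) :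
    ∃ φ : ℕ → EuclideanSpace ℝ (Fin d) → ℝ, (∀ n, Test Ω (φ n)) ∧
      Tendsto (fun n => ∫ x, φ n x) atTop (𝓝 (∫ x in Ω, u x)) ∧
      Tendsto (fun n => ∫ x, φ n x ^ 2) atTop (𝓝 (∫ x in Ω, u x ^ 2)) ∧
      Tendsto (fun n => ∫ x, H (gradient (φ n) x) ^ 2) atTop (𝓝 (∫ x in Ω, H (g x) ^ 2)) := by
  obtain ⟨φ, h1, h2, h3, h4, h5⟩ := hu.approx
  have hT : ∀ n, Test Ω (φ n) := fun n => ⟨h1 n, h2 n, h3 n⟩
  have : IsFiniteMeasure (volume.restrict Ω) := ⟨by simpa using lt_top_iff_ne_top.2 hb⟩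
  have h4' : Tendsto (fun n => eLpNorm (φ n - u) 2 (volume.restrict Ω)) atTop (𝓝 0) :=
    tendsto_of_tendsto_of_tendsto_of_le_of_le tendsto_const_nhds h4 (fun _ => zero_le)
      (fun n => eLpNorm_mono_measure _ Measure.restrict_le_self)
  have m1 : ∀ n, MemLp (φ n) 2 (volume.restrict Ω) := fun n => (hT n).memLp.restrict _
  have m2 : MemLp u 2 (volume.restrict Ω) := hu.memLp_fun.restrict _
  have hHc := semi_cont hH
  have m3 : ∀ {k : EuclideanSpace ℝ (Fin d) → EuclideanSpace ℝ (Fin d)}, MemLp k 2 volume →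
      MemLp (fun x => H (k x)) 2 (volume.restrict Ω) := by
    intro k hk
    refine MemLp.restrict _ (hk.of_le (hHc.comp_aestronglyMeasurable hk.1)
      (Eventually.of_forall fun x => ?_))
    rw [Real.norm_eq_abs, abs_of_nonneg (apply_nonneg H _)]
    exact hH _
  have h5' : Tendsto (fun n => eLpNorm ((fun x => H (gradient (φ n) x)) - fun x => H (g x)) 2
      (volume.restrict Ω)) atTop (𝓝 0) := by
    refine tendsto_of_tendsto_of_tendsto_of_le_of_le tendsto_const_nhds h5 (fun _ => zero_le)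
      (fun n => ?_)
    refine (eLpNorm_mono_measure _ Measure.restrict_le_self).trans (eLpNorm_mono fun x => ?_)
    simp only [Pi.sub_apply]
    rw [Real.norm_eq_abs]
    exact (abs_sub_map_le_sub H _ _).trans (hH _)
  have r1 : ∀ n, ∫ x, φ n x = ∫ x in Ω, φ n x := fun n =>
    (setIntegral_eq_integral_of_forall_compl_eq_zero fun x hx => (hT n).zero_of_notMem hx).symm
  have r2 : ∀ n, ∫ x, φ n x ^ 2 = ∫ x in Ω, φ n x ^ 2 := fun n =>
    (setIntegral_eq_integral_of_forall_compl_eq_zero fun x hx => by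
      rw [(hT n).zero_of_notMem hx]; norm_num).symm
  have r3 : ∀ n, ∫ x, H (gradient (φ n) x) ^ 2 = ∫ x in Ω, H (gradient (φ n) x) ^ 2 := fun n =>
    (setIntegral_eq_integral_of_forall_compl_eq_zero fun x hx => by
      rw [(hT n).grad_zero (fun h => hx ((hT n).supp h))]; simp).symm
  refine ⟨φ, hT, ?_, ?_, ?_⟩
  · simp only [r1]
    exact l1_lim m1 m2 h4'
  · simp only [r2]
    exact l2_lim m1 m2 h4'
  · simp only [r3]
    exact l2_lim (fun n => m3 (hT n).memLp_grad) (m3 hu.memLp_grad) h5'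

/-- To bound the torsion quotients it suffices to bound them for test functions. -/
lemma tor_le_of_test (hb : volume Ω ≠ ⊤) {H : Seminorm ℝ (EuclideanSpace ℝ (Fin d))}
    (hH : ∀ ξ, H ξ ≤ ‖ξ‖) {T : ℝ} (hT0 : 0 ≤ T)
    (hT : ∀ φ, Test Ω φ → 2 * (∫ x, φ x) - ∫ x, H (gradient φ x) ^ 2 ≤ T) :
    ∀ r ∈ torQuot Ω H, r ≤ T := by
  have hsc : ∀ φ, Test Ω φ → (∫ x, φ x) ^ 2 ≤ T * ∫ x, H (gradient φ x) ^ 2 := by
    intro φ hφ
    set a := ∫ x, φ x with ha
    set c := ∫ x, H (gradient φ x) ^ 2 with hc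
    have hc0 : 0 ≤ c := integral_nonneg fun x => sq_nonneg _
    have hquad : ∀ t : ℝ, 2 * t * a - t ^ 2 * c ≤ T := by
      intro t
      have hφt : Test Ω (fun x => t * φ x) := by
        refine ⟨contDiff_const.mul hφ.smooth, hφ.cpt.mul_left, ?_⟩
        exact (tsupport_mul_subset_right).trans hφ.supp
      have h := hT _ hφt
      have hg : ∀ x, gradient (fun x => t * φ x) x = t • gradient φ x := by
        intro x
        have hd : DifferentiableAt ℝ φ x := hφ.smooth.differentiable (by simp) x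
        unfold gradient
        rw [fderiv_const_mul hd]
        exact (InnerProductSpace.toDual ℝ (EuclideanSpace ℝ (Fin d))).symm.map_smul t _
      have e1 : ∫ x, t * φ x = t * a := integral_const_mul _ _
      have e2 : ∫ x, H (gradient (fun x => t * φ x) x) ^ 2 = t ^ 2 * c := by
        rw [hc, ← integral_const_mul]
        congr 1
        ext x
        rw [hg, map_smul_eq_mul, Real.norm_eq_abs, mul_pow, sq_abs]
      rw [e1, e2] at h
      linarith
    rcases hc0.eq_or_lt with h0 | hpos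
    · -- c = 0: then a = 0
      by_cases ha0 : a = 0
      · rw [ha0, ← h0]; simp
      · exfalso
        have := hquad ((T + 1) / (2 * a))
        rw [← h0] at this
        have e : 2 * ((T + 1) / (2 * a)) * a = T + 1 := by field_simp
        rw [e] at this
        linarith
    · have := hquad (a / c)
      have e : 2 * (a / c) * a - (a / c) ^ 2 * c = a ^ 2 / c := by field_simp; ring
      rw [e, div_le_iff₀ hpos] at this
      exact this
  rintro r ⟨u, g, hu, -, rfl⟩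
  obtain ⟨φ, hφ, l1, -, l3⟩ := hu.lims hb hH
  have hlim : (∫ x in Ω, u x) ^ 2 ≤ T * ∫ x in Ω, H (g x) ^ 2 :=
    le_of_tendsto_of_tendsto' (l1.pow 2) (l3.const_mul T) fun n => hsc _ (hφ n)
  have h0 : 0 ≤ ∫ x in Ω, H (g x) ^ 2 := integral_nonneg fun x => sq_nonneg _
  exact div_le_of_le_mul₀ h0 hT0 hlim

/-- To bound the eigenvalue quotients from below it suffices to do so for test functions. -/
lemma le_eig_of_test (hb : volume Ω ≠ ⊤) {H : Seminorm ℝ (EuclideanSpace ℝ (Fin d))}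
    (hH : ∀ ξ, H ξ ≤ ‖ξ‖) {L : ℝ}
    (hL : ∀ φ, Test Ω φ → L * (∫ x, φ x ^ 2) ≤ ∫ x, H (gradient φ x) ^ 2) {u g}
    (hu : IsH10 Ω u g) :
    L * (∫ x in Ω, u x ^ 2) ≤ ∫ x in Ω, H (g x) ^ 2 := by
  obtain ⟨φ, hφ, -, l2, l3⟩ := hu.lims hb hH
  exact le_of_tendsto_of_tendsto' (l2.const_mul L) l3 fun n => hL _ (hφ n)

end MPdcbbce
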