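import Mathlib

open MeasureTheory Filter Topology Set
open scoped ContDiff

namespace MPdcbbce

/-- The one dimensional torsion inequality on an interval. -/
theorem oneD_tor {v v' : ℝ → ℝ} {a b κ : ℝ} (hab : a ≤ b) (hκ : 0 < κ)
    (hv : ∀ x, HasDerivAt v (v' x) x) (hc : Continuous v') (ha : v a = 0) (hb : v b = 0) :
    2 * (∫ x in a..b, v x) - κ * ∫ x in a..b, (v' x) ^ 2 ≤ (b - a) ^ 3 / (12 * κ) := by
  have hvc : Continuous v := continuous_iff_continuousAt.2 fun x => (hv x).continuousAt
  set c := (a + b) / 2 with hcdef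
  have hu : ∀ x, HasDerivAt (fun x => c - x) (-1) x := by
    intro x
    simpa using (hasDerivAt_id x).const_sub c
  have ibp := intervalIntegral.integral_mul_deriv_eq_deriv_mul (a := a) (b := b)
    (u := fun x => c - x) (v := v) (u' := fun _ => (-1 : ℝ)) (v' := v')
    (fun x _ => hu x) (fun x _ => hv x) (continuous_const.intervalIntegrable _ _)
    (hc.intervalIntegrable _ _)
  rw [ha, hb, mul_zero, mul_zero, sub_zero, zero_sub] at ibp
  have e1 : (∫ x in a..b, v x) = ∫ x in a..b, (c - x) * v' x := by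
    rw [ibp, ← intervalIntegral.integral_neg]
    congr 1
    ext x
    ring
  rw [e1, ← intervalIntegral.integral_const_mul, ← intervalIntegral.integral_const_mul,
    ← intervalIntegral.integral_sub (by apply Continuous.intervalIntegrable; fun_prop)
      (by apply Continuous.intervalIntegrable; fun_prop)]
  have hle : (∫ x in a..b, (2 * ((c - x) * v' x) - κ * (v' x) ^ 2)) ≤
      ∫ x in a..b, (c - x) ^ 2 / κ := by
    apply intervalIntegral.integral_mono_on hab
      (by apply Continuous.intervalIntegrable; fun_prop)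
      (by apply Continuous.intervalIntegrable; fun_prop)
    intro x _
    have : (c - x) ^ 2 / κ - (2 * ((c - x) * v' x) - κ * (v' x) ^ 2) =
        (κ * v' x - (c - x)) ^ 2 / κ := by
      field_simp
      ring
    have h2 : 0 ≤ (κ * v' x - (c - x)) ^ 2 / κ := by positivity
    linarith
  refine hle.trans (le_of_eq ?_)
  rw [intervalIntegral.integral_div]
  have e2 : (∫ x in a..b, (c - x) ^ 2) = (b - a) ^ 3 / 12 := by
    rw [intervalIntegral.integral_comp_sub_left (fun x => x ^ 2), integral_pow]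
    rw [hcdef]
    norm_num
    ring
  rw [e2]
  field_simp

/-- A crude one dimensional Poincare inequality. -/
theorem oneD_poinc {v v' : ℝ → ℝ}
    (hv : ∀ x, HasDerivAt v (v' x) x) (hc : Continuous v') (ha : v 0 = 0) (hb : v 1 = 0) :
    3 / 4 * (∫ x in (0 : ℝ)..1, v x ^ 2) ≤ ∫ x in (0 : ℝ)..1, (v' x) ^ 2 := by
  have hvc : Continuous v := continuous_iff_continuousAt.2 fun x => (hv x).continuousAt
  have hu : ∀ x : ℝ, HasDerivAt (fun x : ℝ => (1 / 2 : ℝ) - x) (-1) x := by
    intro x
    exact (hasDerivAt_id' x).const_sub (1 / 2)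
  have hv2 : ∀ x, HasDerivAt (fun x => v x ^ 2) (2 * v x * v' x) x := by
    intro x
    simpa using (hv x).fun_pow 2
  have ibp := intervalIntegral.integral_mul_deriv_eq_deriv_mul (a := 0) (b := 1)
    (u := fun x => (1 / 2 : ℝ) - x) (v := fun x => v x ^ 2) (u' := fun _ => (-1 : ℝ))
    (v' := fun x => 2 * v x * v' x)
    (fun x _ => hu x) (fun x _ => hv2 x) (continuous_const.intervalIntegrable _ _)
    ((by fun_prop : Continuous (fun x => 2 * v x * v' x)).intervalIntegrable _ _)
  simp only [ha, hb] at ibp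
  have e1 : (∫ x in (0 : ℝ)..1, v x ^ 2) = ∫ x in (0 : ℝ)..1, (1 / 2 - x) * (2 * v x * v' x) := by
    rw [ibp]
    norm_num
  have h0 : 0 ≤ ∫ x in (0 : ℝ)..1, (v' x - (1 / 2 - x) * v x) ^ 2 := by
    apply intervalIntegral.integral_nonneg (by norm_num)
    intro x _
    positivity
  have e2 : (∫ x in (0 : ℝ)..1, (v' x - (1 / 2 - x) * v x) ^ 2) =
      (∫ x in (0 : ℝ)..1, (v' x) ^ 2) - (∫ x in (0 : ℝ)..1, (1 / 2 - x) * (2 * v x * v' x))
        + ∫ x in (0 : ℝ)..1, (1 / 2 - x) ^ 2 * v x ^ 2 := by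
    rw [← intervalIntegral.integral_sub (by apply Continuous.intervalIntegrable; fun_prop)
      (by apply Continuous.intervalIntegrable; fun_prop),
      ← intervalIntegral.integral_add (by apply Continuous.intervalIntegrable; fun_prop)
      (by apply Continuous.intervalIntegrable; fun_prop)]
    congr 1
    ext x
    ring
  have h3 : (∫ x in (0 : ℝ)..1, (1 / 2 - x) ^ 2 * v x ^ 2) ≤
      ∫ x in (0 : ℝ)..1, 1 / 4 * v x ^ 2 := by
    apply intervalIntegral.integral_mono_on (by norm_num)
      (by apply Continuous.intervalIntegrable; fun_prop)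
      (by apply Continuous.intervalIntegrable; fun_prop)
    intro x hx
    have : (1 / 2 - x) ^ 2 ≤ 1 / 4 := by nlinarith [hx.1, hx.2]
    exact mul_le_mul_of_nonneg_right this (by positivity)
  rw [intervalIntegral.integral_const_mul] at h3
  linarith

/-- Smooth functions compactly supported in the open unit interval. -/
structure Test1 (a b : ℝ) (f : ℝ → ℝ) : Prop where
  smooth : ContDiff ℝ ∞ f
  cpt : HasCompactSupport f
  supp : tsupport f ⊆ Ioo a b

lemma Test1.hasDerivAt {a b : ℝ} {f : ℝ → ℝ} (hf : Test1 a b f) (x : ℝ) :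
    HasDerivAt f (deriv f x) x :=
  (hf.smooth.differentiable (by simp) x).hasDerivAt

lemma Test1.cont_deriv {a b : ℝ} {f : ℝ → ℝ} (hf : Test1 a b f) : Continuous (deriv f) :=
  hf.smooth.continuous_deriv (by simp)

lemma Test1.zero_of_notMem {a b : ℝ} {f : ℝ → ℝ} (hf : Test1 a b f) {x : ℝ} (hx : x ∉ Ioo a b) :
    f x = 0 := image_eq_zero_of_notMem_tsupport fun h => hx (hf.supp h)

lemma Test1.deriv_zero_of_notMem {a b : ℝ} {f : ℝ → ℝ} (hf : Test1 a b f) {x : ℝ}
    (hx : x ∉ Ioo a b) : deriv f x = 0 :=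
  image_eq_zero_of_notMem_tsupport fun h => hx (hf.supp (tsupport_deriv_subset h))

lemma integral_eq_interval {a b : ℝ} (hab : a ≤ b) {f : ℝ → ℝ} (hf : ∀ x, x ∉ Ioo a b → f x = 0) :
    ∫ x, f x = ∫ x in a..b, f x := by
  rw [intervalIntegral.integral_of_le hab]
  symm
  apply setIntegral_eq_integral_of_forall_compl_eq_zero
  intro x hx
  apply hf
  intro h
  exact hx ⟨h.1, h.2.le⟩

lemma Test1.poinc {f : ℝ → ℝ} (hf : Test1 0 1 f) :
    3 / 4 * (∫ x, f x ^ 2) ≤ ∫ x, (deriv f x) ^ 2 := by
  rw [integral_eq_interval (zero_le_one) (f := fun x => f x ^ 2)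
      (fun x hx => by rw [hf.zero_of_notMem hx]; norm_num),
    integral_eq_interval (zero_le_one) (f := fun x => deriv f x ^ 2)
      (fun x hx => by rw [hf.deriv_zero_of_notMem hx]; norm_num)]
  exact oneD_poinc hf.hasDerivAt hf.cont_deriv (hf.zero_of_notMem (by simp))
    (hf.zero_of_notMem (by simp))

lemma Test1.int_sq {a b : ℝ} {f : ℝ → ℝ} (hf : Test1 a b f) : Integrable (fun x => f x ^ 2) :=
  Continuous.integrable_of_hasCompactSupport (by have := hf.smooth.continuous; fun_prop)
    (hf.cpt.comp_left (g := fun t => t ^ 2) (by norm_num))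

lemma Test1.int {a b : ℝ} {f : ℝ → ℝ} (hf : Test1 a b f) : Integrable f :=
  hf.smooth.continuous.integrable_of_hasCompactSupport hf.cpt

lemma Test1.int_deriv_sq {a b : ℝ} {f : ℝ → ℝ} (hf : Test1 a b f) :
    Integrable (fun x => deriv f x ^ 2) :=
  Continuous.integrable_of_hasCompactSupport (by have := hf.cont_deriv; fun_prop)
    (hf.cpt.deriv.comp_left (g := fun t => t ^ 2) (by norm_num))

/-- For every compact set in an open set of the line there is a smooth cutoff. -/
lemma exists_cutoff {K U : Set ℝ} (hK : IsCompact K) (hU : IsOpen U) (hKU : K ⊆ U) :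
    ∃ g : ℝ → ℝ, ContDiff ℝ ∞ g ∧ HasCompactSupport g ∧ tsupport g ⊆ U ∧
      (∀ x, 0 ≤ g x) ∧ (∀ x, g x ≤ 1) ∧ ∀ x ∈ K, g x = 1 := by
  obtain ⟨L, hL, hKL, hLU⟩ := exists_compact_between hK hU hKU
  obtain ⟨f, h0, h1, hf⟩ := exists_contMDiffMap_zero_one_of_isClosed (n := ⊤) (modelWithCornersSelf ℝ ℝ)
    (s := (interior L)ᶜ) (t := K) isOpen_interior.isClosed_compl hK.isClosed
    (by rw [disjoint_compl_left_iff_subset]; exact hKL)
  have hsub : Function.support f ⊆ L := by
    intro x hx
    by_contra hxL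
    exact hx (h0 (fun h => hxL (interior_subset h)))
  refine ⟨f, f.contMDiff.contDiff, ?_, ?_, fun x => (hf x).1, fun x => (hf x).2, fun x hx => h1 hx⟩
  · exact HasCompactSupport.of_support_subset_isCompact hL hsub
  · exact (closure_minimal hsub hL.isClosed).trans hLU

/-- In an open set of finite measure one finds cutoffs with integral near the measure. -/
lemma exists_cutoff_int {U : Set ℝ} (hU : IsOpen U) (hfin : volume U ≠ ⊤) {ε : ℝ} (hε : 0 < ε) :
    ∃ g : ℝ → ℝ, ContDiff ℝ ∞ g ∧ HasCompactSupport g ∧ tsupport g ⊆ U ∧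
      (∀ x, 0 ≤ g x) ∧ (∀ x, g x ≤ 1) ∧ (volume U).toReal - ε ≤ ∫ x, g x := by
  rcases le_or_gt ((volume U).toReal - ε) 0 with h | h
  · refine ⟨fun _ => 0, contDiff_const, ?_, ?_, fun _ => le_rfl, fun _ => zero_le_one, ?_⟩
    · exact HasCompactSupport.zero
    · have : tsupport (fun _ : ℝ => (0 : ℝ)) = ∅ := by simp [tsupport, Function.support]
      rw [this]; exact empty_subset _
    · simpa using h
  · have hlt : ENNReal.ofReal ((volume U).toReal - ε) < volume U := by
      rw [ENNReal.ofReal_lt_iff_lt_toReal h.le hfin]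
      linarith
    obtain ⟨K, hKU, hK, hKlt⟩ := hU.exists_lt_isCompact hlt
    obtain ⟨g, g1, g2, g3, g4, g5, g6⟩ := exists_cutoff hK hU hKU
    refine ⟨g, g1, g2, g3, g4, g5, ?_⟩
    have hKr : (volume U).toReal - ε ≤ (volume K).toReal := by
      rw [ENNReal.ofReal_lt_iff_lt_toReal h.le hK.measure_lt_top.ne] at hKlt
      exact hKlt.le
    have hgint : Integrable g := g1.continuous.integrable_of_hasCompactSupport g2
    calc (volume U).toReal - ε ≤ (volume K).toReal := hKr
      _ = ∫ x in K, (1 : ℝ) := by simp [Measure.real]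
      _ ≤ ∫ x in K, g x := by
          apply setIntegral_mono_on (by simp [hK.measure_lt_top]) hgint.integrableOn hK.measurableSet
          intro x hx
          rw [g6 x hx]
      _ ≤ ∫ x, g x := setIntegral_le_integral hgint (Eventually.of_forall g4)

/-- A nonzero test function in every interval. -/
lemma exists_test1 {a b : ℝ} (hab : a < b) : ∃ f, Test1 a b f ∧ 0 < ∫ x, f x ^ 2 := by
  obtain ⟨f, f1, f2, f3, f4, f5⟩ := exists_contDiff_tsupport_subset (n := ⊤)
    (Ioo_mem_nhds (show a < (a + b) / 2 by linarith) (show (a + b) / 2 < b by linarith))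
  have hT : Test1 a b f := ⟨f3, f2, f1⟩
  refine ⟨f, hT, ?_⟩
  rw [integral_pos_iff_support_of_nonneg (fun x => by positivity) hT.int_sq]
  apply IsOpen.measure_pos
  · exact (hT.smooth.continuous.pow 2).isOpen_support
  · refine ⟨(a + b) / 2, ?_⟩
    simp [f5]

/-- The quotients defining the one dimensional Dirichlet eigenvalue. -/
def Aset : Set ℝ := {r | ∃ f : ℝ → ℝ, Test1 0 1 f ∧ 0 < ∫ x, f x ^ 2 ∧
  r = (∫ x, (deriv f x) ^ 2) / ∫ x, f x ^ 2}

/-- The one dimensional Dirichlet eigenvalue of the unit interval. -/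
noncomputable def A : ℝ := sInf Aset

lemma Aset_nonempty : Aset.Nonempty := by
  obtain ⟨f, hf, hf'⟩ := exists_test1 (show (0 : ℝ) < 1 by norm_num)
  exact ⟨_, f, hf, hf', rfl⟩

lemma Aset_lb {r : ℝ} (hr : r ∈ Aset) : 3 / 4 ≤ r := by
  obtain ⟨f, hf, hf', rfl⟩ := hr
  rw [le_div_iff₀ hf']
  exact hf.poinc

lemma A_ge : 3 / 4 ≤ A := le_csInf Aset_nonempty fun _ hr => Aset_lb hr

lemma A_pos : 0 < A := by linarith [A_ge]

lemma A_le {f : ℝ → ℝ} (hf : Test1 0 1 f) : A * ∫ x, f x ^ 2 ≤ ∫ x, (deriv f x) ^ 2 := by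
  rcases (integral_nonneg (fun x => sq_nonneg (f x)) : 0 ≤ ∫ x, f x ^ 2).eq_or_lt with h | h
  · rw [← h, mul_zero]
    exact integral_nonneg (fun x => sq_nonneg _)
  · rw [← le_div_iff₀ h]
    exact csInf_le ⟨3 / 4, fun _ hr => Aset_lb hr⟩ ⟨f, hf, h, rfl⟩

lemma A_approx {ε : ℝ} (hε : 0 < ε) : ∃ f, Test1 0 1 f ∧ 0 < ∫ x, f x ^ 2 ∧
    ∫ x, (deriv f x) ^ 2 ≤ (A + ε) * ∫ x, f x ^ 2 := by
  obtain ⟨r, ⟨f, hf, hf', rfl⟩, hr⟩ := exists_lt_of_csInf_lt Aset_nonempty
    (show sInf Aset < A + ε by unfold A; linarith)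
  refine ⟨f, hf, hf', ?_⟩
  rw [div_lt_iff₀ hf'] at hr
  exact hr.le

/-- The smooth cutoff of the identity. -/
noncomputable def G (ε : ℝ) (s : ℝ) : ℝ := ∫ t in (0 : ℝ)..s, Real.smoothTransition ((t - ε) / ε)

lemma G_int_cont (ε : ℝ) : Continuous fun t => Real.smoothTransition ((t - ε) / ε) := by
  have := Real.smoothTransition.continuous
  fun_prop

lemma G_hasDerivAt (ε s : ℝ) : HasDerivAt (G ε) (Real.smoothTransition ((s - ε) / ε)) s := by
  exact (G_int_cont ε).integral_hasStrictDerivAt 0 s |>.hasDerivAt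

lemma G_contDiff (ε : ℝ) : ContDiff ℝ ∞ (G ε) := by
  rw [contDiff_infty_iff_deriv]
  refine ⟨fun s => (G_hasDerivAt ε s).differentiableAt, ?_⟩
  have : deriv (G ε) = fun s => Real.smoothTransition ((s - ε) / ε) := by
    ext s
    exact (G_hasDerivAt ε s).deriv
  rw [this]
  exact Real.smoothTransition.contDiff.comp (by fun_prop)

lemma G_zero {ε s : ℝ} (hε : 0 < ε) (hs : s ≤ ε) : G ε s = 0 := by
  unfold G
  have : ∀ t ∈ uIcc 0 s, Real.smoothTransition ((t - ε) / ε) = 0 := by
    intro t ht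
    apply Real.smoothTransition.zero_of_nonpos
    apply div_nonpos_of_nonpos_of_nonneg _ hε.le
    rcases le_total 0 s with h | h
    · rw [uIcc_of_le h] at ht
      linarith [ht.2]
    · rw [uIcc_of_ge h] at ht
      linarith [ht.2]
  rw [intervalIntegral.integral_congr (g := fun _ => (0 : ℝ)) this]
  simp

lemma G_mono (ε : ℝ) : Monotone (G ε) := by
  apply monotone_of_deriv_nonneg
  · exact fun s => (G_hasDerivAt ε s).differentiableAt
  · intro s
    rw [(G_hasDerivAt ε s).deriv]
    exact Real.smoothTransition.nonneg _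

lemma G_nonneg {ε s : ℝ} (hε : 0 < ε) : 0 ≤ G ε s := by
  rcases le_total s ε with h | h
  · rw [G_zero hε h]
  · rw [← G_zero hε (le_refl ε)]
    exact G_mono ε h

lemma G_ge {ε s : ℝ} (hε : 0 < ε) : s - 2 * ε ≤ G ε s := by
  rcases le_total s (2 * ε) with h | h
  · have := G_nonneg (s := s) hε
    linarith
  · have h1 : G ε s = G ε (2 * ε) + ∫ t in (2 * ε)..s, Real.smoothTransition ((t - ε) / ε) := by
      unfold G
      rw [intervalIntegral.integral_add_adjacent_intervals]
      · exact (G_int_cont ε).intervalIntegrable _ _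
      · exact (G_int_cont ε).intervalIntegrable _ _
    have h2 : (∫ t in (2 * ε)..s, Real.smoothTransition ((t - ε) / ε)) =
        ∫ t in (2 * ε)..s, (1 : ℝ) := by
      apply intervalIntegral.integral_congr
      intro t ht
      rw [uIcc_of_le h] at ht
      apply Real.smoothTransition.one_of_one_le
      rw [le_div_iff₀ hε]
      linarith [ht.1]
    rw [h1, h2]
    have := G_nonneg (s := 2 * ε) hε
    simp
    linarith

/-- Almost optimal functions for the one dimensional torsion. -/
lemma exists_tor {ε : ℝ} (hε : 0 < ε) : ∃ f, Test1 0 1 f ∧ (∀ x, 0 ≤ f x) ∧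
    (∫ x, (deriv f x) ^ 2) ≤ 1 / 12 ∧ 1 / 12 - 2 * ε ≤ ∫ x, f x := by
  set f : ℝ → ℝ := fun x => G ε (x * (1 - x) / 2) with hf
  have hder : ∀ x, HasDerivAt f (Real.smoothTransition ((x * (1 - x) / 2 - ε) / ε) *
      (1 / 2 - x)) x := by
    intro x
    have h1 : HasDerivAt (fun x : ℝ => x * (1 - x) / 2) (1 / 2 - x) x := by
      exact (((hasDerivAt_id' x).fun_mul ((hasDerivAt_id' x).const_sub 1)).div_const 2).congr_deriv
        (by ring)
    exact (G_hasDerivAt ε _).comp x h1
  have hsupp : Function.support f ⊆ {x | ε ≤ x * (1 - x) / 2} := by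
    intro x hx
    by_contra h
    simp only [mem_ofPred_eq, not_le] at h
    exact hx (G_zero hε h.le)
  have hclosed : IsClosed {x : ℝ | ε ≤ x * (1 - x) / 2} :=
    isClosed_le continuous_const (by fun_prop)
  have hsub : {x : ℝ | ε ≤ x * (1 - x) / 2} ⊆ Ioo 0 1 := by
    intro x hx
    simp only [mem_ofPred_eq] at hx
    constructor <;> by_contra h <;> push Not at h <;> nlinarith
  have hT : Test1 0 1 f := by
    refine ⟨(G_contDiff ε).comp (by fun_prop), ?_, (closure_minimal hsupp hclosed).trans hsub⟩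
    apply HasCompactSupport.of_support_subset_isCompact
      ((isCompact_Icc (a := (0 : ℝ)) (b := 1)).of_isClosed_subset hclosed
        (hsub.trans Ioo_subset_Icc_self)) hsupp
  refine ⟨f, hT, fun x => G_nonneg hε, ?_, ?_⟩
  · rw [integral_eq_interval (zero_le_one) (f := fun x => deriv f x ^ 2)
      (fun x hx => by rw [hT.deriv_zero_of_notMem hx]; norm_num)]
    have h1 : (∫ x in (0 : ℝ)..1, deriv f x ^ 2) ≤ ∫ x in (0 : ℝ)..1, (1 / 2 - x) ^ 2 := by
      apply intervalIntegral.integral_mono_on (by norm_num)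
      · exact (hT.cont_deriv.pow 2).intervalIntegrable _ _
      · apply Continuous.intervalIntegrable; fun_prop
      · intro x _
        rw [(hder x).deriv, mul_pow]
        have h0 := Real.smoothTransition.nonneg ((x * (1 - x) / 2 - ε) / ε)
        have h1 := Real.smoothTransition.le_one ((x * (1 - x) / 2 - ε) / ε)
        have h2 : Real.smoothTransition ((x * (1 - x) / 2 - ε) / ε) ^ 2 ≤ 1 :=
          pow_le_one₀ h0 h1
        nlinarith [sq_nonneg (1 / 2 - x)]
    refine h1.trans (le_of_eq ?_)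
    rw [intervalIntegral.integral_comp_sub_left (fun x => x ^ 2), integral_pow]
    norm_num
  · rw [integral_eq_interval (zero_le_one) (f := f) (fun x hx => hT.zero_of_notMem hx)]
    have h1 : (∫ x in (0 : ℝ)..1, (x * (1 - x) / 2 - 2 * ε)) ≤ ∫ x in (0 : ℝ)..1, f x := by
      apply intervalIntegral.integral_mono_on (by norm_num)
      · apply Continuous.intervalIntegrable; fun_prop
      · exact hT.smooth.continuous.intervalIntegrable _ _
      · intro x _
        exact G_ge hε
    refine le_trans (le_of_eq ?_) h1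
    have e : (fun x : ℝ => x * (1 - x) / 2 - 2 * ε) = fun x => (1 / 2) * x - (1 / 2) * x ^ 2 - 2 * ε := by
      ext x; ring
    rw [e, intervalIntegral.integral_sub (by apply Continuous.intervalIntegrable; fun_prop)
      (by apply Continuous.intervalIntegrable; fun_prop),
      intervalIntegral.integral_sub (by apply Continuous.intervalIntegrable; fun_prop)
      (by apply Continuous.intervalIntegrable; fun_prop), intervalIntegral.integral_const_mul,
      intervalIntegral.integral_const_mul, integral_pow, integral_id]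
    simp
    norm_num

end MPdcbbce
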