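import Mathlib
import Pool.Agent.Lib_MP_dcbbce_an.OneD

open MeasureTheory Filter Topology Set
open scoped ContDiff

namespace MPdcbbce

lemma box_integral {z₀ z₁ : ℝ} (hz : z₀ ≤ z₁) {ψ : ℝ × ℝ → ℝ} (hc : Continuous ψ)
    (h0 : ∀ p : ℝ × ℝ, p ∉ Icc z₀ z₁ ×ˢ Icc (0 : ℝ) 1 → ψ p = 0) :
    ∫ p, ψ p = ∫ z in z₀..z₁, ∫ x in (0 : ℝ)..1, ψ (z, x) := by
  rw [← setIntegral_eq_integral_of_forall_compl_eq_zero (s := Icc z₀ z₁ ×ˢ Icc (0 : ℝ) 1) h0]
  have hint : IntegrableOn ψ (Icc z₀ z₁ ×ˢ Icc (0 : ℝ) 1) :=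
    hc.continuousOn.integrableOn_compact (isCompact_Icc.prod isCompact_Icc)
  rw [Measure.volume_eq_prod] at hint ⊢
  rw [setIntegral_prod _ hint]
  rw [intervalIntegral.integral_of_le hz, integral_Icc_eq_integral_Ioc]
  congr 1
  ext z
  rw [intervalIntegral.integral_of_le zero_le_one, integral_Icc_eq_integral_Ioc]

lemma slice_tor {v v' : ℝ → ℝ} {p r κ : ℝ} (h0p : 0 ≤ p) (hpr : p ≤ r) (hr1 : r ≤ 1) (hκ : 0 < κ)
    (hv : ∀ x, HasDerivAt v (v' x) x) (hc : Continuous v') (hl : ∀ x, x ≤ p → v x = 0)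
    (hr : ∀ x, r ≤ x → v x = 0) :
    (∫ x in (0 : ℝ)..1, (2 * v x - κ * (v' x) ^ 2)) ≤ (r - p) ^ 3 / (12 * κ) := by
  have hvc : Continuous v := continuous_iff_continuousAt.2 fun x => (hv x).continuousAt
  set w : ℝ → ℝ := fun x => 2 * v x - κ * (v' x) ^ 2 with hw
  have hwc : Continuous w := by fun_prop
  have i1 := intervalIntegral.integral_add_adjacent_intervals (hwc.intervalIntegrable 0 p)
    (hwc.intervalIntegrable p r) (μ := volume)
  have i2 := intervalIntegral.integral_add_adjacent_intervals (hwc.intervalIntegrable 0 r)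
    (hwc.intervalIntegrable r 1) (μ := volume)
  have h1 : ∫ x in (0 : ℝ)..p, w x ≤ 0 := by
    have : (∫ x in (0 : ℝ)..p, w x) ≤ ∫ x in (0 : ℝ)..p, (0 : ℝ) := by
      apply intervalIntegral.integral_mono_on h0p (hwc.intervalIntegrable _ _)
        (continuous_const.intervalIntegrable _ _)
      intro x hx
      simp only [hw]
      rw [hl x hx.2]
      nlinarith [sq_nonneg (v' x)]
    simpa using this
  have h3 : ∫ x in r..1, w x ≤ 0 := by
    have : (∫ x in r..1, w x) ≤ ∫ x in r..1, (0 : ℝ) := by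
      apply intervalIntegral.integral_mono_on hr1 (hwc.intervalIntegrable _ _)
        (continuous_const.intervalIntegrable _ _)
      intro x hx
      simp only [hw]
      rw [hr x hx.1]
      nlinarith [sq_nonneg (v' x)]
    simpa using this
  have h2 : ∫ x in p..r, w x ≤ (r - p) ^ 3 / (12 * κ) := by
    rw [hw, intervalIntegral.integral_sub (by apply Continuous.intervalIntegrable; fun_prop)
      (by apply Continuous.intervalIntegrable; fun_prop), intervalIntegral.integral_const_mul,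
      intervalIntegral.integral_const_mul]
    exact oneD_tor hpr hκ hv hc (hl p le_rfl) (hr r le_rfl)
  linarith

/-- `F` is continuously differentiable on the plane. We use the two partial derivatives. -/
lemma hasDerivAt_x {F : ℝ × ℝ → ℝ} (hF : ContDiff ℝ 1 F) (z x : ℝ) :
    HasDerivAt (fun x => F (z, x)) (fderiv ℝ F (z, x) (0, 1)) x := by
  have h := (hF.differentiable (by norm_num) (z, x)).hasFDerivAt
  have h2 : HasDerivAt (fun x : ℝ => ((z, x) : ℝ × ℝ)) (0, 1) x :=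
    (hasDerivAt_const x z).prodMk (hasDerivAt_id x)
  exact h.comp_hasDerivAt x h2

lemma cont_fderiv {F : ℝ × ℝ → ℝ} (hF : ContDiff ℝ 1 F) (w : ℝ × ℝ) :
    Continuous (fun p => fderiv ℝ F p w) :=
  (hF.continuous_fderiv (by norm_num)).clm_apply continuous_const

lemma fderiv_zero_of_closed {F : ℝ × ℝ → ℝ} {K : Set (ℝ × ℝ)} (hK : IsClosed K)
    (h0 : ∀ p, p ∉ K → F p = 0) (w : ℝ × ℝ) {p : ℝ × ℝ} (hp : p ∉ K) : fderiv ℝ F p w = 0 := by
  have : F =ᶠ[𝓝 p] fun _ => (0 : ℝ) := by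
    filter_upwards [hK.isOpen_compl.mem_nhds hp] with q hq
    exact h0 q hq
  rw [this.fderiv_eq]
  simp

/-- The total torsion functional is bounded by integrating bounds for the slices. -/
lemma slices {F : ℝ × ℝ → ℝ} (hF : ContDiff ℝ 1 F) {z₀ z₁ c : ℝ} (hz : z₀ ≤ z₁)
    (h0 : ∀ p : ℝ × ℝ, p ∉ Icc z₀ z₁ ×ˢ Icc (0 : ℝ) 1 → F p = 0) :
    2 * (∫ p, F p) - c * ∫ p, (fderiv ℝ F p (0, 1)) ^ 2 =
      ∫ z in z₀..z₁, ∫ x in (0 : ℝ)..1, (2 * F (z, x) - c * (fderiv ℝ F (z, x) (0, 1)) ^ 2) := by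
  have hcl : IsClosed (Icc z₀ z₁ ×ˢ Icc (0 : ℝ) 1) := isClosed_Icc.prod isClosed_Icc
  have hFc := hF.continuous
  have hdc := cont_fderiv hF (0, 1)
  have hd0 : ∀ p : ℝ × ℝ, p ∉ Icc z₀ z₁ ×ˢ Icc (0 : ℝ) 1 → fderiv ℝ F p (0, 1) = 0 :=
    fun p hp => fderiv_zero_of_closed hcl h0 _ hp
  have hcomp : IsCompact (Icc z₀ z₁ ×ˢ Icc (0 : ℝ) 1) := isCompact_Icc.prod isCompact_Icc
  have i1 : Integrable F :=
    hFc.integrable_of_hasCompactSupport (HasCompactSupport.intro hcomp h0)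
  have i2 : Integrable (fun p => (fderiv ℝ F p (0, 1)) ^ 2) := by
    apply Continuous.integrable_of_hasCompactSupport (by fun_prop)
    apply HasCompactSupport.intro hcomp
    intro p hp
    rw [hd0 p hp]
    norm_num
  rw [← box_integral hz (ψ := fun p => 2 * F p - c * (fderiv ℝ F p (0, 1)) ^ 2) (by fun_prop)
    (fun p hp => by rw [h0 p hp, hd0 p hp]; norm_num)]
  rw [integral_sub (i1.const_mul 2) (i2.const_mul c), integral_const_mul, integral_const_mul]

lemma slice_cont {F : ℝ × ℝ → ℝ} (hF : ContDiff ℝ 1 F) (c : ℝ) : Continuous fun z =>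
    ∫ x in (0 : ℝ)..1, (2 * F (z, x) - c * (fderiv ℝ F (z, x) (0, 1)) ^ 2) := by
  apply intervalIntegral.continuous_parametric_intervalIntegral_of_continuous'
  have hFc := hF.continuous
  have hdc := cont_fderiv hF (0, 1)
  have : Continuous fun p : ℝ × ℝ => 2 * F p - c * (fderiv ℝ F p (0, 1)) ^ 2 := by fun_prop
  exact this

/-- Torsion bound in a sheared rectangle. -/
lemma tor_shear {F : ℝ × ℝ → ℝ} (hF : ContDiff ℝ 1 F) {σ b c : ℝ} (hσ : 0 < σ) (hσb : σ ≤ b)
    (hc : 0 < c) (h0 : ∀ z x, F (z, x) ≠ 0 → 0 < x ∧ x < 1 ∧ 0 < z + σ * x ∧ z + σ * x < b) :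
    2 * (∫ p, F p) - c * ∫ p, (fderiv ℝ F p (0, 1)) ^ 2 ≤ (b / 12 - σ / 24) / c := by
  have hout : ∀ p : ℝ × ℝ, p ∉ Icc (-σ) b ×ˢ Icc (0 : ℝ) 1 → F p = 0 := by
    rintro ⟨z, x⟩ hp
    by_contra hne
    obtain ⟨h1, h2, h3, h4⟩ := h0 z x hne
    apply hp
    have h5 : 0 < σ * x := by positivity
    have h6 : σ * x < σ := by nlinarith
    exact ⟨⟨by simp only; linarith, by simp only; linarith⟩, ⟨h1.le, h2.le⟩⟩
  have hz : ∀ z x, ¬ (0 < x ∧ x < 1 ∧ 0 < z + σ * x ∧ z + σ * x < b) → F (z, x) = 0 :=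
    fun z x h => by
      by_contra hne
      exact h (h0 z x hne)
  rw [slices hF (by linarith : -σ ≤ b) hout]
  set J : ℝ → ℝ := fun z => ∫ x in (0 : ℝ)..1,
    (2 * F (z, x) - c * (fderiv ℝ F (z, x) (0, 1)) ^ 2) with hJ
  have hJc : Continuous J := slice_cont hF c
  have hv : ∀ z x, HasDerivAt (fun x => F (z, x)) (fderiv ℝ F (z, x) (0, 1)) x := hasDerivAt_x hF
  have hvc : ∀ z, Continuous (fun x => fderiv ℝ F (z, x) (0, 1)) := fun z =>
    (cont_fderiv hF (0, 1)).comp (by fun_prop)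
  have s1 := intervalIntegral.integral_add_adjacent_intervals (hJc.intervalIntegrable (-σ) 0)
    (hJc.intervalIntegrable 0 (b - σ)) (μ := volume)
  have s2 := intervalIntegral.integral_add_adjacent_intervals (hJc.intervalIntegrable (-σ) (b - σ))
    (hJc.intervalIntegrable (b - σ) b) (μ := volume)
  have b1 : (∫ z in (-σ)..0, J z) ≤ ∫ z in (-σ)..0, (1 + z / σ) ^ 3 / (12 * c) := by
    apply intervalIntegral.integral_mono_on (by linarith) (hJc.intervalIntegrable _ _)
      (by apply Continuous.intervalIntegrable; fun_prop)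
    intro z hzz
    have hq : 0 ≤ -z / σ := div_nonneg (by linarith [hzz.2]) hσ.le
    have hq1 : -z / σ ≤ 1 := by rw [div_le_one hσ]; linarith [hzz.1]
    have := slice_tor (v := fun x => F (z, x)) (p := -z / σ) (r := 1) hq hq1 le_rfl hc (hv z)
      (hvc z) (fun x hx => hz z x (fun h => by
        rw [le_div_iff₀ hσ] at hx
        nlinarith [h.2.2.1])) (fun x hx => hz z x (fun h => by linarith [h.2.1]))
    refine this.trans (le_of_eq ?_)
    congr 2
    ring
  have b2 : (∫ z in (0 : ℝ)..(b - σ), J z) ≤ ∫ z in (0 : ℝ)..(b - σ), (1 : ℝ) / (12 * c) := by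
    apply intervalIntegral.integral_mono_on (by linarith) (hJc.intervalIntegrable _ _)
      (by apply Continuous.intervalIntegrable; fun_prop)
    intro z hzz
    have := slice_tor (v := fun x => F (z, x)) (p := 0) (r := 1) le_rfl zero_le_one le_rfl hc (hv z)
      (hvc z) (fun x hx => hz z x (fun h => by linarith [h.1]))
      (fun x hx => hz z x (fun h => by linarith [h.2.1]))
    refine this.trans (le_of_eq ?_)
    norm_num
  have b3 : (∫ z in (b - σ)..b, J z) ≤ ∫ z in (b - σ)..b, ((b - z) / σ) ^ 3 / (12 * c) := by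
    apply intervalIntegral.integral_mono_on (by linarith) (hJc.intervalIntegrable _ _)
      (by apply Continuous.intervalIntegrable; fun_prop)
    intro z hzz
    have hq : 0 ≤ (b - z) / σ := div_nonneg (by linarith [hzz.2]) hσ.le
    have hq1 : (b - z) / σ ≤ 1 := by rw [div_le_one hσ]; linarith [hzz.1]
    have := slice_tor (v := fun x => F (z, x)) (p := 0) (r := (b - z) / σ) le_rfl hq hq1 hc (hv z)
      (hvc z) (fun x hx => hz z x (fun h => by linarith [h.1]))
      (fun x hx => hz z x (fun h => by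
        rw [div_le_iff₀ hσ] at hx
        nlinarith [h.2.2.2]))
    refine this.trans (le_of_eq ?_)
    congr 2
    ring
  have e1 : (∫ z in (-σ)..0, (1 + z / σ) ^ 3 / (12 * c)) = σ / (48 * c) := by
    rw [intervalIntegral.integral_div]
    have := intervalIntegral.integral_comp_add_div (a := -σ) (b := 0) (fun y => y ^ 3) hσ.ne' 1
    rw [this, integral_pow]
    have : 1 + -σ / σ = 0 := by field_simp; ring
    rw [this]
    simp
    field_simp
    norm_num
  have e3 : (∫ z in (b - σ)..b, ((b - z) / σ) ^ 3 / (12 * c)) = σ / (48 * c) := by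
    rw [intervalIntegral.integral_div]
    have h1 : (fun z => ((b - z) / σ) ^ 3) = fun z => (b / σ - z / σ) ^ 3 := by
      ext z; rw [sub_div]
    rw [h1]
    have := intervalIntegral.integral_comp_sub_div (a := b - σ) (b := b) (fun y => y ^ 3) hσ.ne'
      (b / σ)
    rw [this, integral_pow]
    have : b / σ - (b - σ) / σ = 1 := by field_simp; ring
    rw [this]
    simp
    field_simp
    norm_num
  have e2 : (∫ z in (0 : ℝ)..(b - σ), (1 : ℝ) / (12 * c)) = (b - σ) / (12 * c) := by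
    rw [intervalIntegral.integral_const]
    simp
    ring
  have : (b / 12 - σ / 24) / c = σ / (48 * c) + (b - σ) / (12 * c) + σ / (48 * c) := by
    field_simp
    ring
  rw [this]
  linarith

/-- The layer estimate: using the flow along `(δ, s)` in the strip `z₁ ≤ z ≤ z₂`. -/
lemma layer {F : ℝ × ℝ → ℝ} (hF : ContDiff ℝ 1 F) {z₁ z₂ m s δ : ℝ} (hz : z₁ ≤ z₂) (hδ : δ ≠ 0)
    (hx0 : ∀ z, F (z, 0) = 0) (hx1 : ∀ z, F (z, 1) = 0) (ht : ∀ x, F (z₂, x) = 0)
    (hb : ∀ x, (z₁ - m) * F (z₁, x) = 0) :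
    (∫ z in z₁..z₂, ∫ x in (0 : ℝ)..1, (2 * F (z, x) - (fderiv ℝ F (z, x) (δ, s)) ^ 2)) ≤
      ((z₂ - m) ^ 3 - (z₁ - m) ^ 3) / (3 * δ ^ 2) := by
  have hFc := hF.continuous
  have hFd : ∀ p, HasFDerivAt F (fderiv ℝ F p) p := fun p =>
    (hF.differentiable (by norm_num) p).hasFDerivAt
  have hd1 := cont_fderiv hF (1, 0)
  have hd2 := cont_fderiv hF (0, 1)
  have hdd := cont_fderiv hF (δ, s)
  have hlin : ∀ p, fderiv ℝ F p (δ, s) = δ * fderiv ℝ F p (1, 0) + s * fderiv ℝ F p (0, 1) := by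
    intro p
    have : ((δ, s) : ℝ × ℝ) = δ • ((1, 0) : ℝ × ℝ) + s • ((0, 1) : ℝ × ℝ) := by simp
    rw [this, map_add, map_smul, map_smul]
    simp
  -- the two components of the vector field
  set f : ℝ × ℝ → ℝ := fun p => (p.1 - m) * F p with hf
  set g : ℝ × ℝ → ℝ := fun p => ((p.1 - m) * s / δ) * F p with hg
  have hfst : ∀ p : ℝ × ℝ, HasFDerivAt (fun p : ℝ × ℝ => p.1 - m) (ContinuousLinearMap.fst ℝ ℝ ℝ) p :=
    fun p => (hasFDerivAt_fst).sub_const m
  have hfd : ∀ p, HasFDerivAt f ((p.1 - m) • fderiv ℝ F p + F p • ContinuousLinearMap.fst ℝ ℝ ℝ) p :=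
    fun p => (hfst p).mul (hFd p)
  have hgd : ∀ p, HasFDerivAt g (((p.1 - m) * s / δ) • fderiv ℝ F p +
      F p • ((s / δ) • ContinuousLinearMap.fst ℝ ℝ ℝ)) p := by
    intro p
    have h1 : HasFDerivAt (fun p : ℝ × ℝ => (p.1 - m) * s / δ)
        ((s / δ) • ContinuousLinearMap.fst ℝ ℝ ℝ) p := by
      have := (hfst p).const_mul (s / δ)
      refine this.congr_of_eventuallyEq (Eventually.of_forall fun q => ?_)
      simp only
      ring
    exact h1.mul (hFd p)
  have hdiv := integral2_divergence_prod_of_hasFDerivAt f g _ _ z₁ 0 z₂ 1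
    (by apply Continuous.continuousOn; fun_prop) (by apply Continuous.continuousOn; fun_prop)
    (fun p _ => hfd p) (fun p _ => hgd p) (by
      apply ContinuousOn.integrableOn_compact (isCompact_uIcc.prod isCompact_uIcc)
      apply Continuous.continuousOn
      simp only [_root_.add_apply, _root_.smul_apply,
        ContinuousLinearMap.coe_fst', smul_eq_mul]
      fun_prop)
  have hR : (((∫ x in z₁..z₂, g (x, 1)) - ∫ x in z₁..z₂, g (x, 0)) +
      ∫ y in (0 : ℝ)..1, f (z₂, y)) - ∫ y in (0 : ℝ)..1, f (z₁, y) = 0 := by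
    simp only [hf, hg, hx0, hx1, ht, hb, mul_zero, intervalIntegral.integral_zero, sub_zero,
      add_zero]
  rw [hR] at hdiv
  have hI : ∀ z x : ℝ, (((z, x) : ℝ × ℝ).1 - m) • fderiv ℝ F (z, x) (1, 0) +
      F (z, x) • (1 : ℝ) + ((((z, x) : ℝ × ℝ).1 - m) * s / δ) • fderiv ℝ F (z, x) (0, 1) +
      F (z, x) • ((s / δ) • (0 : ℝ)) = F (z, x) + (z - m) / δ * fderiv ℝ F (z, x) (δ, s) := by
    intro z x
    rw [hlin]
    simp only [smul_eq_mul]
    field_simp
    ring
  have hdiv' : (∫ z in z₁..z₂, ∫ x in (0 : ℝ)..1,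
      (F (z, x) + (z - m) / δ * fderiv ℝ F (z, x) (δ, s))) = 0 := by
    refine Eq.trans ?_ hdiv
    apply intervalIntegral.integral_congr
    intro z _
    apply intervalIntegral.integral_congr
    intro x _
    simp only
    rw [← hI z x]
    simp only [_root_.add_apply, _root_.smul_apply,
        ContinuousLinearMap.coe_fst', smul_eq_mul]
    ring
  have c1 : Continuous fun p : ℝ × ℝ => 2 * F p - (fderiv ℝ F p (δ, s)) ^ 2 := by fun_prop
  have c2 : Continuous fun p : ℝ × ℝ => F p + (p.1 - m) / δ * fderiv ℝ F p (δ, s) := by fun_prop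
  have c3 : Continuous fun p : ℝ × ℝ => ((p.1 - m) / δ) ^ 2 := by fun_prop
  have C1 : Continuous fun z => ∫ x in (0 : ℝ)..1, (2 * F (z, x) - (fderiv ℝ F (z, x) (δ, s)) ^ 2) :=
    intervalIntegral.continuous_parametric_intervalIntegral_of_continuous' (by exact c1) 0 1
  have C2 : Continuous fun z => ∫ x in (0 : ℝ)..1,
      (F (z, x) + (z - m) / δ * fderiv ℝ F (z, x) (δ, s)) :=
    intervalIntegral.continuous_parametric_intervalIntegral_of_continuous' (by exact c2) 0 1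
  have hle : (∫ z in z₁..z₂, ∫ x in (0 : ℝ)..1, (2 * F (z, x) - (fderiv ℝ F (z, x) (δ, s)) ^ 2)) ≤
      ∫ z in z₁..z₂, (2 * (∫ x in (0 : ℝ)..1, (F (z, x) + (z - m) / δ * fderiv ℝ F (z, x) (δ, s))) +
        ((z - m) / δ) ^ 2) := by
    apply intervalIntegral.integral_mono_on hz (C1.intervalIntegrable _ _)
      (by apply Continuous.intervalIntegrable; fun_prop)
    intro z _
    have k1 : Continuous fun x : ℝ => 2 * F (z, x) - (fderiv ℝ F (z, x) (δ, s)) ^ 2 :=
      c1.comp (by fun_prop : Continuous fun x : ℝ => ((z, x) : ℝ × ℝ))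
    have k2 : Continuous fun x : ℝ => F (z, x) + (z - m) / δ * fderiv ℝ F (z, x) (δ, s) :=
      c2.comp (by fun_prop : Continuous fun x : ℝ => ((z, x) : ℝ × ℝ))
    have : (∫ x in (0 : ℝ)..1, (2 * F (z, x) - (fderiv ℝ F (z, x) (δ, s)) ^ 2)) ≤
        ∫ x in (0 : ℝ)..1, (2 * (F (z, x) + (z - m) / δ * fderiv ℝ F (z, x) (δ, s)) +
          ((z - m) / δ) ^ 2) := by
      apply intervalIntegral.integral_mono_on zero_le_one (k1.intervalIntegrable _ _)
        (by apply Continuous.intervalIntegrable; fun_prop)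
      intro x _
      nlinarith [sq_nonneg (fderiv ℝ F (z, x) (δ, s) + (z - m) / δ)]
    refine this.trans (le_of_eq ?_)
    rw [intervalIntegral.integral_add (by apply Continuous.intervalIntegrable; fun_prop)
      (by apply Continuous.intervalIntegrable; fun_prop), intervalIntegral.integral_const_mul]
    simp
  refine hle.trans (le_of_eq ?_)
  rw [intervalIntegral.integral_add (by apply Continuous.intervalIntegrable; fun_prop)
      (by apply Continuous.intervalIntegrable; fun_prop), intervalIntegral.integral_const_mul,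
      hdiv', mul_zero, zero_add]
  have e : (fun z => ((z - m) / δ) ^ 2) = fun z => (z - m) ^ 2 / δ ^ 2 := by
    ext z; rw [div_pow]
  rw [e, intervalIntegral.integral_div, intervalIntegral.integral_comp_sub_right (fun y => y ^ 2),
    integral_pow]
  norm_num
  field_simp

/-- Combined estimate: the shear flow below the level `Y` and the transversal flow above. -/
lemma tor_layer {F : ℝ × ℝ → ℝ} (hF : ContDiff ℝ 1 F) {z₀ Y Z c s δ : ℝ} (h1 : z₀ ≤ Y)
    (h2 : Y ≤ Z) (hc : 0 < c) (hδ : δ ≠ 0)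
    (h0 : ∀ z x, F (z, x) ≠ 0 → 0 < x ∧ x < 1 ∧ z₀ < z ∧ z < Z) {Q : ℝ × ℝ → ℝ}
    (hQc : Continuous Q) (hQ0 : ∀ p : ℝ × ℝ, p ∉ Icc z₀ Z ×ˢ Icc (0 : ℝ) 1 → Q p = 0)
    (hQ1 : ∀ p, c * (fderiv ℝ F p (0, 1)) ^ 2 ≤ Q p) (hQ2 : ∀ p, (fderiv ℝ F p (δ, s)) ^ 2 ≤ Q p) :
    2 * (∫ p, F p) - ∫ p, Q p ≤ (Y - z₀) / (12 * c) + (Z - Y) ^ 3 / (3 * δ ^ 2) := by
  have hFc := hF.continuous
  have hz : ∀ z x, ¬ (0 < x ∧ x < 1 ∧ z₀ < z ∧ z < Z) → F (z, x) = 0 :=
    fun z x h => by
      by_contra hne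
      exact h (h0 z x hne)
  have hout : ∀ p : ℝ × ℝ, p ∉ Icc z₀ Z ×ˢ Icc (0 : ℝ) 1 → F p = 0 := by
    rintro ⟨z, x⟩ hp
    apply hz
    rintro ⟨h3, h4, h5, h6⟩
    exact hp ⟨⟨h5.le, h6.le⟩, ⟨h3.le, h4.le⟩⟩
  have hcomp : IsCompact (Icc z₀ Z ×ˢ Icc (0 : ℝ) 1) := isCompact_Icc.prod isCompact_Icc
  have i1 : Integrable F :=
    hFc.integrable_of_hasCompactSupport (HasCompactSupport.intro hcomp hout)
  have i2 : Integrable Q :=
    hQc.integrable_of_hasCompactSupport (HasCompactSupport.intro hcomp hQ0)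
  have e0 : 2 * (∫ p, F p) - ∫ p, Q p =
      ∫ z in z₀..Z, ∫ x in (0 : ℝ)..1, (2 * F (z, x) - Q (z, x)) := by
    rw [← box_integral (h1.trans h2) (ψ := fun p => 2 * F p - Q p) (by fun_prop)
      (fun p hp => by rw [hout p hp, hQ0 p hp]; norm_num)]
    rw [integral_sub (i1.const_mul 2) i2, integral_const_mul]
  have cQ : Continuous fun p : ℝ × ℝ => 2 * F p - Q p := by fun_prop
  have CQ : Continuous fun z => ∫ x in (0 : ℝ)..1, (2 * F (z, x) - Q (z, x)) :=
    intervalIntegral.continuous_parametric_intervalIntegral_of_continuous' (by exact cQ) 0 1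
  have hd1 := cont_fderiv hF (0, 1)
  have hdd := cont_fderiv hF (δ, s)
  rw [e0, ← intervalIntegral.integral_add_adjacent_intervals (CQ.intervalIntegrable z₀ Y)
    (CQ.intervalIntegrable Y Z)]
  have b1 : (∫ z in z₀..Y, ∫ x in (0 : ℝ)..1, (2 * F (z, x) - Q (z, x))) ≤
      (Y - z₀) / (12 * c) := by
    have : (∫ z in z₀..Y, ∫ x in (0 : ℝ)..1, (2 * F (z, x) - Q (z, x))) ≤
        ∫ z in z₀..Y, (1 : ℝ) / (12 * c) := by
      apply intervalIntegral.integral_mono_on h1 (CQ.intervalIntegrable _ _)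
        (continuous_const.intervalIntegrable _ _)
      intro z _
      have k1 : Continuous fun x : ℝ => 2 * F (z, x) - Q (z, x) :=
        cQ.comp (by fun_prop : Continuous fun x : ℝ => ((z, x) : ℝ × ℝ))
      have k2 : Continuous fun x : ℝ => 2 * F (z, x) - c * (fderiv ℝ F (z, x) (0, 1)) ^ 2 :=
        (by fun_prop : Continuous fun p : ℝ × ℝ => 2 * F p - c * (fderiv ℝ F p (0, 1)) ^ 2).comp
          (by fun_prop : Continuous fun x : ℝ => ((z, x) : ℝ × ℝ))
      have t1 : (∫ x in (0 : ℝ)..1, (2 * F (z, x) - Q (z, x))) ≤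
          ∫ x in (0 : ℝ)..1, (2 * F (z, x) - c * (fderiv ℝ F (z, x) (0, 1)) ^ 2) := by
        apply intervalIntegral.integral_mono_on zero_le_one (k1.intervalIntegrable _ _)
          (k2.intervalIntegrable _ _)
        intro x _
        have := hQ1 (z, x)
        linarith
      have t2 := slice_tor (v := fun x => F (z, x)) (p := 0) (r := 1) le_rfl zero_le_one le_rfl hc
        (hasDerivAt_x hF z) ((cont_fderiv hF (0, 1)).comp (by fun_prop))
        (fun x hx => hz z x (fun h => by linarith [h.1]))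
        (fun x hx => hz z x (fun h => by linarith [h.2.1]))
      refine (t1.trans t2).trans (le_of_eq ?_)
      norm_num
    refine this.trans (le_of_eq ?_)
    rw [intervalIntegral.integral_const]
    simp
    ring
  have b2 : (∫ z in Y..Z, ∫ x in (0 : ℝ)..1, (2 * F (z, x) - Q (z, x))) ≤
      (Z - Y) ^ 3 / (3 * δ ^ 2) := by
    have c1 : Continuous fun p : ℝ × ℝ => 2 * F p - (fderiv ℝ F p (δ, s)) ^ 2 := by fun_prop
    have C1 : Continuous fun z => ∫ x in (0 : ℝ)..1,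
        (2 * F (z, x) - (fderiv ℝ F (z, x) (δ, s)) ^ 2) :=
      intervalIntegral.continuous_parametric_intervalIntegral_of_continuous' (by exact c1) 0 1
    have t1 : (∫ z in Y..Z, ∫ x in (0 : ℝ)..1, (2 * F (z, x) - Q (z, x))) ≤
        ∫ z in Y..Z, ∫ x in (0 : ℝ)..1, (2 * F (z, x) - (fderiv ℝ F (z, x) (δ, s)) ^ 2) := by
      apply intervalIntegral.integral_mono_on h2 (CQ.intervalIntegrable _ _)
        (C1.intervalIntegrable _ _)
      intro z _
      have k1 : Continuous fun x : ℝ => 2 * F (z, x) - Q (z, x) :=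
        cQ.comp (by fun_prop : Continuous fun x : ℝ => ((z, x) : ℝ × ℝ))
      have k2 : Continuous fun x : ℝ => 2 * F (z, x) - (fderiv ℝ F (z, x) (δ, s)) ^ 2 :=
        c1.comp (by fun_prop : Continuous fun x : ℝ => ((z, x) : ℝ × ℝ))
      apply intervalIntegral.integral_mono_on zero_le_one (k1.intervalIntegrable _ _)
        (k2.intervalIntegrable _ _)
      intro x _
      have := hQ2 (z, x)
      linarith
    have t2 := layer hF (m := Y) (s := s) h2 hδ (fun z => hz z 0 (by simp))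
      (fun z => hz z 1 (by simp)) (fun x => hz Z x (by simp)) (fun x => by simp)
    refine (t1.trans t2).trans (le_of_eq ?_)
    norm_num
  linarith

/-- The transversal flow alone. -/
lemma tor_vert {F : ℝ × ℝ → ℝ} (hF : ContDiff ℝ 1 F) {b s δ : ℝ} (hb : 0 ≤ b) (hδ : δ ≠ 0)
    (h0 : ∀ z x, F (z, x) ≠ 0 → 0 < x ∧ x < 1 ∧ 0 < z ∧ z < b) {Q : ℝ × ℝ → ℝ}
    (hQc : Continuous Q) (hQ0 : ∀ p : ℝ × ℝ, p ∉ Icc 0 b ×ˢ Icc (0 : ℝ) 1 → Q p = 0)
    (hQ2 : ∀ p, (fderiv ℝ F p (δ, s)) ^ 2 ≤ Q p) :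
    2 * (∫ p, F p) - ∫ p, Q p ≤ b ^ 3 / (12 * δ ^ 2) := by
  have hFc := hF.continuous
  have hz : ∀ z x, ¬ (0 < x ∧ x < 1 ∧ 0 < z ∧ z < b) → F (z, x) = 0 :=
    fun z x h => by
      by_contra hne
      exact h (h0 z x hne)
  have hout : ∀ p : ℝ × ℝ, p ∉ Icc 0 b ×ˢ Icc (0 : ℝ) 1 → F p = 0 := by
    rintro ⟨z, x⟩ hp
    apply hz
    rintro ⟨h3, h4, h5, h6⟩
    exact hp ⟨⟨h5.le, h6.le⟩, ⟨h3.le, h4.le⟩⟩
  have hcomp : IsCompact (Icc 0 b ×ˢ Icc (0 : ℝ) 1) := isCompact_Icc.prod isCompact_Icc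
  have i1 : Integrable F :=
    hFc.integrable_of_hasCompactSupport (HasCompactSupport.intro hcomp hout)
  have i2 : Integrable Q :=
    hQc.integrable_of_hasCompactSupport (HasCompactSupport.intro hcomp hQ0)
  have e0 : 2 * (∫ p, F p) - ∫ p, Q p =
      ∫ z in (0 : ℝ)..b, ∫ x in (0 : ℝ)..1, (2 * F (z, x) - Q (z, x)) := by
    rw [← box_integral hb (ψ := fun p => 2 * F p - Q p) (by fun_prop)
      (fun p hp => by rw [hout p hp, hQ0 p hp]; norm_num)]
    rw [integral_sub (i1.const_mul 2) i2, integral_const_mul]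
  have cQ : Continuous fun p : ℝ × ℝ => 2 * F p - Q p := by fun_prop
  have CQ : Continuous fun z => ∫ x in (0 : ℝ)..1, (2 * F (z, x) - Q (z, x)) :=
    intervalIntegral.continuous_parametric_intervalIntegral_of_continuous' (by exact cQ) 0 1
  have hdd := cont_fderiv hF (δ, s)
  rw [e0]
  have c1 : Continuous fun p : ℝ × ℝ => 2 * F p - (fderiv ℝ F p (δ, s)) ^ 2 := by fun_prop
  have C1 : Continuous fun z => ∫ x in (0 : ℝ)..1,
      (2 * F (z, x) - (fderiv ℝ F (z, x) (δ, s)) ^ 2) :=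
    intervalIntegral.continuous_parametric_intervalIntegral_of_continuous' (by exact c1) 0 1
  have t1 : (∫ z in (0 : ℝ)..b, ∫ x in (0 : ℝ)..1, (2 * F (z, x) - Q (z, x))) ≤
      ∫ z in (0 : ℝ)..b, ∫ x in (0 : ℝ)..1, (2 * F (z, x) - (fderiv ℝ F (z, x) (δ, s)) ^ 2) := by
    apply intervalIntegral.integral_mono_on hb (CQ.intervalIntegrable _ _)
      (C1.intervalIntegrable _ _)
    intro z _
    have k1 : Continuous fun x : ℝ => 2 * F (z, x) - Q (z, x) :=
      cQ.comp (by fun_prop : Continuous fun x : ℝ => ((z, x) : ℝ × ℝ))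
    have k2 : Continuous fun x : ℝ => 2 * F (z, x) - (fderiv ℝ F (z, x) (δ, s)) ^ 2 :=
      c1.comp (by fun_prop : Continuous fun x : ℝ => ((z, x) : ℝ × ℝ))
    apply intervalIntegral.integral_mono_on zero_le_one (k1.intervalIntegrable _ _)
      (k2.intervalIntegrable _ _)
    intro x _
    have := hQ2 (z, x)
    linarith
  have t2 := layer hF (m := b / 2) (s := s) hb hδ (fun z => hz z 0 (by simp))
    (fun z => hz z 1 (by simp)) (fun x => hz b x (by simp)) (fun x => by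
      rw [hz 0 x (by simp), mul_zero])
  refine (t1.trans t2).trans (le_of_eq ?_)
  field_simp
  ring

/-- Horizontal slices which are cut in the middle third on a range of heights. -/
lemma tor_cut {F : ℝ × ℝ → ℝ} (hF : ContDiff ℝ 1 F) {c : ℝ} (hc : 0 < c)
    (h0 : ∀ z x, F (z, x) ≠ 0 → 0 < x ∧ x < 1 ∧ 0 < z ∧ z < 1 / 4)
    (hcut : ∀ z, 1 / 16 ≤ z → z ≤ 1 / 8 → ∃ x, 1 / 3 ≤ x ∧ x ≤ 2 / 3 ∧ F (z, x) = 0) :
    2 * (∫ p, F p) - c * ∫ p, (fderiv ℝ F p (0, 1)) ^ 2 ≤ (1 / 48 - 1 / 288) / c := by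
  have hz : ∀ z x, ¬ (0 < x ∧ x < 1 ∧ 0 < z ∧ z < 1 / 4) → F (z, x) = 0 :=
    fun z x h => by
      by_contra hne
      exact h (h0 z x hne)
  have hout : ∀ p : ℝ × ℝ, p ∉ Icc 0 (1 / 4) ×ˢ Icc (0 : ℝ) 1 → F p = 0 := by
    rintro ⟨z, x⟩ hp
    apply hz
    rintro ⟨h3, h4, h5, h6⟩
    exact hp ⟨⟨h5.le, h6.le⟩, ⟨h3.le, h4.le⟩⟩
  rw [slices hF (by norm_num : (0 : ℝ) ≤ 1 / 4) hout]
  set J : ℝ → ℝ := fun z => ∫ x in (0 : ℝ)..1,
    (2 * F (z, x) - c * (fderiv ℝ F (z, x) (0, 1)) ^ 2) with hJ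
  have hJc : Continuous J := slice_cont hF c
  have s1 := intervalIntegral.integral_add_adjacent_intervals (hJc.intervalIntegrable 0 (1 / 16))
    (hJc.intervalIntegrable (1 / 16) (1 / 8)) (μ := volume)
  have s2 := intervalIntegral.integral_add_adjacent_intervals (hJc.intervalIntegrable 0 (1 / 8))
    (hJc.intervalIntegrable (1 / 8) (1 / 4)) (μ := volume)
  have hJ1 : ∀ z, J z ≤ 1 / (12 * c) := by
    intro z
    have t2 := slice_tor (v := fun x => F (z, x)) (p := 0) (r := 1) le_rfl zero_le_one le_rfl hc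
        (hasDerivAt_x hF z) ((cont_fderiv hF (0, 1)).comp (by fun_prop))
        (fun x hx => hz z x (fun h => by linarith [h.1]))
        (fun x hx => hz z x (fun h => by linarith [h.2.1]))
    refine t2.trans (le_of_eq ?_)
    norm_num
  have hJ2 : ∀ z, 1 / 16 ≤ z → z ≤ 1 / 8 → J z ≤ 1 / (36 * c) := by
    intro z hz1 hz2
    obtain ⟨x₀, hx1, hx2, hx0⟩ := hcut z hz1 hz2
    have hv := hasDerivAt_x hF z
    have hvc : Continuous (fun x => fderiv ℝ F (z, x) (0, 1)) :=
      (cont_fderiv hF (0, 1)).comp (by fun_prop)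
    have hFz : Continuous (fun x => F (z, x)) := hF.continuous.comp (by fun_prop)
    have hwc : Continuous fun x => 2 * F (z, x) - c * (fderiv ℝ F (z, x) (0, 1)) ^ 2 := by
      fun_prop
    have i1 := intervalIntegral.integral_add_adjacent_intervals (hwc.intervalIntegrable 0 x₀)
      (hwc.intervalIntegrable x₀ 1) (μ := volume)
    have l1 := oneD_tor (a := 0) (b := x₀) (by linarith) hc hv hvc (hz z 0 (by simp)) hx0
    have l2 := oneD_tor (a := x₀) (b := 1) (by linarith) hc hv hvc hx0 (hz z 1 (by simp))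
    rw [← intervalIntegral.integral_const_mul, ← intervalIntegral.integral_const_mul,
      ← intervalIntegral.integral_sub (by apply Continuous.intervalIntegrable; fun_prop)
      (by apply Continuous.intervalIntegrable; fun_prop)] at l1 l2
    have : (x₀ - 0) ^ 3 / (12 * c) + (1 - x₀) ^ 3 / (12 * c) ≤ 1 / (36 * c) := by
      rw [← add_div, div_le_div_iff₀ (by positivity) (by positivity)]
      have : x₀ ^ 3 + (1 - x₀) ^ 3 ≤ 1 / 3 := by nlinarith
      nlinarith
    have hJz : J z = ∫ x in (0 : ℝ)..1, (2 * F (z, x) - c * (fderiv ℝ F (z, x) (0, 1)) ^ 2) := rfl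
    linarith
  have b1 : (∫ z in (0 : ℝ)..(1 / 16), J z) ≤ ∫ z in (0 : ℝ)..(1 / 16), (1 : ℝ) / (12 * c) :=
    intervalIntegral.integral_mono_on (by norm_num) (hJc.intervalIntegrable _ _)
      (continuous_const.intervalIntegrable _ _) fun z _ => hJ1 z
  have b2 : (∫ z in (1 / 16 : ℝ)..(1 / 8), J z) ≤ ∫ z in (1 / 16 : ℝ)..(1 / 8), (1 : ℝ) / (36 * c) :=
    intervalIntegral.integral_mono_on (by norm_num) (hJc.intervalIntegrable _ _)
      (continuous_const.intervalIntegrable _ _) fun z h => hJ2 z h.1 h.2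
  have b3 : (∫ z in (1 / 8 : ℝ)..(1 / 4), J z) ≤ ∫ z in (1 / 8 : ℝ)..(1 / 4), (1 : ℝ) / (12 * c) :=
    intervalIntegral.integral_mono_on (by norm_num) (hJc.intervalIntegrable _ _)
      (continuous_const.intervalIntegrable _ _) fun z _ => hJ1 z
  rw [intervalIntegral.integral_const, smul_eq_mul] at b1 b2 b3
  have : (1 / 48 - 1 / 288) / c = (1 / 16 - 0) * (1 / (12 * c)) + (1 / 8 - 1 / 16) * (1 / (36 * c)) +
      (1 / 4 - 1 / 8) * (1 / (12 * c)) := by
    field_simp
    norm_num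
  rw [this]
  linarith

/-- The eigenvalue bound through slices. -/
lemma eig_slice {F : ℝ × ℝ → ℝ} (hF : ContDiff ℝ ∞ F) (hcs : HasCompactSupport F)
    (hsub : ∀ p ∈ tsupport F, 0 < p.2 ∧ p.2 < 1) :
    A * (∫ p, F p ^ 2) ≤ ∫ p, (fderiv ℝ F p (0, 1)) ^ 2 := by
  have hF1 : ContDiff ℝ 1 F := hF.of_le (by simp)
  have hFc := hF1.continuous
  have hdc := cont_fderiv hF1 (0, 1)
  have i1 : Integrable (fun p => F p ^ 2) :=
    Continuous.integrable_of_hasCompactSupport (by fun_prop)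
      (hcs.comp_left (g := fun t => t ^ 2) (by norm_num))
  have hcd : HasCompactSupport (fun p => fderiv ℝ F p (0, 1)) :=
    (hcs.fderiv ℝ).comp_left (g := fun L : ℝ × ℝ →L[ℝ] ℝ => L (0, 1)) (by simp)
  have i2 : Integrable (fun p => (fderiv ℝ F p (0, 1)) ^ 2) :=
    Continuous.integrable_of_hasCompactSupport (by fun_prop)
      (hcd.comp_left (g := fun t => t ^ 2) (by norm_num))
  rw [Measure.volume_eq_prod] at i1 i2 ⊢
  rw [integral_prod _ i1, integral_prod _ i2, ← integral_const_mul]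
  apply integral_mono (i1.integral_prod_left.const_mul A) i2.integral_prod_left
  intro z
  have hT : Test1 0 1 (fun x => F (z, x)) := by
    have hclosed : IsClosed ((fun x : ℝ => ((z, x) : ℝ × ℝ)) ⁻¹' tsupport F) :=
      (isClosed_tsupport F).preimage (by fun_prop)
    have hss : Function.support (fun x => F (z, x)) ⊆ (fun x : ℝ => ((z, x) : ℝ × ℝ)) ⁻¹' tsupport F :=
      fun x hx => subset_tsupport F hx
    have hIoo : (fun x : ℝ => ((z, x) : ℝ × ℝ)) ⁻¹' tsupport F ⊆ Ioo 0 1 := fun x hx => hsub _ hx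
    refine ⟨hF.comp (contDiff_const.prodMk contDiff_id), ?_, ?_⟩
    · exact HasCompactSupport.of_support_subset_isCompact
        ((isCompact_Icc (a := (0 : ℝ)) (b := 1)).of_isClosed_subset hclosed
          (hIoo.trans Ioo_subset_Icc_self)) hss
    · exact (closure_minimal hss hclosed).trans hIoo
  have h := A_le hT
  have hd : ∀ x, deriv (fun x => F (z, x)) x = fderiv ℝ F (z, x) (0, 1) := fun x =>
    (hasDerivAt_x hF1 z x).deriv
  simp only [hd] at h
  exact h

end MPdcbbce
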