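import Mathlib
import Pool.Agent.Lib_MP_dcbbce_an.Limits
import Pool.Agent.Lib_MP_dcbbce_an.TwoD
import Pool.Agent.Lib_MP_dcbbce_an.Cantor

open MeasureTheory Filter Topology Set
open scoped ContDiff ENNReal

namespace MPdcbbce

/-- Affine coordinates `(z, x) ↦ (α + β x, z + σ x)` on the plane. -/
noncomputable def Phi (α β σ : ℝ) (p : ℝ × ℝ) : EuclideanSpace ℝ (Fin 2) :=
  !₂[α + β * p.2, p.1 + σ * p.2]

/-- The linear part of `Phi`. -/
noncomputable def PhiL (β σ : ℝ) : ℝ × ℝ →L[ℝ] EuclideanSpace ℝ (Fin 2) :=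
  LinearMap.toContinuousLinearMap
    { toFun := fun p => !₂[β * p.2, p.1 + σ * p.2]
      map_add' := fun p q => by
        ext i
        fin_cases i <;> simp <;> ring
      map_smul' := fun c p => by
        ext i
        fin_cases i <;> simp <;> ring }

lemma PhiL_apply (β σ : ℝ) (p : ℝ × ℝ) : PhiL β σ p = !₂[β * p.2, p.1 + σ * p.2] := rfl

lemma Phi_eq (α β σ : ℝ) (p : ℝ × ℝ) : Phi α β σ p = !₂[α, 0] + PhiL β σ p := by
  rw [PhiL_apply, Phi]
  ext i
  fin_cases i <;> simp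

lemma Phi_hasFDerivAt (α β σ : ℝ) (p : ℝ × ℝ) : HasFDerivAt (Phi α β σ) (PhiL β σ) p := by
  have : Phi α β σ = fun p => !₂[α, 0] + PhiL β σ p := funext (Phi_eq α β σ)
  rw [this]
  exact (PhiL β σ).hasFDerivAt.const_add _

lemma Phi_contDiff (α β σ : ℝ) {n : WithTop ℕ∞} : ContDiff ℝ n (Phi α β σ) := by
  have : Phi α β σ = fun p => !₂[α, 0] + PhiL β σ p := funext (Phi_eq α β σ)
  rw [this]
  exact contDiff_const.add (PhiL β σ).contDiff

/-- The affine coordinates as a homeomorphism. -/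
noncomputable def PhiH (α β σ : ℝ) (hβ : β * β = 1) : ℝ × ℝ ≃ₜ EuclideanSpace ℝ (Fin 2) where
  toFun := Phi α β σ
  invFun q := (q 1 - σ * (β * (q 0 - α)), β * (q 0 - α))
  left_inv p := by
    have : β * (β * p.2) = p.2 := by
      rw [← mul_assoc, hβ, one_mul]
    ext
    · simp [Phi, this]
    · simp [Phi, this]
  right_inv q := by
    ext i
    fin_cases i
    · simp [Phi]
      rw [← mul_assoc, hβ]
      ring
    · simp [Phi]
  continuous_toFun := (Phi_contDiff α β σ (n := 0)).continuous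
  continuous_invFun := by fun_prop

lemma PhiH_apply (α β σ : ℝ) (hβ : β * β = 1) (p : ℝ × ℝ) : PhiH α β σ hβ p = Phi α β σ p := rfl

lemma Phi_measurePreserving (α β σ : ℝ) (hβ : β * β = 1) :
    MeasurePreserving (Phi α β σ) volume volume := by
  have hf : MeasurePreserving (fun x : ℝ => α + β * x) volume volume := by
    have : β = 1 ∨ β = -1 := mul_self_eq_one_iff.mp hβ
    rcases this with rfl | rfl
    · simpa using measurePreserving_add_left (volume : Measure ℝ) α
    · have := Measure.measurePreserving_sub_left (volume : Measure ℝ) α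
      simpa [sub_eq_add_neg] using this
  have h1 : MeasurePreserving (fun p : ℝ × ℝ => (α + β * p.1, p.2 + σ * p.1))
      (volume.prod volume) (volume.prod volume) :=
    MeasurePreserving.skew_product (μd := volume) hf (g := fun x z => z + σ * x) (by fun_prop)
      (Eventually.of_forall fun x => (measurePreserving_add_right volume (σ * x)).map_eq)
  have h2 : MeasurePreserving (Prod.swap : ℝ × ℝ → ℝ × ℝ) (volume.prod volume)
      (volume.prod volume) := Measure.measurePreserving_swap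
  have h3 := (volume_preserving_finTwoArrow ℝ).symm
  have h4 := PiLp.volume_preserving_toLp (Fin 2)
  have h5 := (h4.comp h3).comp (h1.comp h2)
  have e : Phi α β σ = ((WithLp.toLp 2) ∘ (MeasurableEquiv.finTwoArrow (α := ℝ)).symm) ∘
      ((fun p : ℝ × ℝ => (α + β * p.1, p.2 + σ * p.1)) ∘ Prod.swap) := by
    ext p i
    fin_cases i <;> simp [Phi]
  rw [e]
  exact h5

lemma integral_Phi (α β σ : ℝ) (hβ : β * β = 1) (ψ : EuclideanSpace ℝ (Fin 2) → ℝ) :
    ∫ q, ψ q = ∫ p, ψ (Phi α β σ p) :=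
  ((Phi_measurePreserving α β σ hβ).integral_comp
    (PhiH α β σ hβ).measurableEmbedding ψ).symm

lemma fderiv_Phi {φ : EuclideanSpace ℝ (Fin 2) → ℝ} (hφ : ContDiff ℝ ∞ φ) (α β σ : ℝ)
    (p w : ℝ × ℝ) :
    fderiv ℝ (fun p => φ (Phi α β σ p)) p w = fderiv ℝ φ (Phi α β σ p) (PhiL β σ w) := by
  have h1 : HasFDerivAt φ (fderiv ℝ φ (Phi α β σ p)) (Phi α β σ p) :=
    (hφ.differentiable (by simp) _).hasFDerivAt
  have := (h1.comp p (Phi_hasFDerivAt α β σ p)).fderiv
  have e : (fun p => φ (Phi α β σ p)) = φ ∘ Phi α β σ := rfl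
  rw [e, this]
  rfl

/-- Supporting functionals of a seminorm. -/
lemma exists_support {d : ℕ} {H : Seminorm ℝ (EuclideanSpace ℝ (Fin d))}
    (v : EuclideanSpace ℝ (Fin d)) :
    ∃ k : EuclideanSpace ℝ (Fin d), inner ℝ k v = H v ∧ ∀ ξ, |inner ℝ k ξ| ≤ H ξ := by
  by_cases hv : v = 0
  · refine ⟨0, ?_, ?_⟩
    · rw [hv]; simp
    · intro ξ; simp
  obtain ⟨g, hg1, hg2⟩ := exists_extension_of_le_sublinear
    (LinearPMap.mkSpanSingleton v (H v) hv) H
    (fun c hc x => by rw [map_smul_eq_mul, Real.norm_of_nonneg hc.le]) (map_add_le_add H)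
    (by
      rintro ⟨x, hx⟩
      obtain ⟨t, rfl⟩ := Submodule.mem_span_singleton.1 hx
      rw [LinearPMap.mkSpanSingleton'_apply]
      simp only
      rw [map_smul_eq_mul, smul_eq_mul, Real.norm_eq_abs]
      exact mul_le_mul_of_nonneg_right (le_abs_self t) (apply_nonneg H v))
  set k := (InnerProductSpace.toDual ℝ (EuclideanSpace ℝ (Fin d))).symm
    (LinearMap.toContinuousLinearMap g) with hk
  have hki : ∀ ξ, inner ℝ k ξ = g ξ := by
    intro ξ
    rw [hk, InnerProductSpace.toDual_symm_apply]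
    rfl
  refine ⟨k, ?_, ?_⟩
  · rw [hki]
    have := hg1 ⟨v, Submodule.mem_span_singleton_self v⟩
    simp only at this
    rw [this]
    exact LinearPMap.mkSpanSingleton_apply ℝ ℝ hv (H v)
  · intro ξ
    rw [hki, abs_le]
    constructor
    · have := hg2 (-ξ)
      rw [map_neg, map_neg_eq_map] at this
      linarith
    · exact hg2 ξ

lemma InS.le_norm {d : ℕ} {H : Seminorm ℝ (EuclideanSpace ℝ (Fin d))} (hH : InS H)
    (ξ : EuclideanSpace ℝ (Fin d)) : H ξ ≤ ‖ξ‖ := by
  by_cases h : ξ = 0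
  · rw [h]; simp
  · have := hH.1 ⟨ξ, h, rfl⟩
    rwa [div_le_one (norm_pos_iff.2 h)] at this

/-- Seminorms in the class `𝕊` dominate a unit functional. -/
lemma InS.exists_unit {d : ℕ} {H : Seminorm ℝ (EuclideanSpace ℝ (Fin d))} (hH : InS H) :
    ∃ e : EuclideanSpace ℝ (Fin d), ‖e‖ = 1 ∧ ∀ ξ, |inner ℝ e ξ| ≤ H ξ := by
  have hc := semi_cont hH.le_norm
  -- the sphere is nonempty
  have hne : (Metric.sphere (0 : EuclideanSpace ℝ (Fin d)) 1).Nonempty := by
    by_contra hemp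
    have hz : ∀ ξ : EuclideanSpace ℝ (Fin d), ξ = 0 := by
      intro ξ
      by_contra h
      apply hemp
      refine ⟨(‖ξ‖)⁻¹ • ξ, ?_⟩
      rw [mem_sphere_zero_iff_norm, norm_smul, norm_inv, norm_norm,
        inv_mul_cancel₀ (norm_ne_zero_iff.2 h)]
    have : (1 : ℝ) ≤ 0 := hH.2 (by
      rintro r ⟨ξ, h, -⟩
      exact absurd (hz ξ) h)
    linarith
  obtain ⟨ξ₀, hξ₀, hmax⟩ := (isCompact_sphere (0 : EuclideanSpace ℝ (Fin d)) 1).exists_isMaxOn hne
    hc.continuousOn
  rw [mem_sphere_zero_iff_norm] at hξ₀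
  have h1 : H ξ₀ = 1 := by
    apply le_antisymm
    · rw [← hξ₀]; exact hH.le_norm _
    · apply hH.2
      rintro r ⟨ξ, h, rfl⟩
      have hn : (0 : ℝ) < ‖ξ‖ := norm_pos_iff.2 h
      have hm : (‖ξ‖)⁻¹ • ξ ∈ Metric.sphere (0 : EuclideanSpace ℝ (Fin d)) 1 := by
        rw [mem_sphere_zero_iff_norm, norm_smul, norm_inv, norm_norm, inv_mul_cancel₀ hn.ne']
      have := hmax hm
      simp only [mem_ofPred_eq] at this
      rw [map_smul_eq_mul, norm_inv, norm_norm] at this
      rw [div_eq_inv_mul]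
      exact this
  obtain ⟨k, hk1, hk2⟩ := exists_support (H := H) ξ₀
  refine ⟨k, ?_, hk2⟩
  apply le_antisymm
  · have h2 := (hk2 k).trans (hH.le_norm k)
    rw [real_inner_self_eq_norm_sq, abs_of_nonneg (sq_nonneg _)] at h2
    by_contra hcon
    push Not at hcon
    nlinarith
  · have h3 : inner ℝ k ξ₀ ≤ ‖k‖ * ‖ξ₀‖ := real_inner_le_norm _ _
    rw [hk1, h1, hξ₀, mul_one] at h3
    exact h3

end MPdcbbce
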