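import Mathlib
import Pool.Agent.Lib_MP_dcbbce_an.Plane

open MeasureTheory Filter Topology Set
open scoped ContDiff ENNReal

namespace MPdcbbce

variable {Ω : Set (EuclideanSpace ℝ (Fin 2))}

lemma inner_two (e ξ : EuclideanSpace ℝ (Fin 2)) :
    inner ℝ e ξ = e 0 * ξ 0 + e 1 * ξ 1 := by
  rw [PiLp.inner_apply, Fin.sum_univ_two]
  simp [mul_comm]

lemma norm_two (e : EuclideanSpace ℝ (Fin 2)) : ‖e‖ ^ 2 = e 0 ^ 2 + e 1 ^ 2 := by
  rw [← real_inner_self_eq_norm_sq, inner_two]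
  ring

lemma PhiL_zero_one (β σ : ℝ) : PhiL β σ (0, 1) = !₂[β, σ] := by
  rw [PhiL_apply]
  simp

section

variable {H : Seminorm ℝ (EuclideanSpace ℝ (Fin 2))} (hH : ∀ ξ, H ξ ≤ ‖ξ‖)
  {φ : EuclideanSpace ℝ (Fin 2) → ℝ} (hφ : Test Ω φ)

include hφ in
lemma Test.cont_fderiv (v : EuclideanSpace ℝ (Fin 2)) : Continuous fun q => fderiv ℝ φ q v :=
  (hφ.smooth.continuous_fderiv (by simp)).clm_apply continuous_const

include hφ in
lemma Test.fderiv_zero (v : EuclideanSpace ℝ (Fin 2)) {q : EuclideanSpace ℝ (Fin 2)}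
    (hq : q ∉ Ω) : fderiv ℝ φ q v = 0 := by
  rw [← inner_gradient_eq, hφ.grad_zero (fun h => hq (hφ.supp h))]
  simp

include hφ in
lemma Test.int_fderiv (v : EuclideanSpace ℝ (Fin 2)) :
    Integrable fun q => (fderiv ℝ φ q v) ^ 2 := by
  have := hφ.cont_fderiv v
  apply Continuous.integrable_of_hasCompactSupport (by fun_prop)
  apply HasCompactSupport.intro hφ.cpt
  intro q hq
  rw [← inner_gradient_eq, hφ.grad_zero hq]
  simp

include hφ hH in
lemma Test.cont_H : Continuous fun q => H (gradient φ q) ^ 2 := by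
  have h1 := semi_cont hH
  have h2 := hφ.cont_grad
  exact (h1.comp h2).pow 2

include hφ hH in
lemma Test.int_H : Integrable fun q => H (gradient φ q) ^ 2 := by
  apply Continuous.integrable_of_hasCompactSupport (hφ.cont_H hH)
  apply HasCompactSupport.intro hφ.cpt
  intro q hq
  rw [hφ.grad_zero hq]
  simp

include hφ in
lemma Test.comp_contDiff (α β σ : ℝ) : ContDiff ℝ ∞ fun p => φ (Phi α β σ p) :=
  hφ.smooth.comp (Phi_contDiff α β σ)

omit hH hφ in
lemma sq_le_H {v : EuclideanSpace ℝ (Fin 2)} (hv : ∀ ξ, |inner ℝ v ξ| ≤ H ξ)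
    (φ : EuclideanSpace ℝ (Fin 2) → ℝ) (q : EuclideanSpace ℝ (Fin 2)) :
    (fderiv ℝ φ q v) ^ 2 ≤ H (gradient φ q) ^ 2 := by
  rw [← inner_gradient_eq, ← sq_abs]
  exact pow_le_pow_left₀ (abs_nonneg _) (hv _) 2

include hφ in
/-- Reduction to a sheared rectangle. -/
lemma tor_shear' {b a s : ℝ} (hs : 0 < s) (hsb : s ≤ b)
    {e : EuclideanSpace ℝ (Fin 2)} (ha : e 0 = a) (ha0 : a ≠ 0) (hes : |e 1 / e 0| = s)
    (hΩ : ∀ q ∈ Ω, 0 < q 0 ∧ q 0 < 1 ∧ 0 < q 1 ∧ q 1 < b) :
    2 * (∫ q, φ q) - ∫ q, (fderiv ℝ φ q e) ^ 2 ≤ (b / 12 - s / 24) / a ^ 2 := by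
  -- choose the orientation
  obtain ⟨α, β, t, hβ, hrange, ht, hPhi⟩ : ∃ α β t : ℝ, β * β = 1 ∧
      (∀ x : ℝ, (0 < α + β * x ∧ α + β * x < 1) → 0 < x ∧ x < 1) ∧ t ^ 2 * a ^ 2 = 1 ∧
      PhiL β s (0, 1) = t • e := by
    have he : e = !₂[a, e 1] := by
      ext i
      fin_cases i
      · simp [ha]
      · simp
    rw [ha] at hes
    rcases abs_choice (e 1 / a) with h | h
    · refine ⟨0, 1, 1 / a, by norm_num, ?_, ?_, ?_⟩
      · intro x hx
        constructor <;> linarith [hx.1, hx.2]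
      · field_simp
      · rw [PhiL_zero_one, he]
        ext i
        fin_cases i
        · simp [ha0]
        · simp only [Fin.mk_one, PiLp.smul_apply, smul_eq_mul]
          simp
          rw [← hes, h]
          ring
    · refine ⟨1, -1, -1 / a, by norm_num, ?_, ?_, ?_⟩
      · intro x hx
        constructor <;> linarith [hx.1, hx.2]
      · field_simp
      · rw [PhiL_zero_one, he]
        ext i
        fin_cases i
        · simp
          field_simp
        · simp only [Fin.mk_one, PiLp.smul_apply, smul_eq_mul]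
          simp
          rw [← hes, h]
          ring
  set F : ℝ × ℝ → ℝ := fun p => φ (Phi α β s p) with hF
  have hFs : ContDiff ℝ 1 F := (hφ.comp_contDiff α β s).of_le (by simp)
  have hfx : ∀ p, fderiv ℝ F p (0, 1) = t * fderiv ℝ φ (Phi α β s p) e := by
    intro p
    rw [hF, fderiv_Phi hφ.smooth, hPhi, map_smul, smul_eq_mul]
  have key := tor_shear hFs hs hsb (c := a ^ 2) (by positivity) (by
    intro z x hne
    have hmem : Phi α β s (z, x) ∈ Ω := by
      by_contra hcon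
      exact hne (hφ.zero_of_notMem hcon)
    obtain ⟨h1, h2, h3, h4⟩ := hΩ _ hmem
    simp only [Phi] at h1 h2 h3 h4
    simp at h1 h2 h3 h4
    obtain ⟨h5, h6⟩ := hrange x ⟨h1, h2⟩
    exact ⟨h5, h6, h3, h4⟩)
  have e1 : ∫ q, φ q = ∫ p, F p := integral_Phi α β s hβ φ
  have e2 : ∫ q, (fderiv ℝ φ q e) ^ 2 = a ^ 2 * ∫ p, (fderiv ℝ F p (0, 1)) ^ 2 := by
    rw [integral_Phi α β s hβ, ← integral_const_mul]
    congr 1
    ext p
    rw [hfx, mul_pow, ← mul_assoc]
    rw [mul_comm (a ^ 2), ht, one_mul]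
  rw [e1, e2]
  exact key

include hφ hH in
/-- The torsion functional is strictly below `1/48` when the seminorm is nonzero on the vertical
direction. -/
lemma tor_bound_pos (hΩ : ∀ q ∈ Ω, 0 < q 0 ∧ q 0 < 1 ∧ 0 < q 1 ∧ q 1 < 1 / 4)
    {e : EuclideanSpace ℝ (Fin 2)} (he1 : ‖e‖ = 1) (he : ∀ ξ, |inner ℝ e ξ| ≤ H ξ) {δ : ℝ}
    (hδ : H !₂[0, 1] = δ) (hδ0 : 0 < δ) :
    2 * (∫ q, φ q) - ∫ q, H (gradient φ q) ^ 2 ≤ 1 / 48 - δ / 300 := by
  obtain ⟨k, hk1, hk2⟩ := exists_support (H := H) !₂[0, 1]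
  have hkδ : k 1 = δ := by
    rw [inner_two, hδ] at hk1
    simpa using hk1
  have hδ1 : δ ≤ 1 := by
    rw [← hδ]
    refine (hH _).trans ?_
    have : ‖(!₂[0, 1] : EuclideanSpace ℝ (Fin 2))‖ ^ 2 = 1 := by
      rw [norm_two]; simp
    have h0 := norm_nonneg (!₂[0, 1] : EuclideanSpace ℝ (Fin 2))
    nlinarith
  have hk0 : |k 0| ≤ 1 := by
    have h2 := (hk2 k).trans (hH k)
    rw [real_inner_self_eq_norm_sq, abs_of_nonneg (sq_nonneg _)] at h2
    have h0 := norm_nonneg k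
    have h3 : ‖k‖ ≤ 1 := by
      by_contra hcon
      push Not at hcon
      nlinarith
    have h4 := norm_two k
    rw [← sq_le_one_iff_abs_le_one]
    nlinarith [sq_nonneg (k 1)]
  have hee : e 0 ^ 2 + e 1 ^ 2 = 1 := by rw [← norm_two, he1]; norm_num
  have hmono : 2 * (∫ q, φ q) - ∫ q, H (gradient φ q) ^ 2 ≤
      2 * (∫ q, φ q) - ∫ q, (fderiv ℝ φ q e) ^ 2 := by
    have := integral_mono (hφ.int_fderiv e) (hφ.int_H hH) (fun q => sq_le_H he φ q)
    linarith
  have hΩ' : ∀ q ∈ Ω, 0 < q 0 ∧ q 0 < 1 ∧ 0 < q 1 ∧ q 1 < 5 / 16 := fun q hq => by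
    obtain ⟨h1, h2, h3, h4⟩ := hΩ q hq
    exact ⟨h1, h2, h3, by linarith⟩
  by_cases hvert : 25 / 281 ≤ e 1 ^ 2
  · -- nearly vertical directions
    set F : ℝ × ℝ → ℝ := fun p => φ (Phi 0 1 0 p) with hF
    have hFs : ContDiff ℝ 1 F := (hφ.comp_contDiff 0 1 0).of_le (by simp)
    have he10 : e 1 ≠ 0 := by
      intro h
      rw [h] at hvert
      norm_num at hvert
    have hPhi : ∀ z x : ℝ, Phi 0 1 0 (z, x) ∈ Ω → 0 < x ∧ x < 1 ∧ 0 < z ∧ z < 1 / 4 := by
      intro z x hmem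
      obtain ⟨h1, h2, h3, h4⟩ := hΩ _ hmem
      simp only [Phi] at h1 h2 h3 h4
      simp at h1 h2 h3 h4
      exact ⟨h1, h2, h3, by linarith⟩
    have key := tor_vert hFs (b := 1 / 4) (s := e 0) (δ := e 1) (by norm_num) he10 (by
      intro z x hne
      apply hPhi
      by_contra hcon
      exact hne (hφ.zero_of_notMem hcon)) (Q := fun p => H (gradient φ (Phi 0 1 0 p)) ^ 2)
      ((hφ.cont_H hH).comp (Phi_contDiff 0 1 0 (n := 0)).continuous) (by
        rintro ⟨z, x⟩ hp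
        have : Phi 0 1 0 (z, x) ∉ Ω := by
          intro hmem
          obtain ⟨h1, h2, h3, h4⟩ := hPhi z x hmem
          exact hp ⟨⟨h3.le, h4.le⟩, ⟨h1.le, h2.le⟩⟩
        rw [hφ.grad_zero (fun h => this (hφ.supp h))]
        simp) (by
        intro p
        have hP : PhiL 1 0 (e 1, e 0) = e := by
          rw [PhiL_apply]
          ext i
          fin_cases i <;> simp
        rw [hF, fderiv_Phi hφ.smooth, hP]
        exact sq_le_H he φ _)
    rw [← integral_Phi 0 1 0 (by norm_num) φ,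
      ← integral_Phi 0 1 0 (by norm_num) (fun q => H (gradient φ q) ^ 2)] at key
    refine key.trans ?_
    have h5 : (1 / 4 : ℝ) ^ 3 / (12 * e 1 ^ 2) ≤ 281 / 19200 := by
      rw [div_le_div_iff₀ (by positivity) (by norm_num)]
      nlinarith
    refine h5.trans ?_
    linarith
  push Not at hvert
  have ha0 : e 0 ≠ 0 := by
    intro h
    rw [h] at hee
    nlinarith
  set a := e 0 with ha
  set s := |e 1 / a| with hs
  have hs0 : 0 ≤ s := abs_nonneg _
  have hssq : s ^ 2 = e 1 ^ 2 / a ^ 2 := by rw [hs, sq_abs, div_pow]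
  have hinv : 1 / a ^ 2 = 1 + s ^ 2 := by
    rw [hssq]
    field_simp
    linarith
  have hs516 : s < 5 / 16 := by
    have h1 : 0 < a ^ 2 := by positivity
    have h2 : s ^ 2 * a ^ 2 = e 1 ^ 2 := by
      rw [hssq]; field_simp
    have h3 : (1 + s ^ 2) * a ^ 2 = 1 := by
      rw [← hinv]; field_simp
    by_contra hcon
    push Not at hcon
    nlinarith
  rcases le_or_gt s (δ / 10) with hsmall | hlarge
  · -- nearly horizontal directions: use the additional flow
    set τ := e 1 / a with hτ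
    have hsa : s = |τ| := rfl
    have hPhiL : PhiL 1 τ (0, 1) = (1 / a) • e := by
      rw [PhiL_zero_one]
      ext i
      fin_cases i
      · simp [← ha, ha0]
      · simp [hτ]
        ring
    have hdir : PhiL 1 τ (δ - τ * k 0, k 0) = k := by
      rw [PhiL_apply]
      ext i
      fin_cases i
      · simp
      · simp [hkδ]
    have htk : |τ * k 0| ≤ δ / 10 := by
      rw [abs_mul]
      calc |τ| * |k 0| ≤ s * 1 := mul_le_mul le_rfl hk0 (abs_nonneg _) hs0
        _ ≤ δ / 10 := by linarith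
    have hδ' : 9 * δ / 10 ≤ δ - τ * k 0 := by
      have := (abs_le.1 htk).2
      linarith
    have hδ'0 : 0 < δ - τ * k 0 := by linarith
    set F : ℝ × ℝ → ℝ := fun p => φ (Phi 0 1 τ p) with hF
    have hFs : ContDiff ℝ 1 F := (hφ.comp_contDiff 0 1 τ).of_le (by simp)
    have hPhi : ∀ z x : ℝ, Phi 0 1 τ (z, x) ∈ Ω → 0 < x ∧ x < 1 ∧ 0 < z + τ * x ∧
        z + τ * x < 1 / 4 := by
      intro z x hmem
      obtain ⟨h1, h2, h3, h4⟩ := hΩ _ hmem
      simp only [Phi] at h1 h2 h3 h4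
      simp at h1 h2 h3 h4
      exact ⟨h1, h2, h3, by linarith⟩
    have hFne : ∀ z x, F (z, x) ≠ 0 → Phi 0 1 τ (z, x) ∈ Ω := by
      intro z x hne
      by_contra hcon
      exact hne (hφ.zero_of_notMem hcon)
    have hQ1 : ∀ p, a ^ 2 * (fderiv ℝ F p (0, 1)) ^ 2 ≤ H (gradient φ (Phi 0 1 τ p)) ^ 2 := by
      intro p
      rw [hF, fderiv_Phi hφ.smooth, hPhiL, map_smul, smul_eq_mul, mul_pow, ← mul_assoc]
      have : a ^ 2 * (1 / a) ^ 2 = 1 := by field_simp
      rw [this, one_mul]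
      exact sq_le_H he φ _
    have hQ2 : ∀ p, (fderiv ℝ F p (δ - τ * k 0, k 0)) ^ 2 ≤ H (gradient φ (Phi 0 1 τ p)) ^ 2 := by
      intro p
      rw [hF, fderiv_Phi hφ.smooth, hdir]
      exact sq_le_H hk2 φ _
    have hQc : Continuous fun p => H (gradient φ (Phi 0 1 τ p)) ^ 2 :=
      (hφ.cont_H hH).comp (Phi_contDiff 0 1 τ (n := 0)).continuous
    have hQz : ∀ p, Phi 0 1 τ p ∉ Ω → H (gradient φ (Phi 0 1 τ p)) ^ 2 = 0 := by
      intro p hp
      rw [hφ.grad_zero (fun h => hp (hφ.supp h))]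
      simp
    have hnum : (1 / 4 - δ / 10) / (12 * a ^ 2) + (δ / 10 + s) ^ 3 / (3 * (δ - τ * k 0) ^ 2) ≤
        1 / 48 - δ / 300 := by
      have t1 : (1 / 4 - δ / 10) / (12 * a ^ 2) = (1 / 4 - δ / 10) / 12 * (1 + s ^ 2) := by
        rw [← hinv]
        field_simp
      have t2 : (δ / 10 + s) ^ 3 / (3 * (δ - τ * k 0) ^ 2) ≤ 4 / 1215 * δ := by
        rw [div_le_iff₀ (by positivity)]
        have u1 : (δ / 10 + s) ^ 3 ≤ (δ / 5) ^ 3 :=
          pow_le_pow_left₀ (by positivity) (by linarith) 3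
        have u2 : (9 * δ / 10) ^ 2 ≤ (δ - τ * k 0) ^ 2 :=
          pow_le_pow_left₀ (by positivity) hδ' 2
        have u3 : 4 / 1215 * δ * (3 * (9 * δ / 10) ^ 2) = (δ / 5) ^ 3 := by ring
        have u4 : 4 / 1215 * δ * (3 * (9 * δ / 10) ^ 2) ≤
            4 / 1215 * δ * (3 * (δ - τ * k 0) ^ 2) := by
          apply mul_le_mul_of_nonneg_left _ (by positivity)
          linarith
        linarith
      have t3 : s ^ 2 ≤ δ / 100 := by nlinarith
      rw [t1]
      have t4 : (1 / 4 - δ / 10) / 12 * (1 + s ^ 2) ≤ (1 / 4 - δ / 10) / 12 * (1 + δ / 100) := by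
        apply mul_le_mul_of_nonneg_left _ (by linarith)
        linarith
      nlinarith
    rcases le_or_gt 0 τ with hτ0 | hτ0
    · have hsτ : s = τ := by rw [hsa, abs_of_nonneg hτ0]
      have key := tor_layer hFs (z₀ := -τ) (Y := 1 / 4 - δ / 10 - τ) (Z := 1 / 4) (c := a ^ 2)
        (s := k 0) (δ := δ - τ * k 0) (by linarith) (by linarith) (by positivity) hδ'0.ne'
        (by
          intro z x hne
          obtain ⟨h1, h2, h3, h4⟩ := hPhi z x (hFne z x hne)
          have h5 : τ * x ≤ τ := by nlinarith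
          have h6 : 0 ≤ τ * x := by positivity
          exact ⟨h1, h2, by linarith, by linarith⟩) hQc
        (by
          rintro ⟨z, x⟩ hp
          apply hQz
          intro hmem
          obtain ⟨h1, h2, h3, h4⟩ := hPhi z x hmem
          have h5 : τ * x ≤ τ := by nlinarith
          have h6 : 0 ≤ τ * x := by positivity
          exact hp ⟨⟨by simp only; linarith, by simp only; linarith⟩, ⟨h1.le, h2.le⟩⟩) hQ1 hQ2
      rw [← integral_Phi 0 1 τ (by norm_num) φ,
        ← integral_Phi 0 1 τ (by norm_num) (fun q => H (gradient φ q) ^ 2)] at key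
      refine key.trans (le_trans (le_of_eq ?_) hnum)
      congr 2
      · ring
      · rw [hsτ]; ring
    · have hsτ : s = -τ := by rw [hsa, abs_of_neg hτ0]
      have key := tor_layer hFs (z₀ := 0) (Y := 1 / 4 - δ / 10) (Z := 1 / 4 - τ) (c := a ^ 2)
        (s := k 0) (δ := δ - τ * k 0) (by linarith) (by linarith) (by positivity) hδ'0.ne'
        (by
          intro z x hne
          obtain ⟨h1, h2, h3, h4⟩ := hPhi z x (hFne z x hne)
          have h5 : τ ≤ τ * x := by nlinarith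
          have h6 : τ * x < 0 := by nlinarith
          exact ⟨h1, h2, by linarith, by linarith⟩) hQc
        (by
          rintro ⟨z, x⟩ hp
          apply hQz
          intro hmem
          obtain ⟨h1, h2, h3, h4⟩ := hPhi z x hmem
          have h5 : τ ≤ τ * x := by nlinarith
          have h6 : τ * x < 0 := by nlinarith
          exact hp ⟨⟨by simp only; linarith, by simp only; linarith⟩, ⟨h1.le, h2.le⟩⟩) hQ1 hQ2
      rw [← integral_Phi 0 1 τ (by norm_num) φ,
        ← integral_Phi 0 1 τ (by norm_num) (fun q => H (gradient φ q) ^ 2)] at key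
      refine key.trans (le_trans (le_of_eq ?_) hnum)
      congr 2
      · ring
      · rw [hsτ]; ring
  · have hspos : 0 < s := by linarith
    rcases le_or_gt s (1 / 4) with h14 | h14
    · have key := tor_shear' hφ (b := 1 / 4) (a := a) hspos h14 (e := e) rfl ha0 rfl hΩ
      refine hmono.trans (key.trans ?_)
      have : (1 / 4 / 12 - s / 24) / a ^ 2 = (1 / 48 - s / 24) * (1 + s ^ 2) := by
        rw [← hinv]; ring
      rw [this]
      nlinarith [mul_nonneg hs0 hs0, mul_nonneg hs0 (mul_nonneg hs0 hs0),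
        mul_nonneg hs0 (sub_nonneg.2 h14)]
    · have key := tor_shear' hφ (b := 5 / 16) (a := a) hspos hs516.le (e := e) rfl ha0 rfl hΩ'
      refine hmono.trans (key.trans ?_)
      have : (5 / 16 / 12 - s / 24) / a ^ 2 = (5 / 192 - s / 24) * (1 + s ^ 2) := by
        rw [← hinv]; ring
      rw [this]
      have v1 : s ^ 2 ≤ 25 / 256 := by nlinarith
      have v2 : (5 / 192 - s / 24) * (1 + s ^ 2) ≤ (5 / 192 - 1 / 96) * (1 + 25 / 256) := by
        apply mul_le_mul _ _ (by positivity) (by norm_num)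
        · linarith
        · linarith
      refine v2.trans ?_
      linarith

/-- The torsion functional in the domain with the cuts, horizontal direction. -/
lemma tor_bound_zero (hΩ : ∀ q ∈ Ω, 0 < q 0 ∧ q 0 < 1 ∧ 0 < q 1 ∧ q 1 < 1 / 4)
    (hcut : ∀ y : ℝ, 1 / 16 ≤ y → y ≤ 1 / 8 → ∃ x : ℝ, 1 / 3 ≤ x ∧ x ≤ 2 / 3 ∧ !₂[x, y] ∉ Ω)
    (hH : ∀ ξ, H ξ ≤ ‖ξ‖) (hφ : Test Ω φ)
    {e : EuclideanSpace ℝ (Fin 2)} (he1 : ‖e‖ = 1) (he : ∀ ξ, |inner ℝ e ξ| ≤ H ξ)
    (hδ : H !₂[0, 1] = 0) :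
    2 * (∫ q, φ q) - ∫ q, H (gradient φ q) ^ 2 ≤ 1 / 48 - 1 / 288 := by
  have he10 : e 1 = 0 := by
    have h := he !₂[0, 1]
    rw [hδ, inner_two] at h
    simp at h
    exact h
  have hee : e 0 ^ 2 = 1 := by
    have h := norm_two e
    rw [he1, he10] at h
    linarith
  have hmono : 2 * (∫ q, φ q) - ∫ q, H (gradient φ q) ^ 2 ≤
      2 * (∫ q, φ q) - ∫ q, (fderiv ℝ φ q e) ^ 2 := by
    have := integral_mono (hφ.int_fderiv e) (hφ.int_H hH) (fun q => sq_le_H he φ q)
    linarith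
  refine hmono.trans ?_
  set F : ℝ × ℝ → ℝ := fun p => φ (Phi 0 1 0 p) with hF
  have hFs : ContDiff ℝ 1 F := (hφ.comp_contDiff 0 1 0).of_le (by simp)
  have hPhi : ∀ z x : ℝ, Phi 0 1 0 (z, x) = !₂[x, z] := by
    intro z x
    simp [Phi]
  have hFne : ∀ z x, F (z, x) ≠ 0 → Phi 0 1 0 (z, x) ∈ Ω := by
    intro z x hne
    by_contra hcon
    exact hne (hφ.zero_of_notMem hcon)
  have key := tor_cut hFs (c := 1) one_pos (by
    intro z x hne
    have hmem := hFne z x hne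
    rw [hPhi] at hmem
    obtain ⟨h1, h2, h3, h4⟩ := hΩ _ hmem
    simp at h1 h2 h3 h4
    exact ⟨h1, h2, h3, by linarith⟩) (by
    intro z hz1 hz2
    obtain ⟨x, hx1, hx2, hx3⟩ := hcut z hz1 hz2
    refine ⟨x, hx1, hx2, ?_⟩
    rw [hF]
    simp only
    rw [hPhi]
    exact hφ.zero_of_notMem hx3)
  have hdir : PhiL 1 0 (0, 1) = e 0 • e := by
    rw [PhiL_zero_one]
    ext i
    fin_cases i
    · simp
      nlinarith
    · simp [he10]
  have e2 : ∫ q, (fderiv ℝ φ q e) ^ 2 = ∫ p, (fderiv ℝ F p (0, 1)) ^ 2 := by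
    rw [integral_Phi 0 1 0 (by norm_num)]
    congr 1
    ext p
    rw [hF, fderiv_Phi hφ.smooth, hdir, map_smul, smul_eq_mul, mul_pow, hee, one_mul]
  rw [integral_Phi 0 1 0 (by norm_num) φ, e2]
  linarith

end

end MPdcbbce
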