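import Mathlib
import Pool.Agent.Lib_MP_dcbbce_an.Bounds

open MeasureTheory Filter Topology Set
open scoped ContDiff ENNReal

namespace MPdcbbce

/-- The rectangle `(0,1) × (0,1/4)` minus a set `C`. -/
def Om (C : Set (ℝ × ℝ)) : Set (EuclideanSpace ℝ (Fin 2)) :=
  {q | (0 < q 0 ∧ q 0 < 1 ∧ 0 < q 1 ∧ q 1 < 1 / 4) ∧ (q 0, q 1) ∉ C}

/-- The properties of the removed compact set. -/
structure IsCut (C : Set (ℝ × ℝ)) : Prop where
  cpt : IsCompact C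
  box : ∀ p ∈ C, 1 / 3 ≤ p.1 ∧ p.1 ≤ 2 / 3 ∧ 1 / 16 ≤ p.2 ∧ p.2 ≤ 1 / 8
  full : ∀ y : ℝ, 1 / 16 ≤ y → y ≤ 1 / 8 → ∃ x, (x, y) ∈ C
  null : ∀ ε > 0, ∃ τ : ℝ, 0 < |τ| ∧ |τ| < ε ∧ volume ((fun p : ℝ × ℝ => p.2 - τ * p.1) '' C) = 0

lemma exists_isCut : ∃ C, IsCut C := by
  obtain ⟨C, h1, h2, h3, h4⟩ := exists_C
  exact ⟨C, h1, h2, h3, h4⟩

variable {C : Set (ℝ × ℝ)}

lemma Om_open (hC : IsCut C) : IsOpen (Om C) := by
  have h1 : Continuous fun q : EuclideanSpace ℝ (Fin 2) => q 0 := by fun_prop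
  have h2 : Continuous fun q : EuclideanSpace ℝ (Fin 2) => q 1 := by fun_prop
  apply IsOpen.inter
  · exact (isOpen_lt continuous_const h1).inter ((isOpen_lt h1 continuous_const).inter
      ((isOpen_lt continuous_const h2).inter (isOpen_lt h2 continuous_const)))
  · have : IsOpen ((fun q : EuclideanSpace ℝ (Fin 2) => (q 0, q 1)) ⁻¹' Cᶜ) :=
      hC.cpt.isClosed.isOpen_compl.preimage (h1.prodMk h2)
    exact this

lemma Om_norm {q : EuclideanSpace ℝ (Fin 2)} (hq : q ∈ Om C) : ‖q‖ ≤ 2 := by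
  obtain ⟨⟨h1, h2, h3, h4⟩, -⟩ := hq
  have := norm_two q
  have h0 := norm_nonneg q
  by_contra hcon
  push Not at hcon
  nlinarith

lemma Om_bounded : Bornology.IsBounded (Om C) := by
  rw [isBounded_iff_forall_norm_le]
  exact ⟨2, fun q hq => Om_norm hq⟩

lemma Om_rect {q : EuclideanSpace ℝ (Fin 2)} (hq : q ∈ Om C) :
    0 < q 0 ∧ q 0 < 1 ∧ 0 < q 1 ∧ q 1 < 1 / 4 := hq.1

lemma Om_cut (hC : IsCut C) :
    ∀ y : ℝ, 1 / 16 ≤ y → y ≤ 1 / 8 → ∃ x : ℝ, 1 / 3 ≤ x ∧ x ≤ 2 / 3 ∧ !₂[x, y] ∉ Om C := by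
  intro y hy1 hy2
  obtain ⟨x, hx⟩ := hC.full y hy1 hy2
  obtain ⟨h1, h2, -, -⟩ := hC.box _ hx
  refine ⟨x, h1, h2, ?_⟩
  intro h
  apply h.2
  simpa using hx

lemma Om_finite : volume (Om C) ≠ ⊤ := (Om_bounded (C := C)).measure_lt_top.ne

lemma dist_vert (q : EuclideanSpace ℝ (Fin 2)) (η : ℝ) : dist !₂[q 0, q 1 + η] q = |η| := by
  rw [dist_eq_norm]
  have h := norm_two (!₂[q 0, q 1 + η] - q)
  simp at h
  have h2 : ‖!₂[q 0, q 1 + η] - q‖ = |η| := by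
    rw [← abs_of_nonneg (norm_nonneg (!₂[q 0, q 1 + η] - q))]
    exact (sq_eq_sq_iff_abs_eq_abs _ _).1 h
  exact h2

lemma Om_connected (hC : IsCut C) : IsConnected (Om C) := by
  -- the left margin
  set M : Set (EuclideanSpace ℝ (Fin 2)) := {q | q 0 ∈ Ioo (0 : ℝ) (1 / 3) ∧
    q 1 ∈ Ioo (0 : ℝ) (1 / 4)} with hM
  have hMsub : M ⊆ Om C := by
    rintro q ⟨h1, h2⟩
    refine ⟨⟨h1.1, by linarith [h1.2], h2.1, h2.2⟩, fun hc => ?_⟩
    have := (hC.box _ hc).1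
    simp only at this
    linarith [h1.2]
  have hMconv : Convex ℝ M :=
    ((convex_Ioo (0 : ℝ) (1 / 3)).linear_preimage
      (EuclideanSpace.proj (𝕜 := ℝ) (0 : Fin 2) : EuclideanSpace ℝ (Fin 2) →L[ℝ] ℝ).toLinearMap).inter
    ((convex_Ioo (0 : ℝ) (1 / 4)).linear_preimage
      (EuclideanSpace.proj (𝕜 := ℝ) (1 : Fin 2) : EuclideanSpace ℝ (Fin 2) →L[ℝ] ℝ).toLinearMap)
  have hx0 : (!₂[1 / 6, 1 / 8] : EuclideanSpace ℝ (Fin 2)) ∈ M := by
    simp only [hM, mem_ofPred_eq]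
    simp
    norm_num
  refine ⟨⟨_, hMsub hx0⟩, ?_⟩
  apply isPreconnected_of_forall (!₂[1 / 6, 1 / 8] : EuclideanSpace ℝ (Fin 2))
  intro q hq
  obtain ⟨r, hr, hball⟩ := Metric.isOpen_iff.1 (Om_open hC) q hq
  obtain ⟨⟨h1, h2, h3, h4⟩, -⟩ := id hq
  set ρ := min r (min (q 1) (1 / 4 - q 1) / 2) with hρ
  have hρ0 : 0 < ρ := by
    apply lt_min hr
    have : 0 < min (q 1) (1 / 4 - q 1) := lt_min h3 (by linarith)
    linarith
  have hρr : ρ ≤ r := min_le_left _ _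
  have hρ1 : 2 * ρ ≤ q 1 := by
    have e1 : ρ ≤ min (q 1) (1 / 4 - q 1) / 2 := min_le_right _ _
    have e2 : min (q 1) (1 / 4 - q 1) ≤ q 1 := min_le_left _ _
    linarith
  have hρ2 : 2 * ρ ≤ 1 / 4 - q 1 := by
    have e1 : ρ ≤ min (q 1) (1 / 4 - q 1) / 2 := min_le_right _ _
    have e2 : min (q 1) (1 / 4 - q 1) ≤ 1 / 4 - q 1 := min_le_right _ _
    linarith
  obtain ⟨τ, -, hτρ, hnull⟩ := hC.null ρ hρ0
  -- a line missing the cut
  obtain ⟨z, hz, hznot⟩ : ∃ z ∈ Ioo (q 1 - τ * q 0 - ρ) (q 1 - τ * q 0 + ρ),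
      z ∉ (fun p : ℝ × ℝ => p.2 - τ * p.1) '' C := by
    by_contra hcon
    push Not at hcon
    have hle : volume (Ioo (q 1 - τ * q 0 - ρ) (q 1 - τ * q 0 + ρ)) ≤ 0 := by
      rw [← hnull]
      exact measure_mono hcon
    rw [Real.volume_Ioo] at hle
    have : 0 < ENNReal.ofReal (q 1 - τ * q 0 + ρ - (q 1 - τ * q 0 - ρ)) := by
      rw [ENNReal.ofReal_pos]
      linarith
    exact absurd hle (not_le.2 this)
  set η := z - (q 1 - τ * q 0) with hη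
  have hηρ : |η| < ρ := by
    rw [abs_lt]
    constructor
    · linarith [hz.1]
    · linarith [hz.2]
  set L : Set (EuclideanSpace ℝ (Fin 2)) := {p | (p 0 ∈ Ioo (0 : ℝ) 1 ∧ p 1 ∈ Ioo (0 : ℝ) (1 / 4)) ∧
    p 1 - τ * p 0 = z} with hL
  have hLsub : L ⊆ Om C := by
    rintro p ⟨⟨k1, k2⟩, k3⟩
    refine ⟨⟨k1.1, k1.2, k2.1, k2.2⟩, fun hc => hznot ⟨_, hc, k3⟩⟩
  have hLconv : Convex ℝ L := by
    have c1 : Convex ℝ {p : EuclideanSpace ℝ (Fin 2) | p 0 ∈ Ioo (0 : ℝ) 1 ∧ p 1 ∈ Ioo (0 : ℝ) (1 / 4)} :=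
      ((convex_Ioo (0 : ℝ) 1).linear_preimage
        (EuclideanSpace.proj (𝕜 := ℝ) (0 : Fin 2) : EuclideanSpace ℝ (Fin 2) →L[ℝ] ℝ).toLinearMap).inter
      ((convex_Ioo (0 : ℝ) (1 / 4)).linear_preimage
        (EuclideanSpace.proj (𝕜 := ℝ) (1 : Fin 2) : EuclideanSpace ℝ (Fin 2) →L[ℝ] ℝ).toLinearMap)
    have c2 : Convex ℝ {p : EuclideanSpace ℝ (Fin 2) | p 1 - τ * p 0 = z} := by
      intro p hp p' hp' a b ha hb hab
      simp only [mem_ofPred_eq, PiLp.add_apply, PiLp.smul_apply, smul_eq_mul] at hp hp' ⊢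
      have hb' : b = 1 - a := by linarith
      subst hb'
      linear_combination a * hp + (1 - a) * hp'
    exact c1.inter c2
  -- the common points
  have hP1 : (!₂[q 0, q 1 + η] : EuclideanSpace ℝ (Fin 2)) ∈ Metric.ball q r := by
    rw [Metric.mem_ball, dist_vert]
    linarith
  have hP1L : (!₂[q 0, q 1 + η] : EuclideanSpace ℝ (Fin 2)) ∈ L := by
    have hb := abs_lt.1 hηρ
    simp only [hL, mem_ofPred_eq]
    simp
    refine ⟨⟨⟨h1, h2⟩, by linarith [hb.1], by linarith [hb.2]⟩, by rw [hη]; ring⟩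
  have hP2 : (!₂[1 / 6, z + τ * (1 / 6)] : EuclideanSpace ℝ (Fin 2)) ∈ L ∩ M := by
    have hb := abs_lt.1 hηρ
    have ht : |τ * (1 / 6 - q 0)| ≤ |τ| := by
      rw [abs_mul]
      have : |1 / 6 - q 0| ≤ 1 := by
        rw [abs_le]; constructor <;> linarith
      calc |τ| * |1 / 6 - q 0| ≤ |τ| * 1 := mul_le_mul_of_nonneg_left this (abs_nonneg _)
        _ = |τ| := mul_one _
    have ht2 := abs_le.1 ht
    have e : z + τ * (1 / 6) = q 1 + η + τ * (1 / 6 - q 0) := by rw [hη]; ring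
    have k1 : 0 < z + τ * (1 / 6) := by rw [e]; linarith [hb.1, ht2.1]
    have k2 : z + τ * (1 / 6) < 1 / 4 := by rw [e]; linarith [hb.2, ht2.2]
    constructor
    · simp only [hL, mem_ofPred_eq]
      refine ⟨⟨⟨by norm_num, by norm_num⟩, ?_, ?_⟩, ?_⟩
      · simpa using k1
      · simpa using k2
      · simp
    · simp only [hM, mem_ofPred_eq]
      refine ⟨⟨by norm_num, by norm_num⟩, ?_, ?_⟩
      · simpa using k1
      · simpa using k2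
  refine ⟨Metric.ball q r ∪ (L ∪ M), ?_, ?_, ?_, ?_⟩
  · exact union_subset hball (union_subset hLsub hMsub)
  · exact Or.inr (Or.inr hx0)
  · exact Or.inl (Metric.mem_ball_self hr)
  · apply IsPreconnected.union _ hP1 (Or.inl hP1L) (convex_ball q r).isPreconnected
    exact IsPreconnected.union _ hP2.1 hP2.2 hLconv.isPreconnected hMconv.isPreconnected

end MPdcbbce
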