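import Mathlib
import Pool.Agent.Lib_MP_dcbbce_an.Domain

open MeasureTheory Filter Topology Set
open scoped ContDiff ENNReal

namespace MPdcbbce

/-- The product functions in sheared coordinates. -/
noncomputable def prodFn (f g : ℝ → ℝ) (τ : ℝ) (q : EuclideanSpace ℝ (Fin 2)) : ℝ :=
  f (q 0) * g (q 1 - τ * q 0)

lemma prodFn_Phi (f g : ℝ → ℝ) (τ z x : ℝ) : prodFn f g τ (Phi 0 1 τ (z, x)) = g z * f x := by
  unfold prodFn Phi
  simp
  ring

lemma prodFn_test {Ω : Set (EuclideanSpace ℝ (Fin 2))} {f g : ℝ → ℝ} (τ : ℝ)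
    (hf : ContDiff ℝ ∞ f) (hg : ContDiff ℝ ∞ g) (hfc : HasCompactSupport f)
    (hgc : HasCompactSupport g)
    (hΩ : ∀ x ∈ tsupport f, ∀ z ∈ tsupport g, !₂[x, z + τ * x] ∈ Ω) :
    Test Ω (prodFn f g τ) := by
  have hK : IsCompact (Phi 0 1 τ '' (tsupport g ×ˢ tsupport f)) :=
    (IsCompact.prod hgc hfc).image (Phi_contDiff 0 1 τ (n := 0)).continuous
  have hsub : Function.support (prodFn f g τ) ⊆ Phi 0 1 τ '' (tsupport g ×ˢ tsupport f) := by
    intro q hq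
    refine ⟨(q 1 - τ * q 0, q 0), ⟨?_, ?_⟩, ?_⟩
    · apply subset_tsupport
      intro h
      apply hq
      unfold prodFn
      rw [h, mul_zero]
    · apply subset_tsupport
      intro h
      apply hq
      unfold prodFn
      rw [h, zero_mul]
    · ext i
      fin_cases i <;> simp [Phi]
  refine ⟨?_, HasCompactSupport.of_support_subset_isCompact hK hsub, ?_⟩
  · have h0 : ContDiff ℝ ∞ fun q : EuclideanSpace ℝ (Fin 2) => q 0 := by fun_prop
    have h1 : ContDiff ℝ ∞ fun q : EuclideanSpace ℝ (Fin 2) => q 1 - τ * q 0 := by fun_prop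
    exact (hf.comp h0).mul (hg.comp h1)
  · refine (closure_minimal hsub hK.isClosed).trans ?_
    rintro _ ⟨⟨z, x⟩, ⟨hz, hx⟩, rfl⟩
    have := hΩ x hx z hz
    have e : Phi 0 1 τ (z, x) = !₂[x, z + τ * x] := by simp [Phi]
    rw [e]
    exact this

lemma prodFn_fderiv {Ω : Set (EuclideanSpace ℝ (Fin 2))} {f g : ℝ → ℝ} {τ : ℝ}
    (hf : ContDiff ℝ ∞ f) (hg : ContDiff ℝ ∞ g)
    (hT : Test Ω (prodFn f g τ)) (z x a b : ℝ) :
    fderiv ℝ (prodFn f g τ) (Phi 0 1 τ (z, x)) (PhiL 1 τ (a, b)) =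
      a * (deriv g z * f x) + b * (g z * deriv f x) := by
  rw [← fderiv_Phi hT.smooth]
  have e : (fun p => prodFn f g τ (Phi 0 1 τ p)) = fun p : ℝ × ℝ => g p.1 * f p.2 := by
    ext ⟨z, x⟩
    exact prodFn_Phi f g τ z x
  rw [e]
  have hg' : HasDerivAt g (deriv g z) z := (hg.differentiable (by simp) z).hasDerivAt
  have hf' : HasDerivAt f (deriv f x) x := (hf.differentiable (by simp) x).hasDerivAt
  have h1 : HasFDerivAt (fun p : ℝ × ℝ => g p.1) (deriv g z • ContinuousLinearMap.fst ℝ ℝ ℝ)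
      (z, x) := HasDerivAt.comp_hasFDerivAt (z, x) (f := fun p : ℝ × ℝ => p.1) hg' hasFDerivAt_fst
  have h2 : HasFDerivAt (fun p : ℝ × ℝ => f p.2) (deriv f x • ContinuousLinearMap.snd ℝ ℝ ℝ)
      (z, x) := HasDerivAt.comp_hasFDerivAt (z, x) (f := fun p : ℝ × ℝ => p.2) hf' hasFDerivAt_snd
  have h3 := (h1.fun_mul h2).fderiv
  rw [h3]
  simp
  ring

lemma integral_prodFn_sq (f g : ℝ → ℝ) (τ : ℝ) :
    ∫ q, prodFn f g τ q ^ 2 = (∫ z, g z ^ 2) * ∫ x, f x ^ 2 := by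
  rw [integral_Phi 0 1 τ (by norm_num), Measure.volume_eq_prod, ← integral_prod_mul]
  congr 1
  ext ⟨z, x⟩
  rw [prodFn_Phi, mul_pow]

lemma integral_prodFn (f g : ℝ → ℝ) (τ : ℝ) :
    ∫ q, prodFn f g τ q = (∫ z, g z) * ∫ x, f x := by
  rw [integral_Phi 0 1 τ (by norm_num), Measure.volume_eq_prod, ← integral_prod_mul]
  congr 1
  ext ⟨z, x⟩
  rw [prodFn_Phi]

lemma setIntegral_test {Ω : Set (EuclideanSpace ℝ (Fin 2))} {φ : EuclideanSpace ℝ (Fin 2) → ℝ}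
    (hφ : Test Ω φ) : ∫ x in Ω, φ x = ∫ x, φ x :=
  setIntegral_eq_integral_of_forall_compl_eq_zero fun _ hx => hφ.zero_of_notMem hx

lemma setIntegral_test_sq {Ω : Set (EuclideanSpace ℝ (Fin 2))} {φ : EuclideanSpace ℝ (Fin 2) → ℝ}
    (hφ : Test Ω φ) : ∫ x in Ω, φ x ^ 2 = ∫ x, φ x ^ 2 :=
  setIntegral_eq_integral_of_forall_compl_eq_zero fun x hx => by
    rw [hφ.zero_of_notMem hx]; norm_num

lemma setIntegral_test_H {Ω : Set (EuclideanSpace ℝ (Fin 2))} {φ : EuclideanSpace ℝ (Fin 2) → ℝ}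
    (hφ : Test Ω φ) (H : Seminorm ℝ (EuclideanSpace ℝ (Fin 2))) :
    ∫ x in Ω, H (gradient φ x) ^ 2 = ∫ x, H (gradient φ x) ^ 2 :=
  setIntegral_eq_integral_of_forall_compl_eq_zero fun x hx => by
    rw [hφ.grad_zero (fun h => hx (hφ.supp h))]; simp

/-- Elementary bounds for the quotients. -/
lemma eigQuot_nonneg {Ω : Set (EuclideanSpace ℝ (Fin 2))}
    {H : Seminorm ℝ (EuclideanSpace ℝ (Fin 2))} : ∀ r ∈ eigQuot Ω H, 0 ≤ r := by
  rintro r ⟨u, g, -, -, rfl⟩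
  exact div_nonneg (integral_nonneg fun _ => sq_nonneg _) (integral_nonneg fun _ => sq_nonneg _)

lemma torQuot_nonneg {Ω : Set (EuclideanSpace ℝ (Fin 2))}
    {H : Seminorm ℝ (EuclideanSpace ℝ (Fin 2))} : ∀ r ∈ torQuot Ω H, 0 ≤ r := by
  rintro r ⟨u, g, -, -, rfl⟩
  exact div_nonneg (sq_nonneg _) (integral_nonneg fun _ => sq_nonneg _)

/-- A seminorm below the norm is controlled by the partial derivatives. -/
lemma H_le {H : Seminorm ℝ (EuclideanSpace ℝ (Fin 2))} (hH : ∀ ξ, H ξ ≤ ‖ξ‖)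
    (ξ : EuclideanSpace ℝ (Fin 2)) : H ξ ≤ |ξ 0| + |ξ 1| * H !₂[0, 1] := by
  have e : ξ = ξ 0 • (!₂[1, 0] : EuclideanSpace ℝ (Fin 2)) + ξ 1 • !₂[0, 1] := by
    ext i
    fin_cases i <;> simp
  have h10 : H !₂[1, 0] ≤ 1 := by
    refine (hH _).trans ?_
    have h := norm_two !₂[1, 0]
    simp only [Matrix.cons_val_zero, Matrix.cons_val_one] at h
    have h0 := norm_nonneg (!₂[1, 0] : EuclideanSpace ℝ (Fin 2))
    nlinarith
  calc H ξ = H (ξ 0 • (!₂[1, 0] : EuclideanSpace ℝ (Fin 2)) + ξ 1 • !₂[0, 1]) := by rw [← e]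
    _ ≤ H (ξ 0 • (!₂[1, 0] : EuclideanSpace ℝ (Fin 2))) + H (ξ 1 • !₂[0, 1]) := map_add_le_add H _ _
    _ = |ξ 0| * H !₂[1, 0] + |ξ 1| * H !₂[0, 1] := by
        rw [map_smul_eq_mul, map_smul_eq_mul, Real.norm_eq_abs, Real.norm_eq_abs]
    _ ≤ |ξ 0| + |ξ 1| * H !₂[0, 1] := by
        have := mul_le_mul_of_nonneg_left h10 (abs_nonneg (ξ 0))
        linarith

lemma grad_zero_coord (φ : EuclideanSpace ℝ (Fin 2) → ℝ) (q : EuclideanSpace ℝ (Fin 2)) :
    gradient φ q 0 = fderiv ℝ φ q !₂[1, 0] := by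
  rw [← inner_gradient_eq, inner_two]; simp

lemma grad_one_coord (φ : EuclideanSpace ℝ (Fin 2) → ℝ) (q : EuclideanSpace ℝ (Fin 2)) :
    gradient φ q 1 = fderiv ℝ φ q !₂[0, 1] := by
  rw [← inner_gradient_eq, inner_two]; simp

/-- Upper bound for the first eigenvalue through product functions. -/
lemma lam_le {Ω : Set (EuclideanSpace ℝ (Fin 2))}
    (hΩ : ∀ x ∈ Ioo (0 : ℝ) 1, ∀ z ∈ Ioo (1 / 8 : ℝ) (1 / 4), !₂[x, z] ∈ Ω)
    {g : ℝ → ℝ} (hg : Test1 (1 / 8) (1 / 4) g) (hg0 : 0 < ∫ z, g z ^ 2)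
    {H : Seminorm ℝ (EuclideanSpace ℝ (Fin 2))} (hH : ∀ ξ, H ξ ≤ ‖ξ‖) {δ : ℝ}
    (hδ : H !₂[0, 1] = δ) :
    lam Ω H ≤ (1 + δ) * (A + δ * ((∫ z, deriv g z ^ 2) / ∫ z, g z ^ 2)) := by
  have hδ0 : 0 ≤ δ := by rw [← hδ]; exact apply_nonneg H _
  set D := (∫ z, deriv g z ^ 2) / ∫ z, g z ^ 2 with hD
  have main : ∀ ε > 0, lam Ω H ≤ (1 + δ) * (A + δ * D) + (1 + δ) * ε := by
    intro ε hε
    obtain ⟨f, hf, hf0, hfA⟩ := A_approx hε
    have hT : Test Ω (prodFn f g 0) := prodFn_test 0 hf.smooth hg.smooth hf.cpt hg.cpt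
      (fun x hx z hz => by
        have := hΩ x (hf.supp hx) z (hg.supp hz)
        simpa using this)
    have hmem : (∫ q, H (gradient (prodFn f g 0) q) ^ 2) / (∫ q, prodFn f g 0 q ^ 2) ∈
        eigQuot Ω H := by
      refine ⟨_, _, hT.isH10, ?_, ?_⟩
      · rw [setIntegral_test_sq hT, integral_prodFn_sq]
        positivity
      · rw [setIntegral_test_sq hT, setIntegral_test_H hT]
    have hle : lam Ω H ≤ _ := csInf_le ⟨0, eigQuot_nonneg⟩ hmem
    refine hle.trans ?_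
    rw [integral_prodFn_sq, div_le_iff₀ (by positivity)]
    -- pointwise bound
    have hpt : ∀ p : ℝ × ℝ, H (gradient (prodFn f g 0) (Phi 0 1 0 p)) ^ 2 ≤
        (1 + δ) * ((g p.1 ^ 2) * (deriv f p.2 ^ 2)) +
          (δ + δ ^ 2) * ((deriv g p.1 ^ 2) * (f p.2 ^ 2)) := by
      rintro ⟨z, x⟩
      have h1 := prodFn_fderiv hf.smooth hg.smooth hT z x 0 1
      have h2 := prodFn_fderiv hf.smooth hg.smooth hT z x 1 0
      have e1 : PhiL 1 0 (0, 1) = !₂[1, 0] := PhiL_zero_one 1 0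
      have e2 : PhiL 1 0 (1, 0) = !₂[0, 1] := by rw [PhiL_apply]; simp
      rw [e1, ← grad_zero_coord] at h1
      rw [e2, ← grad_one_coord] at h2
      have h3 := H_le hH (gradient (prodFn f g 0) (Phi 0 1 0 (z, x)))
      rw [h1, h2, hδ] at h3
      simp only [zero_mul, one_mul, zero_add, add_zero] at h3
      have h4 := pow_le_pow_left₀ (apply_nonneg H _) h3 2
      refine h4.trans ?_
      simp only
      have h5 : |g z * deriv f x| ^ 2 = g z ^ 2 * deriv f x ^ 2 := by rw [sq_abs, mul_pow]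
      have h6 : |deriv g z * f x| ^ 2 = deriv g z ^ 2 * f x ^ 2 := by rw [sq_abs, mul_pow]
      rw [← h5, ← h6]
      nlinarith [mul_nonneg hδ0 (sq_nonneg (|g z * deriv f x| - |deriv g z * f x|))]
    have i1 : Integrable (fun p : ℝ × ℝ => (1 + δ) * ((g p.1 ^ 2) * (deriv f p.2 ^ 2)))
        (volume.prod volume) := (hg.int_sq.mul_prod hf.int_deriv_sq).const_mul _
    have i2 : Integrable (fun p : ℝ × ℝ => (δ + δ ^ 2) * ((deriv g p.1 ^ 2) * (f p.2 ^ 2)))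
        (volume.prod volume) := (hg.int_deriv_sq.mul_prod hf.int_sq).const_mul _
    have i0 : Integrable (fun p : ℝ × ℝ => H (gradient (prodFn f g 0) (Phi 0 1 0 p)) ^ 2)
        (volume.prod volume) := by
      have := (Phi_measurePreserving 0 1 0 (by norm_num)).integrable_comp_emb
        (PhiH 0 1 0 (by norm_num)).measurableEmbedding (g := fun q => H (gradient (prodFn f g 0) q) ^ 2)
      exact this.2 (hT.int_H hH)
    have hint : ∫ q, H (gradient (prodFn f g 0) q) ^ 2 ≤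
        (1 + δ) * ((∫ z, g z ^ 2) * ∫ x, deriv f x ^ 2) +
          (δ + δ ^ 2) * ((∫ z, deriv g z ^ 2) * ∫ x, f x ^ 2) := by
      rw [integral_Phi 0 1 0 (by norm_num), Measure.volume_eq_prod]
      have := integral_mono i0 (i1.add i2) hpt
      refine this.trans (le_of_eq ?_)
      simp only [Pi.add_apply]
      rw [integral_add i1 i2, integral_const_mul, integral_const_mul,
        integral_prod_mul (fun z => g z ^ 2) (fun x => deriv f x ^ 2),
        integral_prod_mul (fun z => deriv g z ^ 2) (fun x => f x ^ 2)]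
    refine hint.trans ?_
    have hDg : (∫ z, deriv g z ^ 2) = D * ∫ z, g z ^ 2 := by
      rw [hD]; field_simp
    rw [hDg]
    have h7 : (∫ z, g z ^ 2) * ∫ x, deriv f x ^ 2 ≤
        (∫ z, g z ^ 2) * ((A + ε) * ∫ x, f x ^ 2) := mul_le_mul_of_nonneg_left hfA hg0.le
    have h8 : (1 + δ) * ((∫ z, g z ^ 2) * ∫ x, deriv f x ^ 2) ≤
        (1 + δ) * ((∫ z, g z ^ 2) * ((A + ε) * ∫ x, f x ^ 2)) :=
      mul_le_mul_of_nonneg_left h7 (by linarith)
    refine (add_le_add_left h8 _).trans (le_of_eq ?_)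
    ring
  refine le_of_forall_pos_le_add fun ε hε => ?_
  have h := main (ε / (1 + δ)) (by positivity)
  have e : (1 + δ) * (ε / (1 + δ)) = ε := by field_simp
  rw [e] at h
  exact h

/-- The seminorm `ξ ↦ |⟨e, ξ⟩|`. -/
noncomputable def lineSemi (e : EuclideanSpace ℝ (Fin 2)) :
    Seminorm ℝ (EuclideanSpace ℝ (Fin 2)) :=
  (normSeminorm ℝ ℝ).comp (innerSL ℝ e).toLinearMap

lemma lineSemi_apply (e ξ : EuclideanSpace ℝ (Fin 2)) : lineSemi e ξ = |inner ℝ e ξ| := rfl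

lemma lineSemi_inS {e : EuclideanSpace ℝ (Fin 2)} (he : ‖e‖ = 1) : InS (lineSemi e) := by
  constructor
  · rintro r ⟨ξ, hξ, rfl⟩
    rw [lineSemi_apply, div_le_one (norm_pos_iff.2 hξ)]
    have := abs_real_inner_le_norm e ξ
    rwa [he, one_mul] at this
  · intro b hb
    have hne : e ≠ 0 := by
      intro h
      rw [h, norm_zero] at he
      norm_num at he
    have := hb ⟨e, hne, rfl⟩
    rw [lineSemi_apply, real_inner_self_eq_norm_sq, he] at this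
    simpa using this

/-- The eigenvalue quotient for a nearly horizontal line seminorm. -/
lemma lineSemi_eig {Ω : Set (EuclideanSpace ℝ (Fin 2))}
    (hΩ : ∀ q ∈ Ω, 0 < q 0 ∧ q 0 < 1 ∧ 0 < q 1 ∧ q 1 < 1 / 4) (hfin : volume Ω ≠ ⊤)
    {e : EuclideanSpace ℝ (Fin 2)} (he : ‖e‖ = 1) {a τ : ℝ} (hea : e = a • !₂[1, τ])
    {u : EuclideanSpace ℝ (Fin 2) → ℝ}
    {g : EuclideanSpace ℝ (Fin 2) → EuclideanSpace ℝ (Fin 2)} (hu : IsH10 Ω u g) :
    a ^ 2 * A * (∫ x in Ω, u x ^ 2) ≤ ∫ x in Ω, lineSemi e (g x) ^ 2 := by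
  apply le_eig_of_test hfin (fun ξ => (lineSemi_inS he).le_norm ξ) _ hu
  intro φ hφ
  set F : ℝ × ℝ → ℝ := fun p => φ (Phi 0 1 τ p) with hF
  have hFs : ContDiff ℝ ∞ F := hφ.comp_contDiff 0 1 τ
  have hFc : HasCompactSupport F := hφ.cpt.comp_homeomorph (PhiH 0 1 τ (by norm_num))
  have hts : ∀ p ∈ tsupport F, 0 < p.2 ∧ p.2 < 1 := by
    intro p hp
    have hcl : IsClosed ((Phi 0 1 τ) ⁻¹' tsupport φ) :=
      (isClosed_tsupport φ).preimage (Phi_contDiff 0 1 τ (n := 0)).continuous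
    have hss : Function.support F ⊆ (Phi 0 1 τ) ⁻¹' tsupport φ := fun p hp =>
      subset_tsupport φ hp
    have hmem : Phi 0 1 τ p ∈ Ω := hφ.supp (closure_minimal hss hcl hp)
    obtain ⟨h1, h2, -, -⟩ := hΩ _ hmem
    simp only [Phi] at h1 h2
    simp at h1 h2
    exact ⟨h1, h2⟩
  have key := eig_slice hFs hFc hts
  have e1 : ∫ q, φ q ^ 2 = ∫ p, F p ^ 2 := integral_Phi 0 1 τ (by norm_num) (fun q => φ q ^ 2)
  have e2 : ∫ q, lineSemi e (gradient φ q) ^ 2 = a ^ 2 * ∫ p, (fderiv ℝ F p (0, 1)) ^ 2 := by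
    rw [integral_Phi 0 1 τ (by norm_num), ← integral_const_mul]
    congr 1
    ext p
    rw [lineSemi_apply, sq_abs, inner_gradient_eq, hF, fderiv_Phi hφ.smooth, PhiL_zero_one, hea,
      map_smul, smul_eq_mul, mul_pow]
  rw [e1, e2, mul_assoc]
  exact mul_le_mul_of_nonneg_left key (sq_nonneg a)

end MPdcbbce
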