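import Mathlib
import Pool.Agent.Lib_MP_dcbbce_an.Prod

open MeasureTheory Filter Topology Set
open scoped ContDiff ENNReal

namespace MPdcbbce

variable {C : Set (ℝ × ℝ)}

/-- Lower bound for the torsion of the line seminorms in the directions with null projections. -/
lemma lineSemi_tor (hC : IsCut C) {τ : ℝ} (hτ : |τ| < 1 / 4)
    (hnull : volume ((fun p : ℝ × ℝ => p.2 - τ * p.1) '' C) = 0)
    {e : EuclideanSpace ℝ (Fin 2)} (he : ‖e‖ = 1) {a : ℝ} (hea : e = a • !₂[1, τ])
    (hbdd : BddAbove (torQuot (Om C) (lineSemi e))) :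
    (1 / 4 - |τ|) / 12 ≤ tor (Om C) (lineSemi e) := by
  have ha : a ^ 2 ≤ 1 := by
    have h := norm_two e
    rw [he, hea] at h
    simp at h
    nlinarith [sq_nonneg (a * τ)]
  have ha0 : a ≠ 0 := by
    intro h
    rw [h, zero_smul] at hea
    rw [hea, norm_zero] at he
    norm_num at he
  set P := (fun p : ℝ × ℝ => p.2 - τ * p.1) '' C with hP
  have hPc : IsCompact P := hC.cpt.image (by fun_prop)
  set U : Set ℝ := Ioo (max 0 (-τ)) (min (1 / 4) (1 / 4 - τ)) \ P with hU
  have hUo : IsOpen U := isOpen_Ioo.sdiff hPc.isClosed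
  have hvol : volume U = ENNReal.ofReal (1 / 4 - |τ|) := by
    rw [hU, measure_sdiff_null hnull, Real.volume_Ioo]
    congr 1
    rcases le_total 0 τ with h | h
    · rw [abs_of_nonneg h, max_eq_left (by linarith), min_eq_right (by linarith)]
      ring
    · rw [abs_of_nonpos h, max_eq_right (by linarith), min_eq_left (by linarith)]
  have hvr : (volume U).toReal = 1 / 4 - |τ| := by
    rw [hvol, ENNReal.toReal_ofReal (by linarith)]
  have hvfin : volume U ≠ ⊤ := by rw [hvol]; exact ENNReal.ofReal_ne_top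
  have main : ∀ ε > 0, ε < (1 / 4 - |τ|) → ε < 1 / 24 →
      (1 / 4 - |τ|) / 12 - 2 * ε ≤ tor (Om C) (lineSemi e) := by
    intro ε hε hε1 hε2
    obtain ⟨g, g1, g2, g3, g4, g5, g6⟩ := exists_cutoff_int hUo hvfin hε
    rw [hvr] at g6
    obtain ⟨f, hf, hf0, hf1, hf2⟩ := exists_tor hε
    have hT : Test (Om C) (prodFn f g τ) := by
      apply prodFn_test τ hf.smooth g1 hf.cpt g2
      intro x hx z hz
      have hx' := hf.supp hx
      obtain ⟨⟨hz1, hz2⟩, hz3⟩ := g3 hz
      have h1 : 0 < z := lt_of_le_of_lt (le_max_left _ _) hz1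
      have h2 : -τ < z := lt_of_le_of_lt (le_max_right _ _) hz1
      have h3 : z < 1 / 4 := lt_of_lt_of_le hz2 (min_le_left _ _)
      have h4 : z < 1 / 4 - τ := lt_of_lt_of_le hz2 (min_le_right _ _)
      have h5 : 0 < z + τ * x := by
        rcases le_total 0 τ with h | h
        · have : 0 ≤ τ * x := mul_nonneg h hx'.1.le
          linarith
        · have : τ ≤ τ * x := by nlinarith [hx'.2]
          linarith
      have h6 : z + τ * x < 1 / 4 := by
        rcases le_total 0 τ with h | h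
        · have : τ * x ≤ τ := by nlinarith [hx'.2]
          linarith
        · have : τ * x ≤ 0 := mul_nonpos_of_nonpos_of_nonneg h hx'.1.le
          linarith
      refine ⟨⟨?_, ?_, ?_, ?_⟩, ?_⟩
      · simpa using hx'.1
      · simpa using hx'.2
      · simpa using h5
      · simpa using h6
      · intro hc
        apply hz3
        refine ⟨_, hc, ?_⟩
        simp
    have hgint : Integrable g := g1.continuous.integrable_of_hasCompactSupport g2
    have hg2int : Integrable (fun z => g z ^ 2) :=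
      Continuous.integrable_of_hasCompactSupport (by have := g1.continuous; fun_prop)
        (g2.comp_left (g := fun t => t ^ 2) (by norm_num))
    have hgpos : 0 < ∫ z, g z := by linarith
    have hfpos : 0 < ∫ x, f x := by linarith
    have hsqpos : ∀ {k : ℝ → ℝ}, Continuous k → Integrable (fun z => k z ^ 2) → 0 < ∫ z, k z →
        0 < ∫ z, k z ^ 2 := by
      intro k _ hk2 hk
      rcases (integral_nonneg (fun z => sq_nonneg (k z)) : 0 ≤ ∫ z, k z ^ 2).eq_or_lt with h | h
      · exfalso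
        have h0 := (integral_eq_zero_iff_of_nonneg (fun z => sq_nonneg (k z)) hk2).1 h.symm
        have h1 : k =ᵐ[volume] 0 := by
          filter_upwards [h0] with z hz
          simpa using hz
        rw [integral_congr_ae h1] at hk
        simp at hk
      · exact h
    have hg2pos : 0 < ∫ z, g z ^ 2 := hsqpos g1.continuous hg2int hgpos
    have hf2pos : 0 < ∫ x, f x ^ 2 := hsqpos hf.smooth.continuous hf.int_sq hfpos
    have hfdpos : 0 < ∫ x, deriv f x ^ 2 := by linarith [hf.poinc]
    have hg2le : ∫ z, g z ^ 2 ≤ ∫ z, g z := by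
      apply integral_mono hg2int hgint
      intro z
      simp only
      nlinarith [g4 z, g5 z]
    have hH : ∫ q, lineSemi e (gradient (prodFn f g τ) q) ^ 2 =
        a ^ 2 * ((∫ z, g z ^ 2) * ∫ x, deriv f x ^ 2) := by
      rw [integral_Phi 0 1 τ (by norm_num), Measure.volume_eq_prod, ← integral_prod_mul,
        ← integral_const_mul]
      congr 1
      ext ⟨z, x⟩
      have h1 := prodFn_fderiv hf.smooth g1 hT z x 0 1
      rw [PhiL_zero_one] at h1
      rw [lineSemi_apply, sq_abs, inner_gradient_eq, hea, map_smul, smul_eq_mul, h1]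
      ring
    have hmem : ((∫ z, g z) * ∫ x, f x) ^ 2 / (a ^ 2 * ((∫ z, g z ^ 2) * ∫ x, deriv f x ^ 2)) ∈
        torQuot (Om C) (lineSemi e) := by
      refine ⟨_, _, hT.isH10, ?_, ?_⟩
      · rw [setIntegral_test_sq hT, integral_prodFn_sq]
        positivity
      · rw [setIntegral_test hT, setIntegral_test_H hT, hH, integral_prodFn]
    have hle : _ ≤ tor (Om C) (lineSemi e) := le_csSup hbdd hmem
    refine le_trans ?_ hle
    set G := ∫ z, g z with hG
    set S := ∫ x, f x with hS
    set G2 := ∫ z, g z ^ 2 with hG2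
    set D := ∫ x, deriv f x ^ 2 with hD
    have hden : 0 < a ^ 2 * (G2 * D) := by positivity
    have h1 : 12 * G * S ^ 2 ≤ (G * S) ^ 2 / (a ^ 2 * (G2 * D)) := by
      rw [le_div_iff₀ hden]
      have k1 : a ^ 2 * (G2 * D) ≤ 1 * (G * (1 / 12)) := by
        apply mul_le_mul ha _ (by positivity) (by norm_num)
        exact mul_le_mul hg2le hf1 hfdpos.le hgpos.le
      have k2 : 12 * G * S ^ 2 * (a ^ 2 * (G2 * D)) ≤ 12 * G * S ^ 2 * (1 * (G * (1 / 12))) :=
        mul_le_mul_of_nonneg_left k1 (by positivity)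
      refine k2.trans (le_of_eq ?_)
      ring
    refine le_trans ?_ h1
    have h2 : (1 / 12 - 2 * ε) ^ 2 ≤ S ^ 2 := pow_le_pow_left₀ (by linarith) hf2 2
    have h3 : 12 * (1 / 4 - |τ| - ε) * (1 / 12 - 2 * ε) ^ 2 ≤ 12 * G * S ^ 2 := by
      apply mul_le_mul _ h2 (sq_nonneg _) (by positivity)
      linarith
    refine le_trans ?_ h3
    have hb : 1 / 4 - |τ| ≤ 1 / 4 := by linarith [abs_nonneg τ]
    nlinarith [mul_nonneg hε.le hε.le, mul_nonneg hε.le (sub_nonneg.2 hε1.le), abs_nonneg τ,
      mul_nonneg (mul_nonneg hε.le hε.le) (sub_nonneg.2 hε1.le)]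
  refine le_of_forall_pos_le_add fun ε hε => ?_
  have hb : 0 < 1 / 4 - |τ| := by linarith
  set ε' := min (ε / 2) (min ((1 / 4 - |τ|) / 2) (1 / 48)) with hε'
  have e1 : ε' ≤ ε / 2 := min_le_left _ _
  have e2 : ε' ≤ (1 / 4 - |τ|) / 2 := (min_le_right _ _).trans (min_le_left _ _)
  have e3 : ε' ≤ 1 / 48 := (min_le_right _ _).trans (min_le_right _ _)
  have e4 : 0 < ε' := by
    apply lt_min (by positivity)
    exact lt_min (by positivity) (by norm_num)
  have := main ε' e4 (by linarith) (by linarith)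
  linarith

/-- Poincare inequality for the seminorms in the class. -/
lemma poincare {H : Seminorm ℝ (EuclideanSpace ℝ (Fin 2))} (hH : InS H)
    {u : EuclideanSpace ℝ (Fin 2) → ℝ}
    {g : EuclideanSpace ℝ (Fin 2) → EuclideanSpace ℝ (Fin 2)} (hu : IsH10 (Om C) u g) :
    1 / 16 * (∫ x in Om C, u x ^ 2) ≤ ∫ x in Om C, H (g x) ^ 2 := by
  apply le_eig_of_test Om_finite hH.le_norm _ hu
  intro φ hφ
  obtain ⟨e, he1, he⟩ := hH.exists_unit
  have hmono : ∫ q, (fderiv ℝ φ q e) ^ 2 ≤ ∫ q, H (gradient φ q) ^ 2 :=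
    integral_mono (hφ.int_fderiv e) (hφ.int_H hH.le_norm) (fun q => sq_le_H he φ q)
  refine le_trans ?_ hmono
  have hφc := hφ.smooth.continuous
  have hφd := hφ.cont_fderiv e
  have hφdiff : ∀ q, HasFDerivAt φ (fderiv ℝ φ q) q := fun q =>
    (hφ.smooth.differentiable (by simp) q).hasFDerivAt
  -- the linear function
  set ℓ : EuclideanSpace ℝ (Fin 2) →L[ℝ] ℝ := innerSL ℝ e with hℓ
  have hℓe : ℓ e = 1 := by
    rw [hℓ, innerSL_apply_apply, real_inner_self_eq_norm_sq, he1]; norm_num
  have hsq : ∀ q, HasFDerivAt (fun q => φ q ^ 2) ((2 * φ q) • fderiv ℝ φ q) q := by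
    intro q
    have := (hφdiff q).pow 2
    simpa using this
  have hsqe : ∀ q, fderiv ℝ (fun q => φ q ^ 2) q e = 2 * φ q * fderiv ℝ φ q e := by
    intro q
    rw [(hsq q).fderiv]
    rfl
  have hcs : ∀ {k : EuclideanSpace ℝ (Fin 2) → ℝ}, Continuous k → (∀ q, q ∉ tsupport φ → k q = 0) →
      Integrable k := fun hk h0 =>
    hk.integrable_of_hasCompactSupport (HasCompactSupport.intro hφ.cpt h0)
  have hφ0 : ∀ q, q ∉ tsupport φ → φ q = 0 := fun q hq => image_eq_zero_of_notMem_tsupport hq
  have hd0 : ∀ q, q ∉ tsupport φ → fderiv ℝ φ q e = 0 := fun q hq => by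
    rw [← inner_gradient_eq, hφ.grad_zero hq]
    simp
  have ibp := integral_mul_fderiv_eq_neg_fderiv_mul_of_integrable (μ := volume)
    (f := fun q => φ q ^ 2) (g := fun q => ℓ q) (v := e)
    (by
      apply hcs
      · simp only [hsqe]
        fun_prop
      · intro q hq
        rw [hsqe, hφ0 q hq]
        ring)
    (by
      simp only [ContinuousLinearMap.fderiv]
      apply hcs
      · fun_prop
      · intro q hq
        rw [hφ0 q hq]
        ring)
    (by
      apply hcs
      · fun_prop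
      · intro q hq
        rw [hφ0 q hq]
        ring)
    (fun q _ => (hsq q).differentiableAt) (fun q _ => ℓ.differentiableAt)
  simp only [ContinuousLinearMap.fderiv, hℓe, mul_one, hsqe] at ibp
  -- the pointwise estimate
  have i1 : Integrable (fun q => φ q ^ 2) := hcs (by fun_prop) (fun q hq => by
    rw [hφ0 q hq]; norm_num)
  have i2 := hφ.int_fderiv e
  have i3 : Integrable (fun q => 2 * φ q * fderiv ℝ φ q e * ℓ q) := hcs (by fun_prop)
    (fun q hq => by rw [hφ0 q hq]; ring)
  have hle : - ∫ q, 2 * φ q * fderiv ℝ φ q e * ℓ q ≤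
      1 / 2 * (∫ q, φ q ^ 2) + 8 * ∫ q, (fderiv ℝ φ q e) ^ 2 := by
    rw [← integral_neg, ← integral_const_mul, ← integral_const_mul,
      ← integral_add (i1.const_mul _) (i2.const_mul _)]
    apply integral_mono i3.neg ((i1.const_mul _).add (i2.const_mul _))
    intro q
    simp only [Pi.add_apply, Pi.neg_apply]
    by_cases hq : q ∈ tsupport φ
    · have hn := Om_norm (hφ.supp hq)
      have hl : ℓ q ^ 2 ≤ 4 := by
        have h1 : |ℓ q| ≤ 2 := by
          rw [hℓ, innerSL_apply_apply]
          have := abs_real_inner_le_norm e q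
          rw [he1, one_mul] at this
          linarith
        rw [← sq_abs]
        nlinarith [abs_nonneg (ℓ q)]
      nlinarith [sq_nonneg (φ q + 2 * fderiv ℝ φ q e * ℓ q),
        mul_nonneg (sub_nonneg.2 hl) (sq_nonneg (fderiv ℝ φ q e))]
    · rw [hφ0 q hq, hd0 q hq]
      norm_num
  rw [← ibp] at hle
  linarith

/-- The two regimes of torsion bounds. -/
lemma torQuot_bound (hC : IsCut C) {H : Seminorm ℝ (EuclideanSpace ℝ (Fin 2))} (hH : InS H) :
    (0 < H !₂[0, 1] → ∀ r ∈ torQuot (Om C) H, r ≤ 1 / 48 - H !₂[0, 1] / 300) ∧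
    (H !₂[0, 1] = 0 → ∀ r ∈ torQuot (Om C) H, r ≤ 1 / 48 - 1 / 288) := by
  obtain ⟨e, he1, he⟩ := hH.exists_unit
  have hle1 : H !₂[0, 1] ≤ 1 := by
    refine (hH.le_norm _).trans ?_
    have h := norm_two !₂[0, 1]
    simp only [Matrix.cons_val_zero, Matrix.cons_val_one] at h
    have h0 := norm_nonneg (!₂[0, 1] : EuclideanSpace ℝ (Fin 2))
    nlinarith
  constructor
  · intro h
    apply tor_le_of_test Om_finite hH.le_norm (by linarith)
    intro φ hφ
    exact tor_bound_pos hH.le_norm hφ (fun q hq => Om_rect hq) he1 he rfl h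
  · intro h
    apply tor_le_of_test Om_finite hH.le_norm (by norm_num)
    intro φ hφ
    exact tor_bound_zero (fun q hq => Om_rect hq) (Om_cut hC) hH.le_norm hφ he1 he h

lemma torQuot_bdd (hC : IsCut C) {H : Seminorm ℝ (EuclideanSpace ℝ (Fin 2))} (hH : InS H) :
    BddAbove (torQuot (Om C) H) := by
  rcases (apply_nonneg H !₂[0, 1]).eq_or_lt with h | h
  · exact ⟨_, (torQuot_bound hC hH).2 h.symm⟩
  · exact ⟨_, (torQuot_bound hC hH).1 h⟩

lemma quot_nonempty (hC : IsCut C) (H : Seminorm ℝ (EuclideanSpace ℝ (Fin 2))) :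
    (eigQuot (Om C) H).Nonempty ∧ (torQuot (Om C) H).Nonempty := by
  obtain ⟨f, hf, hf0⟩ := exists_test1 (show (0 : ℝ) < 1 by norm_num)
  obtain ⟨g, hg, hg0⟩ := exists_test1 (show (1 / 8 : ℝ) < 1 / 4 by norm_num)
  have hT : Test (Om C) (prodFn f g 0) := by
    apply prodFn_test 0 hf.smooth hg.smooth hf.cpt hg.cpt
    intro x hx z hz
    have h1 := hf.supp hx
    have h2 := hg.supp hz
    refine ⟨⟨by simpa using h1.1, by simpa using h1.2, ?_, ?_⟩, ?_⟩
    · simp; linarith [h2.1]
    · simp; linarith [h2.2]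
    · intro hc
      have := (hC.box _ hc).2.2.2
      simp at this
      linarith [h2.1]
  have hne : (∫ x in Om C, prodFn f g 0 x ^ 2) ≠ 0 := by
    rw [setIntegral_test_sq hT, integral_prodFn_sq]
    positivity
  exact ⟨⟨_, _, _, hT.isH10, hne, rfl⟩, ⟨_, _, _, hT.isH10, hne, rfl⟩⟩

/-- The main analysis: for large `q` the supremum is `A / 48 ^ q` and it is not attained. -/
theorem main (hC : IsCut C) : ∃ q₀ : ℝ, 0 < q₀ ∧ ∀ q : ℝ, q₀ ≤ q →
    ∃ M : ℝ, IsLUB {r : ℝ | ∃ H : Seminorm ℝ (EuclideanSpace ℝ (Fin 2)),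
      InS H ∧ r = Fq q (Om C) H} M ∧
      ∀ H : Seminorm ℝ (EuclideanSpace ℝ (Fin 2)), InS H → Fq q (Om C) H < M := by
  obtain ⟨g, hg, hg0⟩ := exists_test1 (show (1 / 8 : ℝ) < 1 / 4 by norm_num)
  set D := (∫ z, deriv g z ^ 2) / ∫ z, g z ^ 2 with hD
  have hD0 : 0 ≤ D := div_nonneg (integral_nonneg fun _ => sq_nonneg _) hg0.le
  have hA := A_pos
  have hstrip : ∀ x ∈ Ioo (0 : ℝ) 1, ∀ z ∈ Ioo (1 / 8 : ℝ) (1 / 4), !₂[x, z] ∈ Om C := by
    intro x hx z hz
    refine ⟨⟨by simpa using hx.1, by simpa using hx.2, ?_, ?_⟩, ?_⟩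
    · simp; linarith [hz.1]
    · simp; linarith [hz.2]
    · intro hc
      have := (hC.box _ hc).2.2.2
      simp at this
      linarith [hz.1]
  refine ⟨7 * (1 + D / A), by positivity, fun q hq => ?_⟩
  have hq0 : 0 < q := lt_of_lt_of_le (by positivity) hq
  have hstrict : ∀ H : Seminorm ℝ (EuclideanSpace ℝ (Fin 2)), InS H →
      Fq q (Om C) H < A * (1 / 48) ^ q := by
    intro H hH
    obtain ⟨hne1, hne2⟩ := quot_nonempty hC H
    have hlam := lam_le hstrip hg hg0 hH.le_norm (rfl : H !₂[0, 1] = H !₂[0, 1])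
    have hlam0 : 0 ≤ lam (Om C) H := le_csInf hne1 eigQuot_nonneg
    have htor0 : 0 ≤ tor (Om C) H := by
      obtain ⟨r, hr⟩ := hne2
      exact (torQuot_nonneg r hr).trans (le_csSup (torQuot_bdd hC hH) hr)
    have hle1 : H !₂[0, 1] ≤ 1 := by
      refine (hH.le_norm _).trans ?_
      have h := norm_two !₂[0, 1]
      simp only [Matrix.cons_val_zero, Matrix.cons_val_one] at h
      have h0 := norm_nonneg (!₂[0, 1] : EuclideanSpace ℝ (Fin 2))
      nlinarith
    unfold Fq
    rcases (apply_nonneg H !₂[0, 1]).eq_or_lt with h | h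
    · -- the horizontal seminorm
      have htor : tor (Om C) H ≤ 1 / 48 - 1 / 288 := csSup_le hne2 ((torQuot_bound hC hH).2 h.symm)
      rw [← h] at hlam
      have hl : lam (Om C) H ≤ A := by
        refine hlam.trans (le_of_eq ?_)
        ring
      have h1 : tor (Om C) H ^ q ≤ (1 / 48 - 1 / 288) ^ q :=
        Real.rpow_le_rpow htor0 htor hq0.le
      have h2 : ((1 / 48 - 1 / 288 : ℝ)) ^ q < (1 / 48) ^ q :=
        Real.rpow_lt_rpow (by norm_num) (by norm_num) hq0
      calc lam (Om C) H * tor (Om C) H ^ q ≤ A * (1 / 48 - 1 / 288) ^ q :=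
            mul_le_mul hl h1 (Real.rpow_nonneg htor0 _) hA.le
        _ < A * (1 / 48) ^ q := mul_lt_mul_of_pos_left h2 hA
    · set δ := H !₂[0, 1] with hδ
      have htor : tor (Om C) H ≤ 1 / 48 - δ / 300 := csSup_le hne2 ((torQuot_bound hC hH).1 h)
      have h1 : lam (Om C) H ≤ A * Real.exp (δ * (1 + D / A)) := by
        refine hlam.trans ?_
        have e1 : (1 + δ) * (A + δ * D) = A * ((δ + 1) * (δ * (D / A) + 1)) := by
          field_simp
          ring
        rw [e1]
        apply mul_le_mul_of_nonneg_left _ hA.le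
        rw [show δ * (1 + D / A) = δ + δ * (D / A) by ring, Real.exp_add]
        apply mul_le_mul (Real.add_one_le_exp _) (Real.add_one_le_exp _) (by positivity)
          (Real.exp_pos _).le
      have h2 : tor (Om C) H ^ q ≤ (1 / 48) ^ q * Real.exp (-(48 / 300 * δ) * q) := by
        have h3 : tor (Om C) H ≤ 1 / 48 * Real.exp (-(48 / 300 * δ)) := by
          refine htor.trans ?_
          have := Real.add_one_le_exp (-(48 / 300 * δ))
          linarith
        refine (Real.rpow_le_rpow htor0 h3 hq0.le).trans (le_of_eq ?_)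
        rw [Real.mul_rpow (by norm_num) (Real.exp_pos _).le, ← Real.exp_mul]
      have h4 : lam (Om C) H * tor (Om C) H ^ q ≤
          A * (1 / 48) ^ q * (Real.exp (δ * (1 + D / A)) * Real.exp (-(48 / 300 * δ) * q)) := by
        refine (mul_le_mul h1 h2 (Real.rpow_nonneg htor0 _) (by positivity)).trans (le_of_eq ?_)
        ring
      refine lt_of_le_of_lt h4 ?_
      rw [← Real.exp_add]
      have h5 : δ * (1 + D / A) + -(48 / 300 * δ) * q < 0 := by
        have h6 : 1 + D / A < 48 / 300 * q := by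
          have : 0 < 1 + D / A := by positivity
          linarith
        nlinarith
      have h7 := Real.exp_lt_one_iff.2 h5
      have h8 : 0 < A * (1 / 48 : ℝ) ^ q := by positivity
      nlinarith
  refine ⟨A * (1 / 48) ^ q, ⟨?_, ?_⟩, hstrict⟩
  · rintro r ⟨H, hH, rfl⟩
    exact (hstrict H hH).le
  · intro M hM
    by_contra hcon
    push Not at hcon
    -- the comparison function
    set h : ℝ → ℝ := fun t => A / (1 + t ^ 2) * ((1 / 4 - |t|) / 12) ^ q with hh
    have hcont : ContinuousAt h 0 := by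
      apply ContinuousAt.mul
      · apply ContinuousAt.div (by fun_prop) (by fun_prop)
        norm_num
      · apply ContinuousAt.rpow_const (by fun_prop)
        left
        norm_num
    have h0 : h 0 = A * (1 / 48) ^ q := by
      simp only [hh]
      norm_num
    have hev : ∀ᶠ t in 𝓝 (0 : ℝ), M < h t := by
      apply hcont.eventually_const_lt
      rw [h0]
      exact hcon
    obtain ⟨ε, hε, hball⟩ := Metric.eventually_nhds_iff.1 hev
    obtain ⟨τ, -, hτε, hnull⟩ := hC.null (min ε (1 / 4)) (lt_min hε (by norm_num))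
    have hτ1 : |τ| < ε := lt_of_lt_of_le hτε (min_le_left _ _)
    have hτ2 : |τ| < 1 / 4 := lt_of_lt_of_le hτε (min_le_right _ _)
    have hMh : M < h τ := hball (by rw [Real.dist_eq, sub_zero]; exact hτ1)
    have hs : 0 < 1 + τ ^ 2 := by positivity
    set a := (Real.sqrt (1 + τ ^ 2))⁻¹ with ha
    have ha2 : a ^ 2 = 1 / (1 + τ ^ 2) := by
      rw [ha, inv_pow, Real.sq_sqrt hs.le, one_div]
    set e : EuclideanSpace ℝ (Fin 2) := a • !₂[1, τ] with he
    have hen : ‖e‖ = 1 := by
      have h1 := norm_two e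
      have h2 : e 0 ^ 2 + e 1 ^ 2 = 1 := by
        rw [he]
        simp
        rw [mul_pow, ha2]
        field_simp
      rw [h2] at h1
      have h3 := norm_nonneg e
      nlinarith
    have hS := lineSemi_inS hen
    have hbdd := torQuot_bdd hC hS
    have hT := lineSemi_tor hC hτ2 hnull hen he hbdd
    have hL : a ^ 2 * A ≤ lam (Om C) (lineSemi e) := by
      apply le_csInf (quot_nonempty hC _).1
      rintro r ⟨u, g, hu, hne, rfl⟩
      have hpos : 0 < ∫ x in Om C, u x ^ 2 :=
        lt_of_le_of_ne (integral_nonneg fun _ => sq_nonneg _) (Ne.symm hne)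
      rw [le_div_iff₀ hpos]
      exact lineSemi_eig (fun q hq => Om_rect hq) Om_finite hen he hu
    have hF : h τ ≤ Fq q (Om C) (lineSemi e) := by
      unfold Fq
      simp only [hh]
      rw [show A / (1 + τ ^ 2) = a ^ 2 * A by rw [ha2]; ring]
      apply mul_le_mul hL _ (Real.rpow_nonneg (by linarith) _)
        ((mul_nonneg (sq_nonneg a) hA.le).trans hL)
      exact Real.rpow_le_rpow (by linarith) hT hq0.le
    have := hM ⟨lineSemi e, hS, rfl⟩
    linarith

end MPdcbbce
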